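import Pool.Agent.T2h18.BC.Stm

set_option autoImplicit false

/-!
# Project BC, task BAS: the basic facts
-/

namespace Pool.Agent.T2h18.BC.BAS

open Finset

variable {m n : ℕ} {d : Fin m → Fin n × Fin n}

/-- the formula for `J` -/
def HJ (d : Fin m → Fin n × Fin n) : Prop := ∀ (F : Finset (Fin m)) (f : Fin m) (u v : Fin n),
  J d (insert f F) u v ↔
    J d F u v ∨ (J d F u (d f).1 ∧ J d F (d f).2 v) ∨ (J d F u (d f).2 ∧ J d F (d f).1 v)

theorem vs_in (h : HJ d) {F : Finset (Fin m)} {f : Fin m} {v : Fin n}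
    (hv : J d F v (d f).1 ∨ J d F v (d f).2) (w : Fin n) :
    J d (insert f F) v w ↔ J d F (d f).1 w ∨ J d F (d f).2 w := by
  rw [h F f v w]
  rcases hv with hv | hv
  · constructor
    · rintro (h1 | h1 | h1)
      · exact Or.inl (hv.symm.trans h1)
      · exact Or.inr h1.2
      · exact Or.inl h1.2
    · rintro (h1 | h1)
      · exact Or.inl (hv.trans h1)
      · exact Or.inr (Or.inl ⟨hv, h1⟩)
  · constructor
    · rintro (h1 | h1 | h1)
      · exact Or.inr (hv.symm.trans h1)
      · exact Or.inr h1.2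
      · exact Or.inl h1.2
    · rintro (h1 | h1)
      · exact Or.inr (Or.inr ⟨hv, h1⟩)
      · exact Or.inl (hv.trans h1)

theorem vs_out (h : HJ d) {F : Finset (Fin m)} {f : Fin m} {v : Fin n}
    (h1 : ¬ J d F v (d f).1) (h2 : ¬ J d F v (d f).2) (w : Fin n) :
    J d (insert f F) v w ↔ J d F v w := by
  rw [h F f v w]
  constructor
  · rintro (h3 | h3 | h3)
    · exact h3
    · exact absurd h3.1 h1
    · exact absurd h3.1 h2
  · exact Or.inl

theorem num (h : HJ d) {F : Finset (Fin m)} {f : Fin m} (hf : f ∉ F) {v : Fin n}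
    (hv : J d F v (d f).1 ∨ J d F v (d f).2) :
    (J d F (d f).1 (d f).2 ∧ (vs d (insert f F) v).card = (vs d F (d f).1).card ∧
      (es d (insert f F) v).card = (es d F (d f).1).card + 1) ∨
    (¬ J d F (d f).1 (d f).2 ∧
      (vs d (insert f F) v).card = (vs d F (d f).1).card + (vs d F (d f).2).card ∧
      (es d (insert f F) v).card = (es d F (d f).1).card + (es d F (d f).2).card + 1) := by
  have e1 : vs d (insert f F) v = vs d F (d f).1 ∪ vs d F (d f).2 := by
    ext w
    rw [mem_vs, mem_union, mem_vs, mem_vs]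
    exact vs_in h hv w
  have e2 : es d (insert f F) v = insert f (es d F (d f).1 ∪ es d F (d f).2) := by
    ext w
    rw [mem_es, mem_insert, mem_insert, mem_union, mem_es, mem_es, vs_in h hv]
    constructor
    · rintro ⟨h1 | h1, h2⟩
      · exact Or.inl h1
      · rcases h2 with h2 | h2
        · exact Or.inr (Or.inl ⟨h1, h2⟩)
        · exact Or.inr (Or.inr ⟨h1, h2⟩)
    · rintro (h1 | h1 | h1)
      · subst h1
        exact ⟨Or.inl rfl, Or.inl (J.refl _)⟩
      · exact ⟨Or.inr h1.1, Or.inl h1.2⟩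
      · exact ⟨Or.inr h1.1, Or.inr h1.2⟩
  have hn : f ∉ es d F (d f).1 ∪ es d F (d f).2 := by
    rw [mem_union, mem_es, mem_es]
    rintro (h1 | h1)
    · exact hf h1.1
    · exact hf h1.1
  rw [e1, e2, card_insert_of_notMem hn]
  by_cases hxy : J d F (d f).1 (d f).2
  · left
    refine ⟨hxy, ?_, ?_⟩
    · rw [← vs_eq_of_J hxy, union_self]
    · rw [← es_eq_of_J hxy, union_self]
  · right
    refine ⟨hxy, ?_, ?_⟩
    · rw [card_union_of_disjoint]
      rw [disjoint_left]
      intro w h1 h2
      rw [mem_vs] at h1 h2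
      exact hxy (h1.trans h2.symm)
    · rw [card_union_of_disjoint]
      rw [disjoint_left]
      intro w h1 h2
      rw [mem_es] at h1 h2
      exact hxy (h1.2.trans h2.2.symm)

theorem num2 (h : HJ d) {F : Finset (Fin m)} {f : Fin m} {v : Fin n}
    (h1 : ¬ J d F v (d f).1) (h2 : ¬ J d F v (d f).2) :
    vs d (insert f F) v = vs d F v ∧ es d (insert f F) v = es d F v := by
  constructor
  · ext w
    rw [mem_vs, mem_vs]
    exact vs_out h h1 h2 w
  · ext w
    rw [mem_es, mem_es, mem_insert, vs_out h h1 h2]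
    constructor
    · rintro ⟨h3 | h3, h4⟩
      · subst h3
        exact absurd h4 h1
      · exact ⟨h3, h4⟩
    · rintro ⟨h3, h4⟩
      exact ⟨Or.inr h3, h4⟩

theorem J_empty {u v : Fin n} (h : J d ∅ u v) : v = u :=
  J_of_not_tch (by simp [tch]) h

theorem es_empty (v : Fin n) : (es d ∅ v).card = 0 := by
  rw [card_eq_zero, eq_empty_iff_forall_notMem]
  intro w hw
  rw [mem_es] at hw
  exact absurd hw.1 (notMem_empty w)

theorem vs_empty (v : Fin n) : (vs d ∅ v).card = 1 := by
  rw [card_eq_one]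
  refine ⟨v, ?_⟩
  ext w
  rw [mem_vs, mem_singleton]
  constructor
  · exact J_empty
  · rintro rfl
    exact J.refl _

theorem card_le (h : HJ d) (F : Finset (Fin m)) :
    ∀ v, (vs d F v).card ≤ (es d F v).card + 1 := by
  induction F using Finset.induction_on with
  | empty =>
    intro v
    rw [vs_empty, es_empty]
  | insert f F hf ih =>
    intro v
    by_cases hv : J d F v (d f).1 ∨ J d F v (d f).2
    · have h1 := ih (d f).1
      have h2 := ih (d f).2
      rcases num h hf hv with ⟨_, h3, h4⟩ | ⟨_, h3, h4⟩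
      · omega
      · omega
    · rw [not_or] at hv
      obtain ⟨h1, h2⟩ := num2 h hv.1 hv.2
      rw [h1, h2]
      exact ih v

theorem cyc_insert (h : HJ d) (F : Finset (Fin m)) (f : Fin m) (hf : f ∉ F) (v : Fin n) :
    (Cyc d (insert f F) v ↔ ((J d F v (d f).1 ∨ J d F v (d f).2) ∧
        (J d F (d f).1 (d f).2 ∨ Cyc d F (d f).1 ∨ Cyc d F (d f).2)) ∨
      (¬ J d F v (d f).1 ∧ ¬ J d F v (d f).2 ∧ Cyc d F v)) := by
  by_cases hv : J d F v (d f).1 ∨ J d F v (d f).2
  · have h1 := card_le h F (d f).1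
    have h2 := card_le h F (d f).2
    have h5 : ¬ (¬ J d F v (d f).1 ∧ ¬ J d F v (d f).2 ∧ Cyc d F v) := fun h6 => by
      rcases hv with hv | hv
      · exact h6.1 hv
      · exact h6.2.1 hv
    rcases num h hf hv with ⟨h0, h3, h4⟩ | ⟨h0, h3, h4⟩
    · constructor
      · intro _
        exact Or.inl ⟨hv, Or.inl h0⟩
      · intro _
        unfold Cyc
        omega
    · constructor
      · intro h6
        refine Or.inl ⟨hv, Or.inr ?_⟩
        unfold Cyc at h6 ⊢
        omega
      · rintro (h6 | h6)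
        · rcases h6.2 with h7 | h7
          · exact absurd h7 h0
          · unfold Cyc at h7 ⊢
            omega
        · exact absurd h6 h5
  · have hv' := hv
    rw [not_or] at hv'
    obtain ⟨h1, h2⟩ := num2 h hv'.1 hv'.2
    have h3 : Cyc d (insert f F) v ↔ Cyc d F v := by
      unfold Cyc
      rw [h1, h2]
    rw [h3]
    constructor
    · intro h4
      exact Or.inr ⟨hv'.1, hv'.2, h4⟩
    · rintro (h4 | h4)
      · exact absurd h4.1 hv
      · exact h4.2.2

theorem ind_insert (h : HJ d) (F : Finset (Fin m)) (f : Fin m) (hf : f ∉ F) :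
    (Ind d (insert f F) ↔ Ind d F ∧ ¬ (Cyc d F (d f).1 ∧ Cyc d F (d f).2)) := by
  have h1 := card_le h F (d f).1
  have h2 := card_le h F (d f).2
  constructor
  · intro hI
    have hx := hI (d f).1
    have key : ((es d F (d f).1).card ≤ (vs d F (d f).1).card ∧
        (es d F (d f).2).card ≤ (vs d F (d f).2).card) ∧
        ¬ (Cyc d F (d f).1 ∧ Cyc d F (d f).2) := by
      rcases num h hf (Or.inl (J.refl (d f).1) : J d F (d f).1 (d f).1 ∨ J d F (d f).1 (d f).2)
        with ⟨h0, h3, h4⟩ | ⟨h0, h3, h4⟩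
      · have e1 := vs_eq_of_J h0
        have e2 := es_eq_of_J h0
        have h5 : (es d F (d f).1).card + 1 ≤ (vs d F (d f).1).card := by omega
        refine ⟨⟨by omega, by rw [← e1, ← e2]; omega⟩, fun h6 => ?_⟩
        have := h6.1
        unfold Cyc at this
        omega
      · refine ⟨⟨by omega, by omega⟩, fun h6 => ?_⟩
        obtain ⟨h7, h8⟩ := h6
        unfold Cyc at h7 h8
        omega
    refine ⟨fun v => ?_, key.2⟩
    by_cases hv1 : J d F v (d f).1
    · rw [vs_eq_of_J hv1, es_eq_of_J hv1]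
      exact key.1.1
    · by_cases hv2 : J d F v (d f).2
      · rw [vs_eq_of_J hv2, es_eq_of_J hv2]
        exact key.1.2
      · obtain ⟨h3, h4⟩ := num2 h hv1 hv2
        have := hI v
        rw [h3, h4] at this
        exact this
  · rintro ⟨hI, hc⟩ v
    have hx := hI (d f).1
    have hy := hI (d f).2
    by_cases hv : J d F v (d f).1 ∨ J d F v (d f).2
    · rcases num h hf hv with ⟨h0, h3, h4⟩ | ⟨h0, h3, h4⟩
      · have h5 : ¬ Cyc d F (d f).1 := fun h6 => hc ⟨h6, (Cyc.congr h0).1 h6⟩
        unfold Cyc at h5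
        omega
      · unfold Cyc at hc
        omega
    · rw [not_or] at hv
      obtain ⟨h3, h4⟩ := num2 h hv.1 hv.2
      rw [h3, h4]
      exact hI v

theorem cyc_mono' (h : HJ d) (Y Z : Finset (Fin m)) (v : Fin n) (hY : Cyc d Y v) :
    Cyc d (Y ∪ Z) v := by
  induction Z using Finset.induction_on with
  | empty => rwa [union_empty]
  | insert f Z hf ih =>
    rw [union_insert]
    by_cases hm : f ∈ Y ∪ Z
    · rwa [insert_eq_of_mem hm]
    · rw [cyc_insert h _ f hm]
      by_cases h1 : J d (Y ∪ Z) v (d f).1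
      · exact Or.inl ⟨Or.inl h1, Or.inr (Or.inl ((Cyc.congr h1).1 ih))⟩
      · by_cases h2 : J d (Y ∪ Z) v (d f).2
        · exact Or.inl ⟨Or.inr h2, Or.inr (Or.inr ((Cyc.congr h2).1 ih))⟩
        · exact Or.inr ⟨h1, h2, ih⟩

theorem ind_mono' (h : HJ d) (Y Z : Finset (Fin m)) (hY : Ind d (Y ∪ Z)) : Ind d Y := by
  induction Z using Finset.induction_on with
  | empty => rwa [union_empty] at hY
  | insert f Z hf ih =>
    rw [union_insert] at hY
    by_cases hm : f ∈ Y ∪ Z
    · rw [insert_eq_of_mem hm] at hY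
      exact ih hY
    · rw [ind_insert h _ f hm] at hY
      exact ih hY.1

theorem main (h : HJ d) : Bas d where
  J_insert := h
  card_le := card_le h
  cyc_mono Y F hYF v hY := by
    have := cyc_mono' h Y F v hY
    rwa [union_eq_right.2 hYF] at this
  ind_mono Y F hYF hF := by
    rw [← union_eq_right.2 hYF] at hF
    exact ind_mono' h Y F hF
  ind_empty v := by
    rw [es_empty]
    exact Nat.zero_le _
  not_cyc_empty v hv := by
    unfold Cyc at hv
    rw [vs_empty, es_empty] at hv
    exact absurd hv (by norm_num)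
  ind_insert F f hf := ind_insert h F f hf
  cyc_insert F f hf v := cyc_insert h F f hf v
  bridge F f hf hc := by
    have h1 := cyc_insert h (F.erase f) f (notMem_erase f F) (d f).1
    rw [insert_erase hf] at h1
    rw [h1, not_or] at hc
    have h2 := hc.1
    have h3 : ¬ (J d (F.erase f) (d f).1 (d f).2 ∨ Cyc d (F.erase f) (d f).1 ∨
        Cyc d (F.erase f) (d f).2) := fun h4 => h2 ⟨Or.inl (J.refl _), h4⟩
    rw [not_or, not_or] at h3
    exact h3

end Pool.Agent.T2h18.BC.BAS

namespace Pool.Agent.T2h18.BC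

theorem t_BAS : S_BAS := fun h m n d => BAS.main (h m n d)

end Pool.Agent.T2h18.BC
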