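import Pool.Agent.T2h18.BC.Stm

set_option autoImplicit false

/-! # Project BC, part CLS: the number of possible data -/

namespace Pool.Agent.T2h18.BC

open Finset

namespace CLS

variable {m n : ℕ}

theorem partner_unique {d : Fin m → Fin n × Fin n} {P : Finset (Fin n)} {A : Finset (Fin m)}
    {b b' b'' : Fin n} (hb : b ∈ P) (h' : Partner d P A b b') (h'' : Partner d P A b b'') :
    b' = b'' := by
  obtain ⟨h1, h2, h3, h4, h5⟩ := h'
  obtain ⟨k1, k2, k3, _, _⟩ := h''
  by_contra hne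
  have hsub : ({b, b', b''} : Finset (Fin n)) ⊆ P ∩ vs d A b := by
    intro x hx
    simp only [mem_insert, mem_singleton] at hx
    rw [mem_inter, mem_vs]
    rcases hx with rfl | rfl | rfl
    · exact ⟨hb, J.refl _⟩
    · exact ⟨h1, h3⟩
    · exact ⟨k1, k3⟩
  have hc := card_le_card hsub
  rw [h5, card_insert_of_notMem, card_insert_of_notMem, card_singleton] at hc
  · omega
  · simpa using hne
  · simp only [mem_insert, mem_singleton, not_or]
    exact ⟨fun h => h2 h.symm, fun h => k2 h.symm⟩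

end CLS

theorem t_CLS : S_CLS := by
  classical
  intro m n d A B P l hl
  set C := core d P A B with hC
  let T := (C × C → Bool) × (C → Bool) × (C → Bool) × (C → Bool)
  have hcard : Fintype.card T ≤ Fintype.card (Fin (2 ^ (36 * l ^ 2 + 18 * l))) := by
    show Fintype.card ((C × C → Bool) × (C → Bool) × (C → Bool) × (C → Bool)) ≤ _
    simp only [Fintype.card_prod, Fintype.card_fun, Fintype.card_bool, Fintype.card_coe,
      Fintype.card_fin, ← pow_add]
    apply Nat.pow_le_pow_right (by norm_num)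
    nlinarith [Nat.mul_le_mul hl hl]
  obtain ⟨φ⟩ := Function.Embedding.nonempty_of_card_le hcard
  let D : Finset (Fin m) → T := fun Y =>
    (fun c => decide (J d Y c.1 c.2), fun c => decide (Cyc d Y c),
      fun c => decide (∃ b, Partner d P A c b ∧ J d Y c b),
      fun c => decide (∃ b b', Partner d P B c b ∧ Partner d P A b b' ∧ J d Y b b'))
  refine ⟨fun Y => φ (D Y), ?_⟩
  intro Y₁ Y₂ h
  have hD : D Y₁ = D Y₂ := φ.injective h
  have h1 : ∀ c : C × C, J d Y₁ c.1 c.2 ↔ J d Y₂ c.1 c.2 := fun c => by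
    have := congrFun (congrArg Prod.fst hD) c
    exact decide_eq_decide.1 this
  have h2 : ∀ c : C, Cyc d Y₁ c ↔ Cyc d Y₂ c := fun c => by
    have := congrFun (congrArg (fun z : T => z.2.1) hD) c
    exact decide_eq_decide.1 this
  have h3 : ∀ c : C, (∃ b, Partner d P A c b ∧ J d Y₁ c b) ↔
      (∃ b, Partner d P A c b ∧ J d Y₂ c b) := fun c => by
    have := congrFun (congrArg (fun z : T => z.2.2.1) hD) c
    exact decide_eq_decide.1 this
  have h4 : ∀ c : C, (∃ b b', Partner d P B c b ∧ Partner d P A b b' ∧ J d Y₁ b b') ↔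
      (∃ b b', Partner d P B c b ∧ Partner d P A b b' ∧ J d Y₂ b b') := fun c => by
    have := congrFun (congrArg (fun z : T => z.2.2.2) hD) c
    exact decide_eq_decide.1 this
  have hP : ∀ c ∈ C, c ∈ P := fun c hc => (mem_core.1 hc).1
  refine ⟨⟨fun v hv w hw => h1 (⟨v, hv⟩, ⟨w, hw⟩), fun v hv => h2 ⟨v, hv⟩⟩, ?_, ?_⟩
  · intro c hc b hb
    have := h3 ⟨c, hc⟩
    constructor
    · intro hJ
      obtain ⟨b₂, hb₂, hJ₂⟩ := this.1 ⟨b, hb, hJ⟩
      rw [CLS.partner_unique (hP c hc) hb hb₂]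
      exact hJ₂
    · intro hJ
      obtain ⟨b₂, hb₂, hJ₂⟩ := this.2 ⟨b, hb, hJ⟩
      rw [CLS.partner_unique (hP c hc) hb hb₂]
      exact hJ₂
  · intro c hc b b' hb hb'
    have := h4 ⟨c, hc⟩
    constructor
    · intro hJ
      obtain ⟨b₂, b₃, hb₂, hb₃, hJ₂⟩ := this.1 ⟨b, b', hb, hb', hJ⟩
      have e1 : b = b₂ := CLS.partner_unique (hP c hc) hb hb₂
      subst e1
      have e2 : b' = b₃ := CLS.partner_unique hb.1 hb' hb₃
      subst e2
      exact hJ₂
    · intro hJ
      obtain ⟨b₂, b₃, hb₂, hb₃, hJ₂⟩ := this.2 ⟨b, b', hb, hb', hJ⟩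
      have e1 : b = b₂ := CLS.partner_unique (hP c hc) hb hb₂
      subst e1
      have e2 : b' = b₃ := CLS.partner_unique hb.1 hb' hb₃
      subst e2
      exact hJ₂

end Pool.Agent.T2h18.BC
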