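import Pool.Agent.T2h18.BC.Stm

set_option autoImplicit false

/-! Task CNT of project BC (helper18): the core has at most `6 l` vertices. -/

namespace Pool.Agent.T2h18.BC

open Finset

namespace CNT

variable {m n : ℕ} {d : Fin m → Fin n × Fin n}

theorem vs_iso {F : Finset (Fin m)} {v : Fin n} (hv : v ∉ tch d F) : vs d F v = {v} := by
  ext w
  rw [mem_vs, mem_singleton]
  constructor
  · intro h
    exact J_of_not_tch hv h
  · intro h
    rw [h]
    exact J.refl v

theorem es_iso {F : Finset (Fin m)} {v : Fin n} (hv : v ∉ tch d F) : es d F v = ∅ := by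
  rw [eq_empty_iff_forall_notMem]
  intro e he
  rw [mem_es] at he
  have h := J_of_not_tch hv he.2
  exact hv (mem_tch.2 ⟨e, he.1, Or.inl h⟩)

theorem not_cyc_iso {F : Finset (Fin m)} {v : Fin n} (hv : v ∉ tch d F) : ¬ Cyc d F v := by
  unfold Cyc
  rw [vs_iso hv, es_iso hv]
  simp

open Classical in
theorem nc_eq (F : Finset (Fin m)) :
    nc d F = ((univ.filter fun v => ¬ Cyc d F v).image (vs d F)).card := by
  unfold nc
  congr!

theorem nc_ge (F : Finset (Fin m)) : n ≤ nc d F + (tch d F).card := by
  classical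
  have h1 : (univ \ tch d F).image (vs d F) ⊆ (univ.filter fun v => ¬ Cyc d F v).image (vs d F) := by
    refine image_subset_image ?_
    intro v hv
    rw [mem_sdiff] at hv
    rw [mem_filter]
    exact ⟨mem_univ _, not_cyc_iso hv.2⟩
  have h2 : ((univ \ tch d F).image (vs d F)).card = (univ \ tch d F).card := by
    refine card_image_of_injOn ?_
    intro v hv w hw h
    rw [mem_coe, mem_sdiff] at hv hw
    rw [vs_iso hv.2, vs_iso hw.2] at h
    exact singleton_injective h
  have h3 := card_le_card h1
  rw [h2, card_sdiff_of_subset (subset_univ _), card_univ, Fintype.card_fin] at h3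
  have h4 : nc d F = ((univ.filter fun v => ¬ Cyc d F v).image (vs d F)).card := by
    rw [nc_eq]
  have h5 : (tch d F).card ≤ n := by
    have := card_le_univ (tch d F)
    rwa [Fintype.card_fin] at this
  rw [h4]
  omega

open Classical in
/-- the tree components with vertices in `tch` -/
noncomputable def TT (d : Fin m → Fin n × Fin n) (A : Finset (Fin m)) : Finset (Finset (Fin n)) :=
  ((tch d A).filter fun v => ¬ Cyc d A v).image (vs d A)

theorem nc_le (A : Finset (Fin m)) : nc d A + (tch d A).card ≤ n + (TT d A).card := by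
  classical
  have h1 : (univ.filter fun v => ¬ Cyc d A v).image (vs d A) ⊆
      (univ \ tch d A).image (vs d A) ∪ TT d A := by
    intro S hS
    rw [mem_image] at hS
    obtain ⟨v, hv, rfl⟩ := hS
    rw [mem_filter] at hv
    rw [mem_union]
    by_cases h : v ∈ tch d A
    · right
      unfold TT
      rw [mem_image]
      exact ⟨v, mem_filter.2 ⟨h, hv.2⟩, rfl⟩
    · left
      exact mem_image_of_mem _ (mem_sdiff.2 ⟨mem_univ _, h⟩)
  have h2 := (card_le_card h1).trans (card_union_le _ _)
  have h3 : ((univ \ tch d A).image (vs d A)).card ≤ n - (tch d A).card := by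
    refine card_image_le.trans ?_
    rw [card_sdiff_of_subset (subset_univ _), card_univ, Fintype.card_fin]
  have h5 : (tch d A).card ≤ n := by
    have := card_le_univ (tch d A)
    rwa [Fintype.card_fin] at this
  have h4 : nc d A = ((univ.filter fun v => ¬ Cyc d A v).image (vs d A)).card := by
    rw [nc_eq]
  rw [h4]
  omega

open Classical in
theorem side (A : Finset (Fin m)) (P : Finset (Fin n)) (hP : P ⊆ tch d A)
    (h2 : ∀ v ∈ tch d A, ¬ Cyc d A v → 2 ≤ (P ∩ vs d A v).card) :
    (P.filter fun b => ¬ Thin d P A b).card + 6 * (TT d A).card ≤ 3 * P.card := by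
  set P1 := P.filter fun b => ¬ Cyc d A b with hP1
  set P0 := P.filter fun b => Cyc d A b with hP0
  have hsplit : P.card = P0.card + P1.card := (card_filter_add_card_filter_not _).symm
  have hmap : ∀ b ∈ P1, vs d A b ∈ TT d A := by
    intro b hb
    rw [hP1, mem_filter] at hb
    unfold TT
    rw [mem_image]
    exact ⟨b, mem_filter.2 ⟨hP hb.1, hb.2⟩, rfl⟩
  have hfib : ∀ S ∈ TT d A, P1.filter (fun b => vs d A b = S) = P ∩ S ∧ 2 ≤ (P ∩ S).card := by
    intro S hS
    unfold TT at hS
    rw [mem_image] at hS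
    obtain ⟨v, hv, rfl⟩ := hS
    rw [mem_filter] at hv
    refine ⟨?_, h2 v hv.1 hv.2⟩
    ext b
    rw [mem_filter, mem_inter, hP1, mem_filter, mem_vs]
    constructor
    · rintro ⟨⟨hb1, hb2⟩, hb3⟩
      refine ⟨hb1, ?_⟩
      have : b ∈ vs d A b := mem_vs.2 (J.refl b)
      rw [hb3] at this
      exact mem_vs.1 this
    · rintro ⟨hb1, hb2⟩
      exact ⟨⟨hb1, fun h => hv.2 ((Cyc.congr hb2).2 h)⟩, (vs_eq_of_J hb2).symm⟩
  have hc1 : P1.card = ∑ S ∈ TT d A, (P ∩ S).card := by
    rw [card_eq_sum_card_fiberwise hmap]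
    exact sum_congr rfl fun S hS => by rw [(hfib S hS).1]
  have hc2 : (P1.filter fun b => ¬ Thin d P A b).card ≤
      ∑ S ∈ TT d A, (if (P ∩ S).card = 2 then 0 else (P ∩ S).card) := by
    rw [card_eq_sum_card_fiberwise (f := vs d A) (t := TT d A)
      (fun b hb => hmap b (mem_filter.1 hb).1)]
    refine sum_le_sum fun S hS => ?_
    split_ifs with h
    · rw [Nat.le_zero, card_eq_zero, eq_empty_iff_forall_notMem]
      intro b hb
      rw [mem_filter, mem_filter] at hb
      obtain ⟨⟨hb1, hb2⟩, hb3⟩ := hb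
      rw [hP1, mem_filter] at hb1
      apply hb2
      refine ⟨hb1.2, ?_⟩
      rw [hb3]
      exact h
    · rw [← (hfib S hS).1]
      refine card_le_card ?_
      intro b hb
      rw [mem_filter, mem_filter] at hb
      rw [mem_filter]
      exact ⟨hb.1.1, hb.2⟩
  have hc3 : (P.filter fun b => ¬ Thin d P A b).card ≤
      P0.card + (P1.filter fun b => ¬ Thin d P A b).card := by
    refine (card_le_card ?_).trans (card_union_le _ _)
    intro b hb
    rw [mem_filter] at hb
    rw [mem_union]
    by_cases h : Cyc d A b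
    · exact Or.inl (mem_filter.2 ⟨hb.1, h⟩)
    · exact Or.inr (mem_filter.2 ⟨mem_filter.2 ⟨hb.1, h⟩, hb.2⟩)
  have hc4 : ∑ S ∈ TT d A, (if (P ∩ S).card = 2 then 0 else (P ∩ S).card) + 6 * (TT d A).card ≤
      3 * ∑ S ∈ TT d A, (P ∩ S).card := by
    have : 6 * (TT d A).card = ∑ S ∈ TT d A, 6 := by
      rw [sum_const, smul_eq_mul, mul_comm]
    rw [this, ← sum_add_distrib, mul_sum]
    refine sum_le_sum fun S hS => ?_
    have := (hfib S hS).2
    split_ifs with h
    · omega
    · omega
  rw [hsplit]
  omega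

end CNT

theorem t_CNT : S_CNT := by
  classical
  intro m n d _ A B P l hP hA hB h
  have hPA : P ⊆ tch d A := fun v hv => ((hP v).1 hv).1
  have hPB : P ⊆ tch d B := fun v hv => ((hP v).1 hv).2
  have h1 := CNT.side A P hPA hA
  have h2 := CNT.side B P hPB hB
  have h3 := CNT.nc_le (d := d) A
  have h4 := CNT.nc_le (d := d) B
  have h5 := CNT.nc_ge (d := d) (A ∪ B)
  have h6 : (tch d (A ∪ B)).card + P.card ≤ (tch d A).card + (tch d B).card := by
    have h7 : tch d (A ∪ B) ⊆ tch d A ∪ tch d B := by
      intro v hv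
      rw [mem_tch] at hv
      obtain ⟨e, he, h⟩ := hv
      rw [mem_union] at he
      rw [mem_union, mem_tch, mem_tch]
      rcases he with he | he
      · exact Or.inl ⟨e, he, h⟩
      · exact Or.inr ⟨e, he, h⟩
    have h8 : P = tch d A ∩ tch d B := by
      ext v
      rw [hP, mem_inter]
    have h9 := card_union_add_card_inter (tch d A) (tch d B)
    rw [← h8] at h9
    have := card_le_card h7
    omega
  have h7 : (core d P A B).card ≤ (P.filter fun b => ¬ Thin d P A b).card +
      (P.filter fun b => ¬ Thin d P B b).card := by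
    refine (card_le_card ?_).trans (card_union_le _ _)
    intro b hb
    rw [mem_core] at hb
    rw [mem_union, mem_filter, mem_filter]
    by_cases h : Thin d P A b
    · exact Or.inr ⟨hb.1, fun h' => hb.2 ⟨h, h'⟩⟩
    · exact Or.inl ⟨hb.1, h⟩
  omega

end Pool.Agent.T2h18.BC
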