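import Pool.Agent.T2h18.BC.Stm

set_option autoImplicit false

namespace Pool.Agent.T2h18.BC

open Finset

theorem t_COL : S_COL := by
  intro hG m n d hd F f
  constructor
  · rintro h ⟨h1, h2⟩
    obtain ⟨Y, hY, hI, hc, -⟩ := hG m n d hd (F.erase f)
    have hf : f ∉ Y := fun h' => Finset.notMem_erase f F (hY h')
    exact ((hd.ind_insert Y f hf).1 (h Y hY hI)).2 ⟨(hc _).2 h1, (hc _).2 h2⟩
  · intro h Y hY hI
    have hf : f ∉ Y := fun h' => Finset.notMem_erase f F (hY h')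
    exact (hd.ind_insert Y f hf).2 ⟨hI, fun h' =>
      h ⟨hd.cyc_mono Y _ hY _ h'.1, hd.cyc_mono Y _ hY _ h'.2⟩⟩

end Pool.Agent.T2h18.BC
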