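import Pool.Agent.T2h18.BC.Stm

set_option autoImplicit false

namespace Pool.Agent.T2h18.BC

open Finset

theorem Thin.congr {m n : ℕ} {d : Fin m → Fin n × Fin n} {P : Finset (Fin n)} {A : Finset (Fin m)}
    {b b' : Fin n} (h : J d A b b') (ht : Thin d P A b) : Thin d P A b' := by
  unfold Thin at ht ⊢
  rw [← Cyc.congr h, ← vs_eq_of_J h]
  exact ht

theorem thin_partner {m n : ℕ} {d : Fin m → Fin n × Fin n} {P : Finset (Fin n)} {A : Finset (Fin m)}
    {b : Fin n} (hb : b ∈ P) (ht : Thin d P A b) : ∃ b', Partner d P A b b' ∧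
      ∀ c ∈ P, J d A b c → c = b ∨ c = b' := by
  classical
  obtain ⟨x, y, hxy, he⟩ := Finset.card_eq_two.1 ht.2
  have hbm : b ∈ P ∩ vs d A b := mem_inter.2 ⟨hb, mem_vs.2 (J.refl b)⟩
  have hx : x ∈ P ∩ vs d A b := by rw [he]; simp
  have hy : y ∈ P ∩ vs d A b := by rw [he]; simp
  rw [he] at hbm
  rcases mem_insert.1 hbm with h | h
  · refine ⟨y, ⟨(mem_inter.1 hy).1, by rw [h]; exact hxy.symm, mem_vs.1 (mem_inter.1 hy).2, ht⟩, ?_⟩
    intro c hc hj
    have h1 : c ∈ P ∩ vs d A b := mem_inter.2 ⟨hc, mem_vs.2 hj⟩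
    rw [he] at h1
    rcases mem_insert.1 h1 with h1 | h1
    · exact Or.inl (h1.trans h.symm)
    · exact Or.inr (mem_singleton.1 h1)
  · have h := mem_singleton.1 h
    refine ⟨x, ⟨(mem_inter.1 hx).1, by rw [h]; exact hxy, mem_vs.1 (mem_inter.1 hx).2, ht⟩, ?_⟩
    intro c hc hj
    have h1 : c ∈ P ∩ vs d A b := mem_inter.2 ⟨hc, mem_vs.2 hj⟩
    rw [he] at h1
    rcases mem_insert.1 h1 with h1 | h1
    · exact Or.inr h1
    · exact Or.inl ((mem_singleton.1 h1).trans h.symm)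

theorem partner_unique {m n : ℕ} {d : Fin m → Fin n × Fin n} {P : Finset (Fin n)} {A : Finset (Fin m)}
    {b b' c : Fin n} (hb : b ∈ P) (h : Partner d P A b b') (h' : Partner d P A b c) : c = b' := by
  obtain ⟨x, -, hx⟩ := thin_partner hb h.2.2.2
  rcases hx b' h.1 h.2.2.1 with h1 | h1
  · exact absurd h1 h.2.1
  · rcases hx c h'.1 h'.2.2.1 with h2 | h2
    · exact absurd h2 h'.2.1
    · rw [h1, h2]

theorem Partner.symm {m n : ℕ} {d : Fin m → Fin n × Fin n} {P : Finset (Fin n)} {A : Finset (Fin m)}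
    {b b' : Fin n} (hb : b ∈ P) (h : Partner d P A b b') : Partner d P A b' b :=
  ⟨hb, h.2.1.symm, h.2.2.1.symm, h.2.2.2.congr h.2.2.1⟩

theorem not_cyc_of_not_tch {m n : ℕ} {d : Fin m → Fin n × Fin n} {F : Finset (Fin m)} {v : Fin n}
    (h : v ∉ tch d F) : ¬ Cyc d F v := by
  intro hc
  have h1 : es d F v = ∅ := by
    rw [Finset.eq_empty_iff_forall_notMem]
    intro e he
    obtain ⟨he1, he2⟩ := mem_es.1 he
    exact h (mem_tch.2 ⟨e, he1, Or.inl (J_of_not_tch h he2)⟩)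
  have h2 : 0 < (vs d F v).card := Finset.card_pos.2 ⟨v, mem_vs.2 (J.refl v)⟩
  unfold Cyc at hc
  rw [h1, Finset.card_empty] at hc
  omega

theorem es_nonempty {m n : ℕ} {d : Fin m → Fin n × Fin n} {F : Finset (Fin m)} {v : Fin n}
    (h : v ∈ tch d F) : ∃ e, e ∈ es d F v := by
  obtain ⟨e, he, h1⟩ := mem_tch.1 h
  refine ⟨e, mem_es.2 ⟨he, ?_⟩⟩
  rcases h1 with h1 | h1
  · rw [h1]; exact J.refl v
  · rw [← h1]; exact (J.edge he).symm

theorem tch_mono {m n : ℕ} {d : Fin m → Fin n × Fin n} {F F' : Finset (Fin m)} (h : F ⊆ F') {v : Fin n}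
    (hv : v ∈ tch d F) : v ∈ tch d F' := by
  obtain ⟨e, he, h1⟩ := mem_tch.1 hv
  exact mem_tch.2 ⟨e, h he, h1⟩

theorem t_DAT : S_DAT := by
  classical
  intro h1 h2 h3 m n d hb A B P hp sA sB Y₁ Y₂ c1 c2 sd
  obtain ⟨sd1, sd2, sd3⟩ := sd
  have hPA : ∀ b ∈ P, b ∈ tch d A := fun b hb' => ((hp.hP b).1 hb').1
  -- series
  have ser : ∀ Y, Closed d A B Y → ∀ b ∈ P, ∀ b' ∈ P, b ≠ b' → J d B b b' → Thin d P B b →
      Thin d P A b → Thin d P A b' → ¬ J d A b b' → es d A b ⊆ Y → es d A b' ⊆ Y := by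
    intro Y hY b hbP b' hbP' hne hJ hB hA hA' hn hsub e he
    obtain ⟨f, hf⟩ := es_nonempty (hPA b hbP)
    exact hY.2 f (hsub hf) e (mem_es.1 he).1
      (h2 m n d hb A B P hp sA sB b hbP b' hbP' hne hJ hB hA hA' hn f hf e he)
  have ser' : ∀ Y, Closed d A B Y → ∀ b ∈ P, ∀ b' ∈ P, b ≠ b' → J d B b b' → Thin d P B b →
      Thin d P A b → Thin d P A b' → ¬ J d A b b' → (es d A b ⊆ Y ↔ es d A b' ⊆ Y) := by
    intro Y hY b hbP b' hbP' hne hJ hB hA hA' hn
    exact ⟨ser Y hY b hbP b' hbP' hne hJ hB hA hA' hn,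
      ser Y hY b' hbP' b hbP hne.symm hJ.symm (hB.congr hJ) hA' hA (fun h => hn h.symm)⟩
  set good : Fin n → Prop := fun b => ∀ b', Partner d P A b b' → (J d Y₁ b b' ↔ J d Y₂ b b')
    with hgood
  have gs : ∀ b ∈ P, ∀ b', Partner d P A b b' → (J d Y₁ b b' ↔ J d Y₂ b b') → good b := by
    intro b hbP b' hpar h c hc
    rw [partner_unique hbP hpar hc]
    exact h
  have jsymm : ∀ (Y : Finset (Fin m)) (a b : Fin n), J d Y a b ↔ J d Y b a :=
    fun Y a b => ⟨fun h => h.symm, fun h => h.symm⟩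
  have key : ∀ b ∈ P, Thin d P A b → Thin d P B b → good b := by
    by_contra hcon
    push Not at hcon
    obtain ⟨b₀, hb₀, ht₀, ht₀', hg₀⟩ := hcon
    refine h3 m n d hb A B P hp (P.filter fun b => Thin d P A b ∧ Thin d P B b ∧ ¬ good b)
      (Finset.filter_subset _ _) ⟨b₀, by simp only [mem_filter]; exact ⟨hb₀, ht₀, ht₀', hg₀⟩⟩ ?_ ?_ ?_
    · intro b hbK
      simp only [mem_filter] at hbK
      exact ⟨hbK.2.1, hbK.2.2.1⟩
    · intro b hbK b' hb' hJ
      simp only [mem_filter] at hbK ⊢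
      obtain ⟨hbP, htA, htB, hng⟩ := hbK
      by_cases hne : b' = b
      · rw [hne]; exact ⟨hbP, htA, htB, hng⟩
      have hpar : Partner d P A b b' := ⟨hb', hne, hJ, htA⟩
      have hpar' : Partner d P A b' b := hpar.symm hbP
      have hcore : b' ∉ core d P A B := by
        intro hc
        refine hng (gs b hbP b' hpar ?_)
        rw [jsymm Y₁ b b', jsymm Y₂ b b']
        exact sd2 b' hc b hpar'
      have hth : Thin d P A b' ∧ Thin d P B b' := by
        by_contra hcc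
        exact hcore (mem_core.2 ⟨hb', hcc⟩)
      refine ⟨hb', hth.1, hth.2, fun hg => hng (gs b hbP b' hpar ?_)⟩
      rw [jsymm Y₁ b b', jsymm Y₂ b b']
      exact hg b hpar'
    · intro b hbK b' hb' hJ
      simp only [mem_filter] at hbK ⊢
      obtain ⟨hbP, htA, htB, hng⟩ := hbK
      by_cases hne : b' = b
      · rw [hne]; exact ⟨hbP, htA, htB, hng⟩
      have hpar : Partner d P B b b' := ⟨hb', hne, hJ, htB⟩
      have hpar' : Partner d P B b' b := hpar.symm hbP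
      obtain ⟨u, hu, -⟩ := thin_partner hbP htA
      have hcore : b' ∉ core d P A B := by
        intro hc
        exact hng (gs b hbP u hu (sd3 b' hc b u hpar' hu))
      have hth : Thin d P A b' ∧ Thin d P B b' := by
        by_contra hcc
        exact hcore (mem_core.2 ⟨hb', hcc⟩)
      refine ⟨hb', hth.1, hth.2, fun hg => ?_⟩
      by_cases hJA : J d A b b'
      · have hq : Partner d P A b b' := ⟨hb', hne, hJA, htA⟩
        refine hng (gs b hbP b' hq ?_)
        rw [jsymm Y₁ b b', jsymm Y₂ b b']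
        exact hg b (hq.symm hbP)
      · obtain ⟨u', hu', -⟩ := thin_partner hb' hth.1
        have e1 := hg u' hu'
        rw [h1 m n d hb A P sA b' hb' u' hu'.1 hu'.2.1.symm hu'.2.2.1 hth.1 Y₁ c1.1,
          h1 m n d hb A P sA b' hb' u' hu'.1 hu'.2.1.symm hu'.2.2.1 hth.1 Y₂ c2.1] at e1
        rw [← ser' Y₁ c1 b hbP b' hb' (Ne.symm hne) hJ htB htA hth.1 hJA,
          ← ser' Y₂ c2 b hbP b' hb' (Ne.symm hne) hJ htB htA hth.1 hJA] at e1
        rw [← h1 m n d hb A P sA b hbP u hu.1 hu.2.1.symm hu.2.2.1 htA Y₁ c1.1,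
          ← h1 m n d hb A P sA b hbP u hu.1 hu.2.1.symm hu.2.2.1 htA Y₂ c2.1] at e1
        exact hng (gs b hbP u hu e1)
  -- isolated vertices
  have iso : ∀ Y ⊆ A, ∀ v w, v ∉ tch d A → (J d Y v w ↔ w = v) := by
    intro Y hY v w hv
    constructor
    · exact J_of_not_tch fun h => hv (tch_mono hY h)
    · rintro rfl; exact J.refl _
  refine ⟨fun v hv w hw => ?_, fun v hv => ?_⟩
  · by_cases hvA : v ∈ tch d A
    swap
    · rw [iso Y₁ c1.1 v w hvA, iso Y₂ c2.1 v w hvA]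
    by_cases hwA : w ∈ tch d A
    swap
    · rw [jsymm Y₁ v w, jsymm Y₂ v w, iso Y₁ c1.1 w v hwA, iso Y₂ c2.1 w v hwA]
    have hvP : v ∈ P := (hp.hP v).2 ⟨hvA, hv⟩
    have hwP : w ∈ P := (hp.hP w).2 ⟨hwA, hw⟩
    by_cases hvw : w = v
    · rw [hvw]
      exact ⟨fun _ => J.refl v, fun _ => J.refl v⟩
    by_cases hJ : J d A v w
    swap
    · exact ⟨fun h => absurd (h.mono c1.1) hJ, fun h => absurd (h.mono c2.1) hJ⟩
    by_cases hvc : v ∈ core d P A B
    · by_cases hwc : w ∈ core d P A B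
      · exact sd1.1 v hvc w hwc
      · have hth : Thin d P A w ∧ Thin d P B w := by
          by_contra hcc
          exact hwc (mem_core.2 ⟨hwP, hcc⟩)
        rw [jsymm Y₁ v w, jsymm Y₂ v w]
        exact key w hwP hth.1 hth.2 v ⟨hvP, Ne.symm hvw, hJ.symm, hth.1⟩
    · have hth : Thin d P A v ∧ Thin d P B v := by
        by_contra hcc
        exact hvc (mem_core.2 ⟨hvP, hcc⟩)
      exact key v hvP hth.1 hth.2 w ⟨hwP, hvw, hJ, hth.1⟩
  · by_cases hvA : v ∈ tch d A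
    swap
    · exact ⟨fun h => absurd h (not_cyc_of_not_tch fun h => hvA (tch_mono c1.1 h)),
        fun h => absurd h (not_cyc_of_not_tch fun h => hvA (tch_mono c2.1 h))⟩
    have hvP : v ∈ P := (hp.hP v).2 ⟨hvA, hv⟩
    by_cases hvc : v ∈ core d P A B
    · exact sd1.2 v hvc
    · have hth : Thin d P A v ∧ Thin d P B v := by
        by_contra hcc
        exact hvc (mem_core.2 ⟨hvP, hcc⟩)
      exact ⟨fun h => absurd (hb.cyc_mono _ _ c1.1 v h) hth.1.1,
        fun h => absurd (hb.cyc_mono _ _ c2.1 v h) hth.1.1⟩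

end Pool.Agent.T2h18.BC
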