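import Pool.Agent.T2h18.BC.Stm

set_option autoImplicit false

/-! BC: the essential edges and the essential part. -/

namespace Pool.Agent.T2h18.BC

open Finset

namespace ESS

variable {m n : ℕ} {d : Fin m → Fin n × Fin n}

theorem col_anti {F F' : Finset (Fin m)} {g : Fin m} (hF : F' ⊆ F) (h : Col d F g) : Col d F' g :=
  fun Y hY hI => h Y (hY.trans (erase_subset_erase g hF)) hI

/-- edges which are in no circuit can be added -/
theorem add_all {T W : Finset (Fin m)} (hW : Ind d W) (G : Finset (Fin m)) (hT : W ∪ G ⊆ T)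
    (hG : ∀ g ∈ G, Col d T g) : Ind d (W ∪ G) := by
  classical
  induction G using Finset.induction_on with
  | empty => rwa [union_empty]
  | insert g G hg ih =>
    rw [union_insert]
    have hT' : W ∪ G ⊆ T := (union_subset_union_right (subset_insert g G)).trans hT
    have h1 := ih hT' fun g' hg' => hG g' (mem_insert_of_mem hg')
    by_cases hgm : g ∈ W ∪ G
    · rwa [insert_eq_of_mem hgm]
    · exact hG g (mem_insert_self g G) _ (subset_erase.2 ⟨hT', hgm⟩) h1

theorem split (Y S : Finset (Fin m)) (f : Fin m) : insert f (Y ∩ S) ∪ (Y \ S) = insert f Y := by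
  rw [insert_union]
  congr 1
  ext g
  rw [mem_union, mem_inter, mem_sdiff]
  tauto

/-- a dependent `insert f Y` is dependent already inside the essential part -/
theorem dep_ess {f : Fin m} {Y : Finset (Fin m)} (h : ¬ Ind d (insert f Y)) :
    ¬ Ind d (insert f (Y ∩ Ess d)) := by
  intro h1
  apply h
  rw [← split Y (Ess d) f]
  refine add_all h1 _ (subset_univ _) fun g hg => ?_
  by_contra h2
  exact (mem_sdiff.1 hg).2 (mem_Ess.2 h2)

theorem reinsert {Y : Finset (Fin m)} {e f : Fin m} (he : e ∈ Y) :
    insert e (insert f (Y.erase e)) = insert f Y := by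
  rw [insert_comm, insert_erase he]

/-- if `f` is in no circuit avoiding `e` and `e` in no circuit of `T`, then `f` is in no circuit of `T` -/
theorem col_of_col {T : Finset (Fin m)} (hm : ∀ (Y F : Finset (Fin m)), Y ⊆ F → Ind d F → Ind d Y)
    {e f : Fin m} (h1 : Col d (univ.erase e) f) (h2 : Col d T e) (hf : f ∈ T) : Col d T f := by
  intro Y hY hI
  have hfY : f ∉ Y := fun h => notMem_erase f T (hY h)
  have h3 : Ind d (insert f (Y.erase e)) := by
    refine h1 _ ?_ (hm _ _ (erase_subset e Y) hI)
    intro g hg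
    rw [mem_erase] at hg
    exact mem_erase.2 ⟨fun h => hfY (h ▸ hg.2), mem_erase.2 ⟨hg.1, mem_univ _⟩⟩
  by_cases he : e ∈ Y
  · rw [← reinsert he]
    refine h2 _ ?_ h3
    intro g hg
    rw [mem_insert] at hg
    rcases hg with rfl | hg
    · exact mem_erase.2 ⟨fun h => hfY (h ▸ he), hf⟩
    · rw [mem_erase] at hg
      exact mem_erase.2 ⟨hg.1, mem_of_mem_erase (hY hg.2)⟩
  · rwa [erase_eq_of_notMem he] at h3

end ESS

open ESS in
theorem t_ESS : S_ESS := by
  intro hGRE hCOL m n d hd
  classical
  refine ⟨?_, ?_, ?_, ?_⟩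
  · intro f hf
    by_contra hn
    have hcol : Col d (Ess d) f := (hCOL hGRE m n d hd (Ess d) f).2 hn
    apply mem_Ess.1 hf
    intro Y hY hI
    by_contra hdep
    apply dep_ess hdep
    refine hcol _ ?_ (hd.ind_mono _ _ inter_subset_left hI)
    intro g hg
    rw [mem_inter] at hg
    exact mem_erase.2 ⟨(mem_erase.1 (hY hg.1)).1, hg.2⟩
  · intro e f hn
    have hcol : Col d ((Ess d).erase e) f := (hCOL hGRE m n d hd ((Ess d).erase e) f).2 hn
    intro Y hY hI
    by_contra hdep
    apply dep_ess hdep
    refine hcol _ ?_ (hd.ind_mono _ _ inter_subset_left hI)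
    intro g hg
    rw [mem_inter] at hg
    have h1 := hY hg.1
    rw [mem_erase, mem_erase] at h1
    exact mem_erase.2 ⟨h1.1, mem_erase.2 ⟨h1.2.1, hg.2⟩⟩
  · intro U X e f hf he hcol
    rw [mem_star] at hf
    obtain ⟨hfX, hfE, hfU⟩ := hf
    rw [mem_star]
    refine ⟨hfU e he hcol, ?_, ?_⟩
    · rw [mem_Ess]
      intro hce
      exact mem_Ess.1 hfE (col_of_col hd.ind_mono hcol hce (mem_univ _))
    · intro e' he' hce'
      by_cases h : e' = f
      · rw [h]
        exact hfX
      · exact hfU e' he' (col_of_col hd.ind_mono hcol hce' (mem_erase.2 ⟨fun h' => h h'.symm, mem_univ _⟩))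
  · intro U X Z hXU hUZ
    constructor
    · intro h
      refine hd.ind_mono _ _ ?_ h
      refine union_subset_union (fun g hg => (mem_star.1 hg).1) inter_subset_left
    · intro h
      have hsub : star d U X ∪ (Z ∩ Ess d) ⊆ X ∪ Z :=
        union_subset_union (fun g hg => (mem_star.1 hg).1) inter_subset_left
      have e1 : star d U X ∪ (Z ∩ Ess d) ∪ ((X ∪ Z) \ (star d U X ∪ (Z ∩ Ess d))) = X ∪ Z :=
        union_sdiff_of_subset hsub
      rw [← e1]
      refine add_all h _ (T := X ∪ Z) (by rw [e1]) fun g hg => ?_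
      rw [mem_sdiff, mem_union, mem_union, not_or] at hg
      obtain ⟨hgm, hg1, hg2⟩ := hg
      by_cases hgE : g ∈ Ess d
      · have hgX : g ∈ X := by
          rcases hgm with h1 | h1
          · exact h1
          · exact absurd (mem_inter.2 ⟨h1, hgE⟩) hg2
        have h3 : ∃ e ∈ U, Col d (univ.erase e) g ∧ e ∉ X := by
          by_contra hne
          apply hg1
          rw [mem_star]
          refine ⟨hgX, hgE, fun e he hc => ?_⟩
          by_contra heX
          exact hne ⟨e, he, hc, heX⟩
        obtain ⟨e, heU, hc, heX⟩ := h3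
        refine col_anti ?_ hc
        intro g' hg'
        refine mem_erase.2 ⟨?_, mem_univ _⟩
        rintro rfl
        rcases mem_union.1 hg' with h4 | h4
        · exact heX h4
        · exact disjoint_left.1 hUZ heU h4
      · have hc : Col d univ g := by
          by_contra h5
          exact hgE (mem_Ess.2 h5)
        exact col_anti (subset_univ _) hc

end Pool.Agent.T2h18.BC
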