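import Pool.Agent.T2h18.BC.Stm

set_option autoImplicit false

/-! # BC: gluing -/

namespace Pool.Agent.T2h18.BC

open Finset

theorem t_GLU : S_GLU := by
  intro m n d hB P Y₁ Y₂ Z
  induction Z using Finset.induction_on with
  | empty =>
    intro _ _ _ hA hI
    rw [union_empty, union_empty]
    exact ⟨hI, hA⟩
  | insert f Z hf ih =>
    intro hZ h1 h2 hA hI
    have hZ' : tch d Z ⊆ P := by
      intro v hv
      obtain ⟨e, he, h⟩ := mem_tch.1 hv
      exact hZ (mem_tch.2 ⟨e, mem_insert_of_mem he, h⟩)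
    have hx : (d f).1 ∈ P := hZ (mem_tch.2 ⟨f, mem_insert_self _ _, Or.inl rfl⟩)
    have hy : (d f).2 ∈ P := hZ (mem_tch.2 ⟨f, mem_insert_self _ _, Or.inr rfl⟩)
    rw [disjoint_insert_right] at h1 h2
    obtain ⟨i1, i2⟩ := ih hZ' h1.2 h2.2 hA hI
    have n1 : f ∉ Y₁ ∪ Z := by
      rw [mem_union]
      exact fun h => h.elim h1.1 hf
    have n2 : f ∉ Y₂ ∪ Z := by
      rw [mem_union]
      exact fun h => h.elim h2.1 hf
    rw [union_insert, union_insert]
    refine ⟨?_, ?_, ?_⟩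
    · rw [hB.ind_insert _ _ n1, hB.ind_insert _ _ n2, i1, i2.2 _ hx, i2.2 _ hy]
    · intro v hv w hw
      rw [hB.J_insert, hB.J_insert, i2.1 v hv w hw, i2.1 v hv _ hx, i2.1 _ hy w hw,
        i2.1 v hv _ hy, i2.1 _ hx w hw]
    · intro v hv
      rw [hB.cyc_insert _ _ n1, hB.cyc_insert _ _ n2, i2.1 v hv _ hx, i2.1 v hv _ hy,
        i2.1 _ hx _ hy, i2.2 _ hx, i2.2 _ hy, i2.2 v hv]

end Pool.Agent.T2h18.BC
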