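import Pool.Agent.T2h18.BC.Stm

set_option autoImplicit false

namespace Pool.Agent.T2h18.BC

open Finset

namespace GREa

lemma abs1 {A C : Prop} (h : A → C) : (A ∨ (¬ A ∧ C)) ↔ C :=
  ⟨fun h' => h'.elim h fun h'' => h''.2, fun c => (Classical.em A).elim Or.inl fun a => Or.inr ⟨a, c⟩⟩

lemma two {A B A' B' C C' : Prop} (hB : B ↔ B') (hC : C ↔ C') (h : A → C) (h' : A' → C') :
    ((A ∨ B) ∨ (¬ A ∧ ¬ B ∧ C)) ↔ ((A' ∨ B') ∨ (¬ A' ∧ ¬ B' ∧ C')) := by
  rw [hB]
  by_cases b : B'
  · simp [b]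
  · simp only [b, or_false, not_false_eq_true, true_and]
    rw [abs1 h, abs1 h', hC]

lemma two' {A B A' B' C C' : Prop} (hA : A ↔ A') (hC : C ↔ C') (h : B → C) (h' : B' → C') :
    ((A ∨ B) ∨ (¬ A ∧ ¬ B ∧ C)) ↔ ((A' ∨ B') ∨ (¬ A' ∧ ¬ B' ∧ C')) := by
  rw [hA]
  by_cases b : A'
  · simp [b]
  · simp only [b, false_or, not_false_eq_true, true_and]
    rw [abs1 h, abs1 h', hC]

end GREa

open GREa

theorem t_GRE : S_GRE := by
  intro m n d hB F
  classical
  induction F using Finset.induction_on with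
  | empty => exact ⟨∅, Subset.refl _, hB.ind_empty, fun v => Iff.rfl, fun v w _ => Iff.rfl⟩
  | insert f F hf ih =>
    obtain ⟨Y, hYF, hI, hC, hJ⟩ := ih
    have hfY : f ∉ Y := fun h => hf (hYF h)
    have hcF : ∀ u v, J d F u v → (Cyc d F u ↔ Cyc d F v) := fun u v h => Cyc.congr h
    have hcY : ∀ u v, J d Y u v → (Cyc d Y u ↔ Cyc d Y v) := fun u v h => Cyc.congr h
    have hsF : ∀ u v, J d F u v ↔ J d F v u := fun u v => ⟨fun h => h.symm, fun h => h.symm⟩
    have hsY : ∀ u v, J d Y u v ↔ J d Y v u := fun u v => ⟨fun h => h.symm, fun h => h.symm⟩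
    by_cases hc : Cyc d F (d f).1 ∧ Cyc d F (d f).2
    · have hcyc : ∀ v, Cyc d (insert f F) v ↔ Cyc d F v := by
        intro v
        rw [hB.cyc_insert F f hf v]
        constructor
        · rintro (⟨h | h, -⟩ | ⟨-, -, h⟩)
          · exact (hcF _ _ h).2 hc.1
          · exact (hcF _ _ h).2 hc.2
          · exact h
        · intro h
          by_cases h1 : J d F v (d f).1 ∨ J d F v (d f).2
          · exact Or.inl ⟨h1, Or.inr (Or.inl hc.1)⟩
          · rw [not_or] at h1
            exact Or.inr ⟨h1.1, h1.2, h⟩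
      refine ⟨Y, hYF.trans (subset_insert _ _), hI, fun v => by rw [hcyc, hC], ?_⟩
      intro v w hv
      rw [hcyc] at hv
      rw [hJ v w hv, hB.J_insert]
      constructor
      · exact Or.inl
      · rintro (h | ⟨h, -⟩ | ⟨h, -⟩)
        · exact h
        · exact absurd ((hcF _ _ h).2 hc.1) hv
        · exact absurd ((hcF _ _ h).2 hc.2) hv
    · refine ⟨insert f Y, insert_subset_insert _ hYF, ?_, ?_, ?_⟩
      · rw [hB.ind_insert Y f hfY, hC, hC]
        exact ⟨hI, hc⟩
      · intro v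
        rw [hB.cyc_insert Y f hfY v, hB.cyc_insert F f hf v]
        by_cases hx : Cyc d F (d f).1
        · have hy : ¬ Cyc d F (d f).2 := fun h => hc ⟨hx, h⟩
          have h1 : J d Y v (d f).2 ↔ J d F v (d f).2 := by
            rw [hsY, hsF v, hJ _ _ hy]
          have hxY : Cyc d Y (d f).1 := (hC _).2 hx
          simp only [hxY, hx, true_or, or_true, and_true]
          exact two h1 (hC v) (fun h => (hcY _ _ h).2 hxY) (fun h => (hcF _ _ h).2 hx)
        · have h1 : J d Y v (d f).1 ↔ J d F v (d f).1 := by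
            rw [hsY, hsF v, hJ _ _ hx]
          have h0 : J d Y (d f).1 (d f).2 ↔ J d F (d f).1 (d f).2 := hJ _ _ hx
          by_cases hy : Cyc d F (d f).2
          · have hyY : Cyc d Y (d f).2 := (hC _).2 hy
            simp only [hyY, hy, or_true, and_true]
            exact two' h1 (hC v) (fun h => (hcY _ _ h).2 hyY) (fun h => (hcF _ _ h).2 hy)
          · have h2 : J d Y v (d f).2 ↔ J d F v (d f).2 := by
              rw [hsY, hsF v, hJ _ _ hy]
            rw [h0, h1, h2, hC, hC, hC]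
      · intro v w hv
        have hvF : ¬ Cyc d F v := fun h => hv (hB.cyc_mono _ _ (subset_insert _ _) v h)
        rw [hB.J_insert, hB.J_insert]
        rw [hB.cyc_insert F f hf v] at hv
        rw [hJ v w hvF, hJ v _ hvF, hJ v _ hvF]
        have h1 : J d F v (d f).1 → (J d Y (d f).2 w ↔ J d F (d f).2 w) := by
          intro h
          exact hJ _ _ fun h' => hv (Or.inl ⟨Or.inl h, Or.inr (Or.inr h')⟩)
        have h2 : J d F v (d f).2 → (J d Y (d f).1 w ↔ J d F (d f).1 w) := by
          intro h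
          exact hJ _ _ fun h' => hv (Or.inl ⟨Or.inr h, Or.inr (Or.inl h')⟩)
        rw [and_congr_right h1, and_congr_right h2]

end Pool.Agent.T2h18.BC
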