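import Pool.Agent.T2h18.BC.Stm

set_option autoImplicit false

/-! # BC: the number of edges of an independent set -/

namespace Pool.Agent.T2h18.BC

open Finset

namespace INDaux

variable {m n : ℕ} {d : Fin m → Fin n × Fin n}

theorem img {α β : Type} [DecidableEq β] {S : Finset α} {g : α → β} {c : β}
    (h : ∀ v ∈ S, g v = c) (hS : S.Nonempty) : S.image g = {c} := by
  ext b
  rw [mem_image, mem_singleton]
  constructor
  · rintro ⟨v, hv, rfl⟩
    exact h v hv
  · rintro rfl
    obtain ⟨v, hv⟩ := hS
    exact ⟨v, hv, h v hv⟩

set_option maxHeartbeats 2000000 in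
open Classical in
theorem step (hB : Bas d) (F : Finset (Fin m)) (f : Fin m) (hf : f ∉ F)
    (hc : ¬ (Cyc d F (d f).1 ∧ Cyc d F (d f).2)) : nc d (insert f F) + 1 = nc d F := by
  have hJ := hB.J_insert F f
  have hC := hB.cyc_insert F f hf
  obtain ⟨x, hx⟩ : ∃ x, x = (d f).1 := ⟨_, rfl⟩
  obtain ⟨y, hy⟩ : ∃ y, y = (d f).2 := ⟨_, rfl⟩
  rw [← hx, ← hy] at hc
  simp only [← hx, ← hy] at hJ hC
  obtain ⟨F', hF'⟩ : ∃ F', F' = insert f F := ⟨_, rfl⟩
  rw [← hF'] at hJ hC ⊢
  have hFF : F ⊆ F' := by
    rw [hF']
    exact subset_insert _ _
  have hxy : J d F' x y := (hJ x y).2 (Or.inr (Or.inl ⟨J.refl _, J.refl _⟩))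
  obtain ⟨S0, hS0⟩ : ∃ S0 : Finset (Fin n), S0 = univ.filter fun v =>
    ¬ J d F v x ∧ ¬ J d F v y ∧ ¬ Cyc d F v := ⟨_, rfl⟩
  have m0 : ∀ v, v ∈ S0 ↔ ¬ J d F v x ∧ ¬ J d F v y ∧ ¬ Cyc d F v := by
    intro v
    rw [hS0, mem_filter]
    simp
  -- outside the two components nothing changes
  have hvs : ∀ v, ¬ J d F v x → ¬ J d F v y → vs d F' v = vs d F v := by
    intro v h1 h2
    ext w
    rw [mem_vs, mem_vs, hJ]
    constructor
    · rintro (h | ⟨h, -⟩ | ⟨h, -⟩)
      · exact h
      · exact absurd h h1
      · exact absurd h h2
    · exact Or.inl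
  have hA : S0.image (vs d F') = S0.image (vs d F) := by
    apply image_congr
    intro v hv
    have := (m0 v).1 hv
    exact hvs v this.1 this.2.1
  have hxA : vs d F x ∉ S0.image (vs d F) := by
    intro h
    obtain ⟨v, hv, e⟩ := mem_image.1 h
    have : x ∈ vs d F v := by
      rw [e, mem_vs]
      exact J.refl _
    exact ((m0 v).1 hv).1 (mem_vs.1 this)
  have hyA : vs d F y ∉ S0.image (vs d F) := by
    intro h
    obtain ⟨v, hv, e⟩ := mem_image.1 h
    have : y ∈ vs d F v := by
      rw [e, mem_vs]
      exact J.refl _
    exact ((m0 v).1 hv).2.1 (mem_vs.1 this)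
  have hxA' : vs d F' x ∉ S0.image (vs d F) := by
    intro h
    obtain ⟨v, hv, e⟩ := mem_image.1 h
    have : x ∈ vs d F v := by
      rw [e, mem_vs]
      exact J.refl _
    exact ((m0 v).1 hv).1 (mem_vs.1 this)
  have iv : ∀ z, ((univ : Finset (Fin n)).filter fun v => J d F v z).image (vs d F) = {vs d F z} := by
    intro z
    refine img (fun v hv => ?_) ⟨z, ?_⟩
    · rw [mem_filter] at hv
      exact vs_eq_of_J hv.2
    · rw [mem_filter]
      exact ⟨mem_univ _, J.refl _⟩
  have nF : nc d F = ((univ.filter fun v => ¬ Cyc d F v).image (vs d F)).card := rfl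
  have nF' : nc d F' = ((univ.filter fun v => ¬ Cyc d F' v).image (vs d F')).card := rfl
  by_cases hj : J d F x y
  · -- the ends are joined
    have hcx : ¬ Cyc d F x := fun h => hc ⟨h, (Cyc.congr hj).1 h⟩
    have e1 : (univ.filter fun v => ¬ Cyc d F v) = S0 ∪ univ.filter fun v => J d F v x := by
      ext v
      rw [mem_union, m0, mem_filter, mem_filter]
      simp only [mem_univ, true_and]
      constructor
      · intro h
        by_cases h1 : J d F v x
        · exact Or.inr h1
        · exact Or.inl ⟨h1, fun h2 => h1 (h2.trans hj.symm), h⟩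
      · rintro (⟨-, -, h⟩ | h)
        · exact h
        · exact fun h' => hcx ((Cyc.congr h).1 h')
    have e2 : (univ.filter fun v => ¬ Cyc d F' v) = S0 := by
      ext v
      rw [m0, mem_filter, hC]
      simp only [mem_univ, true_and]
      have : J d F v x ↔ J d F v y := ⟨fun h => h.trans hj, fun h => h.trans hj.symm⟩
      tauto
    rw [nF, nF', e1, e2, hA, image_union, iv, union_comm, ← insert_eq,
      card_insert_of_notMem hxA]
  · have hvsxy : ∀ v, J d F v x ∨ J d F v y → vs d F' v = vs d F' x := by
      intro v h
      apply vs_eq_of_J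
      rcases h with h | h
      · exact h.mono hFF
      · exact (h.mono hFF).trans hxy.symm
    have hneq : vs d F x ≠ vs d F y := by
      intro h
      apply hj
      rw [← mem_vs, h, mem_vs]
      exact J.refl _
    by_cases hcx : Cyc d F x
    · have hcy : ¬ Cyc d F y := fun h => hc ⟨hcx, h⟩
      have e1 : (univ.filter fun v => ¬ Cyc d F v) = S0 ∪ univ.filter fun v => J d F v y := by
        ext v
        rw [mem_union, m0, mem_filter, mem_filter]
        simp only [mem_univ, true_and]
        constructor
        · intro h
          by_cases h1 : J d F v y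
          · exact Or.inr h1
          · exact Or.inl ⟨fun h2 => h ((Cyc.congr h2).2 hcx), h1, h⟩
        · rintro (⟨-, -, h⟩ | h)
          · exact h
          · exact fun h' => hcy ((Cyc.congr h).1 h')
      have e2 : (univ.filter fun v => ¬ Cyc d F' v) = S0 := by
        ext v
        rw [m0, mem_filter, hC]
        simp only [mem_univ, true_and]
        tauto
      rw [nF, nF', e1, e2, hA, image_union, iv, union_comm, ← insert_eq,
        card_insert_of_notMem hyA]
    · by_cases hcy : Cyc d F y
      · have e1 : (univ.filter fun v => ¬ Cyc d F v) = S0 ∪ univ.filter fun v => J d F v x := by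
          ext v
          rw [mem_union, m0, mem_filter, mem_filter]
          simp only [mem_univ, true_and]
          constructor
          · intro h
            by_cases h1 : J d F v x
            · exact Or.inr h1
            · exact Or.inl ⟨h1, fun h2 => h ((Cyc.congr h2).2 hcy), h⟩
          · rintro (⟨-, -, h⟩ | h)
            · exact h
            · exact fun h' => hcx ((Cyc.congr h).1 h')
        have e2 : (univ.filter fun v => ¬ Cyc d F' v) = S0 := by
          ext v
          rw [m0, mem_filter, hC]
          simp only [mem_univ, true_and]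
          tauto
        rw [nF, nF', e1, e2, hA, image_union, iv, union_comm, ← insert_eq,
          card_insert_of_notMem hxA]
      · have e1 : (univ.filter fun v => ¬ Cyc d F v) =
            (S0 ∪ univ.filter fun v => J d F v y) ∪ univ.filter fun v => J d F v x := by
          ext v
          rw [mem_union, mem_union, m0, mem_filter, mem_filter, mem_filter]
          simp only [mem_univ, true_and]
          constructor
          · intro h
            by_cases h1 : J d F v x
            · exact Or.inr h1
            · by_cases h2 : J d F v y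
              · exact Or.inl (Or.inr h2)
              · exact Or.inl (Or.inl ⟨h1, h2, h⟩)
          · rintro ((⟨-, -, h⟩ | h) | h)
            · exact h
            · exact fun h' => hcy ((Cyc.congr h).1 h')
            · exact fun h' => hcx ((Cyc.congr h).1 h')
        have e2 : (univ.filter fun v => ¬ Cyc d F' v) =
            S0 ∪ univ.filter fun v => J d F v x ∨ J d F v y := by
          ext v
          rw [mem_union, m0, mem_filter, mem_filter, hC]
          simp only [mem_univ, true_and]
          have c1 : J d F v x → ¬ Cyc d F v := fun h h' => hcx ((Cyc.congr h).1 h')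
          have c2 : J d F v y → ¬ Cyc d F v := fun h h' => hcy ((Cyc.congr h).1 h')
          tauto
        have e3 : ((univ : Finset (Fin n)).filter fun v => J d F v x ∨ J d F v y).image (vs d F') =
            {vs d F' x} := by
          refine img (fun v hv => ?_) ⟨x, ?_⟩
          · rw [mem_filter] at hv
            exact hvsxy v hv.2
          · rw [mem_filter]
            exact ⟨mem_univ _, Or.inl (J.refl _)⟩
        rw [nF, nF', e1, e2, image_union, image_union, image_union, hA, e3, iv, iv,
          union_comm, ← insert_eq, card_insert_of_notMem hxA', union_comm _ {vs d F x},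
          ← insert_eq, union_comm _ {vs d F y}, ← insert_eq, card_insert_of_notMem,
          card_insert_of_notMem hyA]
        rw [mem_insert]
        exact fun h => h.elim hneq hxA

end INDaux

theorem t_IND : S_IND := by
  intro m n d hB Y
  induction Y using Finset.induction_on with
  | empty =>
    intro _
    classical
    have h1 : (univ.filter fun v => ¬ Cyc d ∅ v) = (univ : Finset (Fin n)) :=
      filter_true_of_mem fun v _ => hB.not_cyc_empty v
    have h2 : nc d ∅ = n := by
      have : nc d ∅ = ((univ.filter fun v => ¬ Cyc d ∅ v).image (vs d ∅)).card := by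
        unfold nc
        congr!
      rw [this, h1, card_image_of_injective, card_univ, Fintype.card_fin]
      intro u v h
      have : v ∈ vs d ∅ u := by
        rw [show vs d ∅ u = vs d ∅ v from h, mem_vs]
        exact J.refl _
      exact (J_of_not_tch (by
        intro hh
        obtain ⟨e, he, -⟩ := mem_tch.1 hh
        exact absurd he (notMem_empty _)) (mem_vs.1 this)).symm
    rw [card_empty, h2, zero_add]
  | insert f Y hf ih =>
    intro hI
    rw [hB.ind_insert _ _ hf] at hI
    have h1 := ih hI.1
    have h2 := INDaux.step hB Y f hf hI.2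
    rw [card_insert_of_notMem hf]
    omega

end Pool.Agent.T2h18.BC
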