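import Pool.Agent.T2h18.BC.Stm

set_option autoImplicit false

namespace Pool.Agent.T2h18.BC

open Finset

theorem t_JIN : S_JIN := by
  intro m n d F f u v
  constructor
  · intro h
    induction h with
    | rel a b h' =>
      obtain ⟨e, he, h1⟩ := h'
      rcases Finset.mem_insert.1 he with rfl | he
      · right; left
        rw [h1]
        exact ⟨J.refl _, J.refl _⟩
      · exact Or.inl (Relation.EqvGen.rel _ _ ⟨e, he, h1⟩)
    | refl a => exact Or.inl (J.refl a)
    | symm a b _ ih =>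
      rcases ih with h | ⟨h, h'⟩ | ⟨h, h'⟩
      · exact Or.inl h.symm
      · exact Or.inr (Or.inr ⟨h'.symm, h.symm⟩)
      · exact Or.inr (Or.inl ⟨h'.symm, h.symm⟩)
    | trans a b c _ _ ih1 ih2 =>
      rcases ih1 with h | ⟨h, h'⟩ | ⟨h, h'⟩ <;> rcases ih2 with k | ⟨k, k'⟩ | ⟨k, k'⟩
      · exact Or.inl (h.trans k)
      · exact Or.inr (Or.inl ⟨h.trans k, k'⟩)
      · exact Or.inr (Or.inr ⟨h.trans k, k'⟩)
      · exact Or.inr (Or.inl ⟨h, h'.trans k⟩)
      · exact Or.inr (Or.inl ⟨h, k'⟩)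
      · exact Or.inl (h.trans k')
      · exact Or.inr (Or.inr ⟨h, h'.trans k⟩)
      · exact Or.inl (h.trans k')
      · exact Or.inr (Or.inr ⟨h, k'⟩)
  · have hF : F ⊆ insert f F := Finset.subset_insert _ _
    have hf : J d (insert f F) (d f).1 (d f).2 := J.edge (Finset.mem_insert_self _ _)
    rintro (h | ⟨h, h'⟩ | ⟨h, h'⟩)
    · exact h.mono hF
    · exact ((h.mono hF).trans hf).trans (h'.mono hF)
    · exact ((h.mono hF).trans hf.symm).trans (h'.mono hF)

end Pool.Agent.T2h18.BC
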