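import Pool.Agent.T2h18.BC.Stm

set_option autoImplicit false

/-! # BC: connectivity and the essential edges -/

namespace Pool.Agent.T2h18.BC

open Finset

namespace LAMaux

variable {m n : ℕ} {d : Fin m → Fin n × Fin n}

theorem le_rk {F Y : Finset (Fin m)} (h : Y ⊆ F) (hY : Ind d Y) : Y.card ≤ rk d F := by
  classical
  unfold rk
  exact Finset.le_sup (f := Finset.card) (mem_filter.2 ⟨mem_powerset.2 h, hY⟩)

theorem exists_rk (hB : Bas d) (F : Finset (Fin m)) : ∃ Y ⊆ F, Ind d Y ∧ Y.card = rk d F := by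
  classical
  unfold rk
  have hne : (F.powerset.filter fun Y => Ind d Y).Nonempty :=
    ⟨∅, mem_filter.2 ⟨mem_powerset.2 (empty_subset _), hB.ind_empty⟩⟩
  obtain ⟨Y, hY, h⟩ := Finset.exists_mem_eq_sup _ hne Finset.card
  rw [mem_filter, mem_powerset] at hY
  exact ⟨Y, hY.1, hY.2, by convert h.symm⟩

theorem add_ness {Y : Finset (Fin m)} (hY : Ind d Y) (Z : Finset (Fin m))
    (hZ : ∀ f ∈ Z, f ∉ Ess d) : Ind d (Y ∪ Z) := by
  induction Z using Finset.induction_on with
  | empty => rwa [union_empty]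
  | insert f Z hf ih =>
    have h1 := ih fun g hg => hZ g (mem_insert_of_mem hg)
    rw [union_insert]
    by_cases h : f ∈ Y ∪ Z
    · rwa [insert_eq_of_mem h]
    have h2 : Col d univ f := by
      by_contra hc
      exact hZ f (mem_insert_self _ _) (mem_Ess.2 hc)
    refine h2 _ (fun g hg => ?_) h1
    rw [mem_erase]
    exact ⟨fun e => h (e ▸ hg), mem_univ _⟩

theorem lower (hB : Bas d) (U : Finset (Fin m)) :
    rk d (U ∩ Ess d) + (U \ Ess d).card ≤ rk d U := by
  obtain ⟨Y, hY, hI, hc⟩ := exists_rk hB (U ∩ Ess d)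
  rw [← hc, ← card_union_of_disjoint]
  · refine le_rk ?_ (add_ness hI _ fun f hf => (mem_sdiff.1 hf).2)
    intro f hf
    rcases mem_union.1 hf with h | h
    · exact (mem_inter.1 (hY h)).1
    · exact (mem_sdiff.1 h).1
  · rw [disjoint_left]
    intro f h1 h2
    exact (mem_sdiff.1 h2).2 (mem_inter.1 (hY h1)).2

theorem upper (hB : Bas d) : rk d univ ≤ rk d (Ess d) + (univ \ Ess d).card := by
  obtain ⟨Y, hY, hI, hc⟩ := exists_rk hB univ
  rw [← hc, ← card_inter_add_card_sdiff Y (Ess d)]
  exact Nat.add_le_add (le_rk inter_subset_right (hB.ind_mono _ _ inter_subset_left hI))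
    (card_le_card (sdiff_subset_sdiff (subset_univ _) (Subset.refl _)))

end LAMaux

theorem t_LAM : S_LAM := by
  intro m n d hB U l h
  have h1 := LAMaux.lower hB U
  have h2 := LAMaux.lower hB Uᶜ
  have h3 := LAMaux.upper hB
  have h4 : (U \ Ess d).card + (Uᶜ \ Ess d).card = (univ \ Ess d).card := by
    rw [← card_union_of_disjoint]
    · congr 1
      ext f
      simp only [mem_union, mem_sdiff, mem_compl, mem_univ, true_and]
      tauto
    · rw [disjoint_left]
      intro f hf hf'
      exact (mem_compl.1 (mem_sdiff.1 hf').1) (mem_sdiff.1 hf).1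
  omega

end Pool.Agent.T2h18.BC
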