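import Pool.Agent.T2h18.BC.Stm

set_option autoImplicit false

/-! # Project BC, part RNK: the rank formula -/

namespace Pool.Agent.T2h18.BC

open Finset

namespace RNK

variable {m n : ℕ}

theorem J_of_vs_eq {d : Fin m → Fin n × Fin n} {F : Finset (Fin m)} {u v : Fin n}
    (h : vs d F u = vs d F v) : J d F u v := by
  have : v ∈ vs d F v := mem_vs.2 (J.refl v)
  rw [← h] at this
  exact mem_vs.1 this

/-- the set with the same tree components has the same number of them -/
theorem nc_eq {d : Fin m → Fin n × Fin n} {Y F : Finset (Fin m)}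
    (h1 : ∀ v, Cyc d Y v ↔ Cyc d F v) (h2 : ∀ v w, ¬ Cyc d F v → (J d Y v w ↔ J d F v w)) :
    nc d Y = nc d F := by
  classical
  unfold nc
  have e1 : (univ.filter fun v => ¬ Cyc d Y v) = univ.filter fun v => ¬ Cyc d F v := by
    ext v
    simp [h1]
  rw [e1]
  congr 1
  apply image_congr
  intro v hv
  simp only [coe_filter, mem_univ, true_and] at hv
  ext w
  rw [mem_vs, mem_vs]
  exact h2 v w hv

theorem nc_le {d : Fin m → Fin n × Fin n} (hd : Bas d) {Y F : Finset (Fin m)} (h : Y ⊆ F) :
    nc d F ≤ nc d Y := by
  classical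
  unfold nc
  have e1 : (univ.filter fun v => ¬ Cyc d F v) ⊆ univ.filter fun v => ¬ Cyc d Y v := by
    intro v hv
    simp only [mem_filter, mem_univ, true_and] at hv ⊢
    exact fun h' => hv (hd.cyc_mono Y F h v h')
  have e2 : ∀ v, (vs d Y v).biUnion (vs d F) = vs d F v := by
    intro v
    ext w
    simp only [mem_biUnion, mem_vs]
    constructor
    · rintro ⟨a, h1, h2⟩
      exact (h1.mono h).trans h2
    · intro h1
      exact ⟨v, J.refl v, h1⟩
  have e3 : (univ.filter fun v => ¬ Cyc d F v).image (vs d F) =
      ((univ.filter fun v => ¬ Cyc d F v).image (vs d Y)).image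
        (fun T => T.biUnion (vs d F)) := by
    rw [image_image]
    apply image_congr
    intro v _
    exact (e2 v).symm
  rw [e3]
  exact card_image_le.trans (card_le_card (image_subset_image e1))

end RNK

theorem t_RNK : S_RNK := by
  classical
  intro hG hI m n d hd F
  have hle : rk d F + nc d F ≤ n := by
    have h0 : nc d F ≤ n := by
      have := hI m n d hd ∅ hd.ind_empty
      have h1 := RNK.nc_le hd (empty_subset F)
      simp at this
      omega
    have : rk d F ≤ n - nc d F := by
      unfold rk
      apply Finset.sup_le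
      intro Y hY
      rw [mem_filter, mem_powerset] at hY
      have h1 := hI m n d hd Y hY.2
      have h2 := RNK.nc_le hd hY.1
      omega
    omega
  obtain ⟨Y, hY, hYi, hC, hJ⟩ := hG m n d hd F
  have h1 := hI m n d hd Y hYi
  rw [RNK.nc_eq hC hJ] at h1
  have h2 : Y.card ≤ rk d F := by
    unfold rk
    exact Finset.le_sup (f := Finset.card) (mem_filter.2 ⟨mem_powerset.2 hY, hYi⟩)
  omega

end Pool.Agent.T2h18.BC
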