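import Pool.Agent.T2h18.BC.Stm

set_option autoImplicit false

/-!
# Project BC, task SID
-/

namespace Pool.Agent.T2h18.BC

open Finset

/-- If the component of `z` in `A.erase f` has no vertex in `P` then it is also the component of `z` in
`(A ∪ B).erase f`. -/
theorem SID_aux {m n : ℕ} {d : Fin m → Fin n × Fin n} {A B : Finset (Fin m)} {P : Finset (Fin n)}
    (h : Pair d A B P) (f : Fin m) (hf : f ∈ A) (z : Fin n) (hz : z ∈ tch d A)
    (hc : Cyc d ((A ∪ B).erase f) z) (hno : ∀ p ∈ P, ¬ J d (A.erase f) z p) :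
    Cyc d (A.erase f) z := by
  have hsub : A.erase f ⊆ (A ∪ B).erase f := Finset.erase_subset_erase f Finset.subset_union_left
  -- vertices of the component are in `tch A`
  have htch : ∀ v, J d (A.erase f) z v → v ∈ tch d A := by
    intro v hv
    by_contra hcon
    have h1 : J d A v z := (hv.mono (Finset.erase_subset f A)).symm
    have h2 := J_of_not_tch hcon h1
    exact hcon (h2 ▸ hz)
  have hB : ∀ v, J d (A.erase f) z v → v ∉ tch d B := by
    intro v hv hvB
    exact hno v ((h.hP v).2 ⟨htch v hv, hvB⟩) hv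
  have hB1 : ∀ e ∈ B, ¬ J d (A.erase f) z (d e).1 := fun e he hv =>
    hB _ hv (mem_tch.2 ⟨e, he, Or.inl rfl⟩)
  have hB2 : ∀ e ∈ B, ¬ J d (A.erase f) z (d e).2 := fun e he hv =>
    hB _ hv (mem_tch.2 ⟨e, he, Or.inr rfl⟩)
  have hJ : ∀ v, J d ((A ∪ B).erase f) z v ↔ J d (A.erase f) z v := by
    intro v
    constructor
    · intro hv
      have := J.closed (S := {w | J d (A.erase f) z w}) (F := (A ∪ B).erase f) (d := d)
        (fun e he => by
          rw [Finset.mem_erase, Finset.mem_union] at he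
          obtain ⟨hef, he⟩ := he
          by_cases heB : e ∈ B
          · exact ⟨fun h' => absurd h' (hB1 e heB), fun h' => absurd h' (hB2 e heB)⟩
          · have heA : e ∈ A.erase f := Finset.mem_erase.2 ⟨hef, he.resolve_right heB⟩
            have hed := J.edge (d := d) heA
            exact ⟨fun h' => J.trans h' hed, fun h' => J.trans h' hed.symm⟩) hv
      exact this.1 (J.refl z)
    · intro hv
      exact hv.mono hsub
  have hvs : vs d ((A ∪ B).erase f) z = vs d (A.erase f) z := by
    ext v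
    rw [mem_vs, mem_vs, hJ]
  have hes : es d ((A ∪ B).erase f) z = es d (A.erase f) z := by
    ext e
    rw [mem_es, mem_es, hJ]
    constructor
    · rintro ⟨h1, h2⟩
      refine ⟨?_, h2⟩
      rw [Finset.mem_erase, Finset.mem_union] at h1
      have heB : e ∉ B := fun h' => hB1 e h' h2
      exact Finset.mem_erase.2 ⟨h1.1, h1.2.resolve_right heB⟩
    · rintro ⟨h1, h2⟩
      exact ⟨hsub h1, h2⟩
  unfold Cyc at hc ⊢
  rw [hvs, hes] at hc
  exact hc

theorem t_SID : S_SID := by
  intro m n d hbas A B P h f hf hnc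
  obtain ⟨-, hb1, hb2⟩ := hbas.bridge A f hf hnc
  obtain ⟨h1, h2⟩ := h.ess f (Finset.mem_union_left _ hf)
  constructor
  · by_contra hcon
    push Not at hcon
    exact hb1 (SID_aux h f hf _ (mem_tch.2 ⟨f, hf, Or.inl rfl⟩) h1 hcon)
  · by_contra hcon
    push Not at hcon
    exact hb2 (SID_aux h f hf _ (mem_tch.2 ⟨f, hf, Or.inr rfl⟩) h2 hcon)

end Pool.Agent.T2h18.BC
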