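import Pool.Agent.T2h18.BC.Stm

set_option autoImplicit false

namespace Pool.Agent.T2h18.BC

open Finset

theorem t_TH1 : S_TH1 := by
  intro m n d hB A P hS b hb b' hb' hne hJ hT Y hY
  obtain ⟨hnc, hcard⟩ := hT
  constructor
  · intro hJY f hf
    by_contra hfY
    rw [mem_es] at hf
    obtain ⟨hfA, hbf⟩ := hf
    -- `f ∉ Y` so `Y ⊆ A.erase f`
    have h1 : J d (A.erase f) b b' :=
      hJY.mono fun e he => mem_erase.2 ⟨fun h => hfY (by rwa [h] at he), hY he⟩
    have hnf : ¬ Cyc d A (d f).1 := fun h => hnc ((Cyc.congr hbf).2 h)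
    obtain ⟨⟨p, hp, hp1⟩, q, hq, hq1⟩ := hS f hfA hnf
    obtain ⟨hbr, -, -⟩ := hB.bridge A f hfA hnf
    have hsub : A.erase f ⊆ A := erase_subset _ _
    have hpv : p ∈ P ∩ vs d A b := mem_inter.2 ⟨hp, mem_vs.2 (hbf.trans (hp1.mono hsub))⟩
    have hqv : q ∈ P ∩ vs d A b :=
      mem_inter.2 ⟨hq, mem_vs.2 ((hbf.trans (J.edge hfA)).trans (hq1.mono hsub))⟩
    have hbv : b ∈ P ∩ vs d A b := mem_inter.2 ⟨hb, mem_vs.2 (J.refl b)⟩
    have hbv' : b' ∈ P ∩ vs d A b := mem_inter.2 ⟨hb', mem_vs.2 hJ⟩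
    have hset : P ∩ vs d A b = {b, b'} := by
      symm
      apply eq_of_subset_of_card_le
      · intro x hx
        rcases mem_insert.1 hx with h | h
        · exact h ▸ hbv
        · exact (mem_singleton.1 h) ▸ hbv'
      · rw [hcard, card_pair hne]
    have hall : ∀ x ∈ P ∩ vs d A b, J d (A.erase f) b x := by
      intro x hx
      rw [hset] at hx
      rcases mem_insert.1 hx with h | h
      · rw [h]; exact J.refl b
      · rw [mem_singleton.1 h]; exact h1
    exact hbr ((hp1.trans (hall p hpv).symm).trans ((hall q hqv).trans hq1.symm))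
  · intro hes
    have h2 := J.closed (S := {w | J d Y b w}) (F := A) (d := d) (fun e he => ?_) hJ
    · exact h2.1 (J.refl b)
    · constructor
      · intro h3
        have h4 : J d A b (d e).1 := J.mono hY h3
        have h5 : e ∈ Y := hes (mem_es.2 ⟨he, h4⟩)
        exact J.trans h3 (J.edge h5)
      · intro h3
        have h4 : J d A b (d e).2 := J.mono hY h3
        have h5 : e ∈ Y := hes (mem_es.2 ⟨he, h4.trans (J.edge he).symm⟩)
        exact J.trans h3 (J.edge h5).symm

end Pool.Agent.T2h18.BC
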