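import Pool.Agent.T2h18.BC.Stm

set_option autoImplicit false

namespace Pool.Agent.T2h18.BC

open Finset

namespace TH2a

variable {m n : ℕ} {d : Fin m → Fin n × Fin n}

lemma two_mem {s : Finset (Fin n)} (h : s.card = 2) {a b c : Fin n} (ha : a ∈ s) (hb : b ∈ s)
    (hab : a ≠ b) (hc : c ∈ s) : c = a ∨ c = b := by
  by_contra hne
  rw [not_or] at hne
  have h3 : ({a, b, c} : Finset (Fin n)).card = 3 := by
    rw [card_insert_of_notMem, card_insert_of_notMem, card_singleton]
    · rw [mem_singleton]; exact fun h => hne.2 h.symm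
    · rw [mem_insert, mem_singleton]
      rintro (h | h)
      · exact hab h
      · exact hne.1 h.symm
  have : ({a, b, c} : Finset (Fin n)).card ≤ s.card := by
    refine card_le_card ?_
    intro z hz
    rw [mem_insert, mem_insert, mem_singleton] at hz
    rcases hz with rfl | rfl | rfl <;> assumption
  omega

lemma restr {F F' : Finset (Fin m)} {u : Fin n} (h : ∀ g ∈ F, J d F u (d g).1 → g ∈ F') {v : Fin n}
    (hv : J d F u v) : J d F' u v := by
  have := J.closed (S := {v | J d F u v ∧ J d F' u v}) (F := F) (d := d) (fun g hg => by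
    constructor
    · rintro ⟨h1, h2⟩
      exact ⟨h1.trans (J.edge hg), h2.trans (J.edge (h g hg h1))⟩
    · rintro ⟨h1, h2⟩
      have h3 : J d F u (d g).1 := h1.trans (J.edge hg).symm
      exact ⟨h3, h2.trans (J.edge (h g hg h3)).symm⟩) hv
  exact (this.1 ⟨J.refl _, J.refl _⟩).2

lemma tch_of_J {F : Finset (Fin m)} {u v : Fin n} (hu : u ∈ tch d F) (h : J d F u v) :
    v ∈ tch d F := by
  by_contra hv
  have := J_of_not_tch hv h.symm
  rw [← this] at hv
  exact hv hu

lemma side (hB : Bas d) {A : Finset (Fin m)} {P : Finset (Fin n)} (hS : Sides d A P) {u : Fin n}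
    (hu : u ∈ P) (hT : Thin d P A u) {f : Fin m} (hf : f ∈ es d A u) :
    ¬ Cyc d (A.erase f) u ∧ (∀ v ∈ P, J d (A.erase f) u v → v = u) ∧
      (J d (A.erase f) u (d f).1 ∨ J d (A.erase f) u (d f).2) := by
  rw [mem_es] at hf
  obtain ⟨hfA, hux⟩ := hf
  have hcx : ¬ Cyc d A (d f).1 := fun h => hT.1 ((Cyc.congr hux).2 h)
  obtain ⟨hxy, hnx, hny⟩ := hB.bridge A f hfA hcx
  obtain ⟨⟨p, hpP, hp⟩, q, hqP, hq⟩ := hS f hfA hcx
  have hsub : A.erase f ⊆ A := erase_subset _ _
  have hxyA : J d A (d f).1 (d f).2 := J.edge hfA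
  have hor : J d (A.erase f) u (d f).1 ∨ J d (A.erase f) u (d f).2 := by
    have h1 := (hB.J_insert (A.erase f) f u (d f).1).1 (by rw [insert_erase hfA]; exact hux)
    rcases h1 with h | ⟨h, -⟩ | ⟨h, -⟩
    · exact Or.inl h
    · exact Or.inl h
    · exact Or.inr h
  refine ⟨?_, ?_, hor⟩
  · rcases hor with h | h
    · exact fun h' => hnx ((Cyc.congr h).1 h')
    · exact fun h' => hny ((Cyc.congr h).1 h')
  · intro v hvP hv
    have huA : u ∈ P ∩ vs d A u := mem_inter.2 ⟨hu, mem_vs.2 (J.refl u)⟩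
    have hvA : v ∈ P ∩ vs d A u := mem_inter.2 ⟨hvP, mem_vs.2 (hv.mono hsub)⟩
    rcases hor with h | h
    · have hqA : q ∈ P ∩ vs d A u :=
        mem_inter.2 ⟨hqP, mem_vs.2 ((hux.trans hxyA).trans (hq.mono hsub))⟩
      have hqu : u ≠ q := by
        rintro rfl
        exact hxy (h.symm.trans hq.symm)
      rcases two_mem hT.2 huA hqA hqu hvA with h' | h'
      · exact h'
      · subst h'
        exact absurd ((h.symm.trans hv).trans hq.symm) hxy
    · have hpA : p ∈ P ∩ vs d A u :=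
        mem_inter.2 ⟨hpP, mem_vs.2 (hux.trans (hp.mono hsub))⟩
      have hpu : u ≠ p := by
        rintro rfl
        exact hxy (hp.trans h)
      rcases two_mem hT.2 huA hpA hpu hvA with h' | h'
      · exact h'
      · subst h'
        exact absurd ((hp.trans hv.symm).trans h) hxy

end TH2a

open TH2a

theorem t_TH2 : S_TH2 := by
  intro m n d hB A B P hPair hSA hSB u hu w hw huw hJB hTB hTAu hTAw hnJ f hf e he
  obtain ⟨hcf, hPf, hzf⟩ := side hB hSA hu hTAu hf
  obtain ⟨hce, hPe, -⟩ := side hB hSA hw hTAw he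
  rw [mem_es] at hf he
  set G := ((A ∪ B).erase e).erase f with hG
  have hmemG : ∀ g, g ∈ G ↔ g ≠ f ∧ g ≠ e ∧ (g ∈ A ∨ g ∈ B) := by
    intro g
    rw [hG, mem_erase, mem_erase, mem_union]
  have huP := (hPair.hP u).1 hu
  have hwP := (hPair.hP w).1 hw
  have hfeB : ∀ g ∈ B, g ≠ f ∧ g ≠ e := by
    intro g hg
    constructor
    · rintro rfl
      exact (disjoint_left.1 hPair.disj) hf.1 hg
    · rintro rfl
      exact (disjoint_left.1 hPair.disj) he.1 hg
  -- connectivity
  have hAf : ∀ v, J d (A.erase f) u v → J d G u v := fun v hv => restr (fun g hg hgu => by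
    rw [mem_erase] at hg
    rw [hmemG]
    refine ⟨hg.1, ?_, Or.inl hg.2⟩
    rintro rfl
    exact hnJ ((hgu.mono (erase_subset _ _)).trans he.2.symm)) hv
  have hBG : ∀ a b, J d B a b → J d G a b := fun a b h => h.mono fun g hg =>
    (hmemG g).2 ⟨(hfeB g hg).1, (hfeB g hg).2, Or.inr hg⟩
  have hAe : ∀ v, J d (A.erase e) w v → J d G w v := fun v hv => restr (fun g hg hgu => by
    rw [mem_erase] at hg
    rw [hmemG]
    refine ⟨?_, hg.1, Or.inl hg.2⟩
    rintro rfl
    exact hnJ (hf.2.trans (hgu.mono (erase_subset _ _)).symm)) hv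
  -- vertices of T'
  have hT' : ∀ v ∈ P, J d B u v → v = u ∨ v = w := fun v hv hJ =>
    two_mem hTB.2 (mem_inter.2 ⟨hu, mem_vs.2 (J.refl u)⟩) (mem_inter.2 ⟨hw, mem_vs.2 hJB⟩) huw
      (mem_inter.2 ⟨hv, mem_vs.2 hJ⟩)
  have htB : ∀ v, J d B u v → v ∈ tch d B := fun v h => tch_of_J huP.2 h
  have htAf : ∀ v, J d (A.erase f) u v → v ∈ tch d A := fun v h =>
    tch_of_J huP.1 (h.mono (erase_subset _ _))
  have htAe : ∀ v, J d (A.erase e) w v → v ∈ tch d A := fun v h =>
    tch_of_J hwP.1 (h.mono (erase_subset _ _))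
  -- the key lemma
  have key : ∀ g ∈ G, ∀ v, v ∈ tch d {g} →
      (J d (A.erase f) u v ∨ J d B u v ∨ J d (A.erase e) w v) →
      (g ∈ A ∧ J d (A.erase f) u v) ∨ (g ∈ A ∧ J d (A.erase e) w v) ∨ (g ∈ B ∧ J d B u v) := by
    intro g hg v hv hin
    rw [hmemG] at hg
    have htv : ∀ F : Finset (Fin m), g ∈ F → v ∈ tch d F := by
      intro F hgF
      rw [mem_tch] at hv ⊢
      obtain ⟨g', hg', h⟩ := hv
      rw [mem_singleton] at hg'
      subst hg'
      exact ⟨g', hgF, h⟩
    rcases hg.2.2 with hgA | hgB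
    · rcases hin with h | h | h
      · exact Or.inl ⟨hgA, h⟩
      · have hvP : v ∈ P := (hPair.hP v).2 ⟨htv A hgA, htB v h⟩
        rcases hT' v hvP h with rfl | rfl
        · exact Or.inl ⟨hgA, J.refl _⟩
        · exact Or.inr (Or.inl ⟨hgA, J.refl _⟩)
      · exact Or.inr (Or.inl ⟨hgA, h⟩)
    · refine Or.inr (Or.inr ⟨hgB, ?_⟩)
      rcases hin with h | h | h
      · have hvP : v ∈ P := (hPair.hP v).2 ⟨htAf v h, htv B hgB⟩
        rw [hPf v hvP h]
        exact J.refl _
      · exact h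
      · have hvP : v ∈ P := (hPair.hP v).2 ⟨htAe v h, htv B hgB⟩
        rw [hPe v hvP h]
        exact hJB
  have ht1 : ∀ g : Fin m, (d g).1 ∈ tch d {g} := fun g =>
    mem_tch.2 ⟨g, mem_singleton_self g, Or.inl rfl⟩
  have ht2 : ∀ g : Fin m, (d g).2 ∈ tch d {g} := fun g =>
    mem_tch.2 ⟨g, mem_singleton_self g, Or.inr rfl⟩
  have hclosed : ∀ v, J d G u v →
      (J d (A.erase f) u v ∨ J d B u v ∨ J d (A.erase e) w v) := by
    intro v hv
    have := J.closed (S := {v | J d (A.erase f) u v ∨ J d B u v ∨ J d (A.erase e) w v}) (F := G)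
      (d := d) (fun g hg => by
        have hg' := (hmemG g).1 hg
        constructor
        · intro h
          rcases key g hg _ (ht1 g) h with ⟨h1, h2⟩ | ⟨h1, h2⟩ | ⟨h1, h2⟩
          · exact Or.inl (h2.trans (J.edge (mem_erase.2 ⟨hg'.1, h1⟩)))
          · exact Or.inr (Or.inr (h2.trans (J.edge (mem_erase.2 ⟨hg'.2.1, h1⟩))))
          · exact Or.inr (Or.inl (h2.trans (J.edge h1)))
        · intro h
          rcases key g hg _ (ht2 g) h with ⟨h1, h2⟩ | ⟨h1, h2⟩ | ⟨h1, h2⟩
          · exact Or.inl (h2.trans (J.edge (mem_erase.2 ⟨hg'.1, h1⟩)).symm)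
          · exact Or.inr (Or.inr (h2.trans (J.edge (mem_erase.2 ⟨hg'.2.1, h1⟩)).symm))
          · exact Or.inr (Or.inl (h2.trans (J.edge h1).symm))) hv
    exact this.1 (Or.inl (J.refl u))
  have hes : es d G u ⊆ (es d (A.erase f) u ∪ es d B u) ∪ es d (A.erase e) w := by
    intro g hg
    rw [mem_es] at hg
    have hg' := (hmemG g).1 hg.1
    rw [mem_union, mem_union, mem_es, mem_es, mem_es, mem_erase, mem_erase]
    rcases key g hg.1 _ (ht1 g) (hclosed _ hg.2) with ⟨h1, h2⟩ | ⟨h1, h2⟩ | ⟨h1, h2⟩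
    · exact Or.inl (Or.inl ⟨⟨hg'.1, h1⟩, h2⟩)
    · exact Or.inr ⟨⟨hg'.2.1, h1⟩, h2⟩
    · exact Or.inl (Or.inr ⟨h1, h2⟩)
  have hvs : (vs d (A.erase f) u ∪ vs d B u) ∪ vs d (A.erase e) w ⊆ vs d G u := by
    intro v hv
    rw [mem_union, mem_union, mem_vs, mem_vs, mem_vs] at hv
    rw [mem_vs]
    rcases hv with (h | h) | h
    · exact hAf v h
    · exact hBG u v h
    · exact (hBG u w hJB).trans (hAe v h)
  have hi1 : (vs d (A.erase f) u ∩ vs d B u).card ≤ 1 := by
    rw [card_le_one]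
    have : ∀ v ∈ vs d (A.erase f) u ∩ vs d B u, v = u := by
      intro v hv
      rw [mem_inter, mem_vs, mem_vs] at hv
      exact hPf v ((hPair.hP v).2 ⟨htAf v hv.1, htB v hv.2⟩) hv.1
    intro a ha b hb
    rw [this a ha, this b hb]
  have hi2 : ((vs d (A.erase f) u ∪ vs d B u) ∩ vs d (A.erase e) w).card ≤ 1 := by
    rw [card_le_one]
    have : ∀ v ∈ (vs d (A.erase f) u ∪ vs d B u) ∩ vs d (A.erase e) w, v = w := by
      intro v hv
      rw [mem_inter, mem_union, mem_vs, mem_vs, mem_vs] at hv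
      rcases hv.1 with h | h
      · exact absurd ((h.mono (erase_subset _ _)).trans (hv.2.mono (erase_subset _ _)).symm) hnJ
      · exact hPe v ((hPair.hP v).2 ⟨htAe v hv.2, htB v h⟩) hv.2
    intro a ha b hb
    rw [this a ha, this b hb]
  have hcG : ¬ Cyc d G u := by
    unfold Cyc
    rw [not_le]
    unfold Cyc at hcf hce
    rw [not_le] at hcf hce
    have hcB := hTB.1
    unfold Cyc at hcB
    rw [not_le] at hcB
    have h1 := card_le_card hes
    have h2 := card_le_card hvs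
    have h3 := card_union_le (es d (A.erase f) u ∪ es d B u) (es d (A.erase e) w)
    have h4 := card_union_le (es d (A.erase f) u) (es d B u)
    have h5 := card_union_add_card_inter (vs d (A.erase f) u ∪ vs d B u) (vs d (A.erase e) w)
    have h6 := card_union_add_card_inter (vs d (A.erase f) u) (vs d B u)
    omega
  rintro ⟨hx, hy⟩
  rcases hzf with h | h
  · exact hcG ((Cyc.congr (hAf _ h)).2 hx)
  · exact hcG ((Cyc.congr (hAf _ h)).2 hy)

end Pool.Agent.T2h18.BC
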