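import Pool.Agent.T2h18.BC.Stm

/-! Project BC, part TH3: there is no closed chain. -/

set_option autoImplicit false

namespace Pool.Agent.T2h18.BC

open Finset

theorem TH3_tch {m n : ℕ} {d : Fin m → Fin n × Fin n} {F : Finset (Fin m)} {u v : Fin n}
    (hu : u ∈ tch d F) (h : J d F u v) : v ∈ tch d F := by
  by_contra hv
  have := J_of_not_tch hv h.symm
  exact hv (this ▸ hu)

/-- a closed set of vertices all of whose components have a cycle has at least as many edges as vertices -/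
theorem TH3_count {m n : ℕ} {d : Fin m → Fin n × Fin n} {F : Finset (Fin m)} {S : Finset (Fin n)}
    (hS : ∀ e ∈ F, ((d e).1 ∈ S ↔ (d e).2 ∈ S)) (hc : ∀ v ∈ S, Cyc d F v) :
    S.card ≤ (F.filter fun e => (d e).1 ∈ S).card := by
  classical
  have hcl : ∀ u v, J d F u v → (u ∈ S ↔ v ∈ S) := fun u v h =>
    J.closed (S := (S : Set (Fin n))) (by simpa using hS) h
  have h1 : S.card = ∑ T ∈ S.image (vs d F), (S.filter fun v => vs d F v = T).card :=
    Finset.card_eq_sum_card_fiberwise (fun v hv => Finset.mem_image_of_mem _ hv)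
  have h2 : (F.filter fun e => (d e).1 ∈ S).card = ∑ T ∈ S.image (vs d F),
      ((F.filter fun e => (d e).1 ∈ S).filter fun e => vs d F (d e).1 = T).card :=
    Finset.card_eq_sum_card_fiberwise
      (fun e he => Finset.mem_image_of_mem _ (Finset.mem_filter.1 he).2)
  rw [h1, h2]
  refine Finset.sum_le_sum fun T hT => ?_
  obtain ⟨v, hv, rfl⟩ := Finset.mem_image.1 hT
  have e1 : (S.filter fun w => vs d F w = vs d F v) = vs d F v := by
    ext w
    rw [mem_filter, mem_vs]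
    constructor
    · rintro ⟨_, h⟩
      have : w ∈ vs d F w := mem_vs.2 (J.refl w)
      rw [h] at this
      exact mem_vs.1 this
    · intro h
      exact ⟨(hcl _ _ h).1 hv, (vs_eq_of_J h).symm⟩
  have e2 : ((F.filter fun e => (d e).1 ∈ S).filter fun e => vs d F (d e).1 = vs d F v) = es d F v := by
    ext e
    rw [mem_filter, mem_filter, mem_es]
    constructor
    · rintro ⟨⟨h1, _⟩, h⟩
      have : (d e).1 ∈ vs d F (d e).1 := mem_vs.2 (J.refl _)
      rw [h] at this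
      exact ⟨h1, mem_vs.1 this⟩
    · rintro ⟨h1, h⟩
      exact ⟨⟨h1, (hcl _ _ h).1 hv⟩, (vs_eq_of_J h).symm⟩
  rw [e1, e2]
  exact hc v hv

theorem TH3_gen {m n : ℕ} {d : Fin m → Fin n × Fin n} {A : Finset (Fin m)} {P K : Finset (Fin n)}
    (hKP : K ⊆ P) (hT : ∀ b ∈ K, Thin d P A b) (hcl : ∀ b ∈ K, ∀ b' ∈ P, J d A b b' → b' ∈ K)
    {ι : Type} [DecidableEq ι] (s : Fin n → Finset ι) (p : ι → Fin n) (Q : ι → Prop)
    (hs : ∀ b x, x ∈ s b ↔ Q x ∧ J d A b (p x)) : ∑ b ∈ K, (s b).card = 2 * (K.biUnion s).card := by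
  classical
  have h1 : ∑ b ∈ K, (s b).card = ∑ b ∈ K, ∑ x ∈ s b, 1 := by simp
  have h2 : ∑ b ∈ K, ∑ x ∈ s b, 1 = ∑ x ∈ K.biUnion s, ∑ b ∈ K.filter (fun b => J d A b (p x)), 1 := by
    refine Finset.sum_comm' fun b x => ?_
    rw [mem_filter, mem_biUnion]
    constructor
    · rintro ⟨hb, hx⟩
      exact ⟨⟨hb, ((hs b x).1 hx).2⟩, b, hb, hx⟩
    · rintro ⟨⟨hb, hJ⟩, b', hb', hx⟩
      exact ⟨hb, (hs b x).2 ⟨((hs b' x).1 hx).1, hJ⟩⟩
  rw [h1, h2, mul_comm, ← smul_eq_mul, ← Finset.sum_const]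
  refine Finset.sum_congr rfl fun x hx => ?_
  obtain ⟨b, hb, hx⟩ := mem_biUnion.1 hx
  have : K.filter (fun b => J d A b (p x)) = P ∩ vs d A b := by
    ext b'
    rw [mem_filter, mem_inter, mem_vs]
    constructor
    · rintro ⟨h1, h2⟩
      exact ⟨hKP h1, ((hs b x).1 hx).2.trans h2.symm⟩
    · rintro ⟨h1, h2⟩
      exact ⟨hcl b hb b' h1 h2, h2.symm.trans ((hs b x).1 hx).2⟩
  rw [this, ← Finset.card_eq_sum_ones, (hT b hb).2]

/-- the number of vertices and edges of the thin components of one side -/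
theorem TH3_double {m n : ℕ} {d : Fin m → Fin n × Fin n} (hB : Bas d) {A : Finset (Fin m)}
    {P K : Finset (Fin n)} (hKP : K ⊆ P) (hT : ∀ b ∈ K, Thin d P A b)
    (hcl : ∀ b ∈ K, ∀ b' ∈ P, J d A b b' → b' ∈ K) :
    2 * (K.biUnion (vs d A)).card = 2 * (K.biUnion (es d A)).card + K.card := by
  rw [← TH3_gen hKP hT hcl (vs d A) id (fun _ => True) (fun b x => by rw [mem_vs]; simp),
    ← TH3_gen hKP hT hcl (es d A) (fun e => (d e).1) (fun e => e ∈ A) (fun b x => mem_es),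
    Finset.card_eq_sum_ones K, ← Finset.sum_add_distrib]
  refine Finset.sum_congr rfl fun b hb => ?_
  have h1 := hB.card_le A b
  have h2 : ¬ (vs d A b).card ≤ (es d A b).card := (hT b hb).1
  omega

/-- an edge of `A` with an end in the components of `B` meets the components of `A` -/
theorem TH3_side {m n : ℕ} {d : Fin m → Fin n × Fin n} {A B : Finset (Fin m)} {P K : Finset (Fin n)}
    (hP : ∀ v, v ∈ P ↔ v ∈ tch d A ∧ v ∈ tch d B) (hKP : K ⊆ P)
    (hcl : ∀ b ∈ K, ∀ b' ∈ P, J d B b b' → b' ∈ K) (v : Fin n) (hv : v ∈ tch d A)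
    (h : v ∈ K.biUnion (vs d B)) : v ∈ K := by
  obtain ⟨b, hb, hbv⟩ := mem_biUnion.1 h
  rw [mem_vs] at hbv
  have hb' : b ∈ tch d B := ((hP b).1 (hKP hb)).2
  exact hcl b hb v ((hP v).2 ⟨hv, TH3_tch hb' hbv⟩) hbv

theorem t_TH3 : S_TH3 := by
  intro m n d hB A B P hAB K hKP hKne hT hclA hclB
  classical
  have hP := hAB.hP
  have hP' : ∀ v, v ∈ P ↔ v ∈ tch d B ∧ v ∈ tch d A := fun v => by rw [hP, and_comm]
  set VA := K.biUnion (vs d A) with hVA
  set VB := K.biUnion (vs d B) with hVB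
  set EA := K.biUnion (es d A) with hEA
  set EB := K.biUnion (es d B) with hEB
  have hKA : K ⊆ VA := fun b hb => mem_biUnion.2 ⟨b, hb, mem_vs.2 (J.refl b)⟩
  have hKB : K ⊆ VB := fun b hb => mem_biUnion.2 ⟨b, hb, mem_vs.2 (J.refl b)⟩
  -- vertices of VA are ends of edges of A
  have htA : ∀ v ∈ VA, v ∈ tch d A := by
    intro v hv
    obtain ⟨b, hb, hbv⟩ := mem_biUnion.1 hv
    exact TH3_tch ((hP b).1 (hKP hb)).1 (mem_vs.1 hbv)
  have htB : ∀ v ∈ VB, v ∈ tch d B := by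
    intro v hv
    obtain ⟨b, hb, hbv⟩ := mem_biUnion.1 hv
    exact TH3_tch ((hP b).1 (hKP hb)).2 (mem_vs.1 hbv)
  have hinter : VA ∩ VB = K := by
    ext v
    rw [mem_inter]
    constructor
    · rintro ⟨h1, h2⟩
      exact TH3_side hP hKP hclB v (htA v h1) h2
    · intro h
      exact ⟨hKA h, hKB h⟩
  -- both sides of an edge
  have hA1 : ∀ v, v ∈ tch d A → v ∈ VA ∪ VB → v ∈ VA := by
    intro v hv h
    rcases mem_union.1 h with h | h
    · exact h
    · exact hKA (TH3_side hP hKP hclB v hv h)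
  have hB1 : ∀ v, v ∈ tch d B → v ∈ VA ∪ VB → v ∈ VB := by
    intro v hv h
    rcases mem_union.1 h with h | h
    · exact hKB (TH3_side hP' hKP hclA v hv h)
    · exact h
  have hVAcl : ∀ e ∈ A, ((d e).1 ∈ VA ↔ (d e).2 ∈ VA) := by
    intro e he
    simp only [hVA, mem_biUnion, mem_vs]
    exact ⟨fun ⟨b, hb, h⟩ => ⟨b, hb, h.trans (J.edge he)⟩,
      fun ⟨b, hb, h⟩ => ⟨b, hb, h.trans (J.edge he).symm⟩⟩
  have hVBcl : ∀ e ∈ B, ((d e).1 ∈ VB ↔ (d e).2 ∈ VB) := by
    intro e he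
    simp only [hVB, mem_biUnion, mem_vs]
    exact ⟨fun ⟨b, hb, h⟩ => ⟨b, hb, h.trans (J.edge he)⟩,
      fun ⟨b, hb, h⟩ => ⟨b, hb, h.trans (J.edge he).symm⟩⟩
  have ht1 : ∀ (F : Finset (Fin m)) (e : Fin m), e ∈ F → (d e).1 ∈ tch d F :=
    fun F e he => mem_tch.2 ⟨e, he, Or.inl rfl⟩
  have ht2 : ∀ (F : Finset (Fin m)) (e : Fin m), e ∈ F → (d e).2 ∈ tch d F :=
    fun F e he => mem_tch.2 ⟨e, he, Or.inr rfl⟩
  have hVcl : ∀ e ∈ A ∪ B, ((d e).1 ∈ VA ∪ VB ↔ (d e).2 ∈ VA ∪ VB) := by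
    intro e he
    rcases mem_union.1 he with he | he
    · constructor
      · intro h
        exact mem_union_left _ ((hVAcl e he).1 (hA1 _ (ht1 A e he) h))
      · intro h
        exact mem_union_left _ ((hVAcl e he).2 (hA1 _ (ht2 A e he) h))
    · constructor
      · intro h
        exact mem_union_right _ ((hVBcl e he).1 (hB1 _ (ht1 B e he) h))
      · intro h
        exact mem_union_right _ ((hVBcl e he).2 (hB1 _ (ht2 B e he) h))
  -- the edges
  have hE : ((A ∪ B).filter fun e => (d e).1 ∈ VA ∪ VB) = EA ∪ EB := by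
    ext e
    rw [mem_filter, mem_union (s := EA)]
    constructor
    · rintro ⟨he, h⟩
      rcases mem_union.1 he with he | he
      · left
        have := hA1 _ (ht1 A e he) h
        obtain ⟨b, hb, hbv⟩ := mem_biUnion.1 this
        exact mem_biUnion.2 ⟨b, hb, mem_es.2 ⟨he, mem_vs.1 hbv⟩⟩
      · right
        have := hB1 _ (ht1 B e he) h
        obtain ⟨b, hb, hbv⟩ := mem_biUnion.1 this
        exact mem_biUnion.2 ⟨b, hb, mem_es.2 ⟨he, mem_vs.1 hbv⟩⟩
    · rintro (h | h)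
      · obtain ⟨b, hb, hbv⟩ := mem_biUnion.1 h
        obtain ⟨h1, h2⟩ := mem_es.1 hbv
        exact ⟨mem_union_left _ h1, mem_union_left _ (mem_biUnion.2 ⟨b, hb, mem_vs.2 h2⟩)⟩
      · obtain ⟨b, hb, hbv⟩ := mem_biUnion.1 h
        obtain ⟨h1, h2⟩ := mem_es.1 hbv
        exact ⟨mem_union_right _ h1, mem_union_right _ (mem_biUnion.2 ⟨b, hb, mem_vs.2 h2⟩)⟩
  have hEAA : EA ⊆ A := by
    intro e he
    obtain ⟨b, _, hbv⟩ := mem_biUnion.1 he
    exact (mem_es.1 hbv).1
  have hEBB : EB ⊆ B := by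
    intro e he
    obtain ⟨b, _, hbv⟩ := mem_biUnion.1 he
    exact (mem_es.1 hbv).1
  have hEdisj : Disjoint EA EB := Finset.disjoint_of_subset_left hEAA
    (Finset.disjoint_of_subset_right hEBB hAB.disj)
  have hcA := TH3_double hB hKP (fun b hb => (hT b hb).1) hclA
  have hcB := TH3_double hB hKP (fun b hb => (hT b hb).2) hclB
  rw [← hVA, ← hEA] at hcA
  rw [← hVB, ← hEB] at hcB
  have hcV : (VA ∪ VB).card + K.card = VA.card + VB.card := by
    rw [← hinter]
    exact Finset.card_union_add_card_inter VA VB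
  have hcE : (EA ∪ EB).card = EA.card + EB.card := Finset.card_union_of_disjoint hEdisj
  have htot : (VA ∪ VB).card = (EA ∪ EB).card := by omega
  -- every vertex of V is in a component with a cycle
  have hcyc : ∀ v ∈ VA ∪ VB, Cyc d (A ∪ B) v := by
    intro v hv
    by_contra hnc
    have hvt : v ∈ tch d (A ∪ B) := by
      rcases mem_union.1 hv with h | h
      · obtain ⟨e, he, h'⟩ := mem_tch.1 (htA v h)
        exact mem_tch.2 ⟨e, mem_union_left _ he, h'⟩
      · obtain ⟨e, he, h'⟩ := mem_tch.1 (htB v h)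
        exact mem_tch.2 ⟨e, mem_union_right _ he, h'⟩
    obtain ⟨g, hg, hgv⟩ := mem_tch.1 hvt
    have hJ : J d (A ∪ B) v (d g).1 := by
      rcases hgv with h | h
      · rw [h]
        exact J.refl v
      · rw [← h]
        exact (J.edge hg).symm
    have hnc' : ¬ Cyc d (A ∪ B) (d g).1 := fun h => hnc ((Cyc.congr hJ).2 h)
    exact (hB.bridge (A ∪ B) g hg hnc').2.1 (hAB.ess g hg).1
  -- an edge
  obtain ⟨b, hb⟩ := hKne
  obtain ⟨f, hf, hfb⟩ := mem_tch.1 ((hP b).1 (hKP hb)).1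
  have hfF : f ∈ A ∪ B := mem_union_left _ hf
  have hfE : f ∈ EA ∪ EB := by
    refine mem_union_left _ (mem_biUnion.2 ⟨b, hb, mem_es.2 ⟨hf, ?_⟩⟩)
    rcases hfb with h | h
    · rw [h]
      exact J.refl b
    · rw [← h]
      exact (J.edge hf).symm
  have hcyc' : ∀ v ∈ VA ∪ VB, Cyc d ((A ∪ B).erase f) v := by
    intro v hv
    have h1 := (hB.cyc_insert ((A ∪ B).erase f) f (Finset.notMem_erase _ _) v).1
      (by rw [Finset.insert_erase hfF]; exact hcyc v hv)
    rcases h1 with ⟨h | h, _⟩ | ⟨_, _, h⟩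
    · exact (Cyc.congr h).2 (hAB.ess f hfF).1
    · exact (Cyc.congr h).2 (hAB.ess f hfF).2
    · exact h
  have hfin := TH3_count (F := (A ∪ B).erase f) (S := VA ∪ VB)
    (fun e he => hVcl e (Finset.mem_of_mem_erase he)) hcyc'
  have herase : (((A ∪ B).erase f).filter fun e => (d e).1 ∈ VA ∪ VB) = (EA ∪ EB).erase f := by
    rw [← hE]
    ext e
    simp only [mem_filter, mem_erase]
    tauto
  rw [herase, Finset.card_erase_of_mem hfE, htot] at hfin
  have : 0 < (EA ∪ EB).card := Finset.card_pos.2 ⟨f, hfE⟩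
  omega

end Pool.Agent.T2h18.BC
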