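import Pool.Agent.T2h18.BC.Stm

set_option autoImplicit false

namespace Pool.Agent.T2h18.BC

open Finset

theorem t_TWO : S_TWO := by
  intro m n d hd A P hS v hv hc
  obtain ⟨e, he, hev⟩ := mem_tch.1 hv
  have h1 : J d A v (d e).1 := by
    rcases hev with h | h
    · rw [← h]; exact J.refl _
    · rw [← h]; exact (J.edge he).symm
  have h2 : ¬ Cyc d A (d e).1 := fun h => hc ((Cyc.congr h1).2 h)
  obtain ⟨⟨p, hp, hp'⟩, q, hq, hq'⟩ := hS e he h2
  have hb := (hd.bridge A e he h2).1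
  have hne : p ≠ q := by
    rintro rfl
    exact hb (hp'.trans hq'.symm)
  have h3 : J d A v p := h1.trans (hp'.mono (Finset.erase_subset _ _))
  have h4 : J d A v q := (h1.trans (J.edge he)).trans (hq'.mono (Finset.erase_subset _ _))
  exact Finset.one_lt_card.2 ⟨p, Finset.mem_inter.2 ⟨hp, mem_vs.2 h3⟩, q,
    Finset.mem_inter.2 ⟨hq, mem_vs.2 h4⟩, hne⟩

end Pool.Agent.T2h18.BC
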