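import Pool.Agent.T2h18.BC.Stm

set_option autoImplicit false

/-! # Project BC, part UFS: union-find is correct -/

namespace Pool.Agent.T2h18.BC

open Finset

namespace UFS

theorem uf_append (k : ℕ) (L : List (ℕ × ℕ)) (e : ℕ × ℕ) : uf k (L ++ [e]) = stp (uf k L) e := by
  simp [uf]

theorem stq_fst (k : ℕ) (L : List (ℕ × ℕ)) : (L.foldl stq (ini k, true)).1 = uf k L := by
  induction L using List.reverseRecOn with
  | nil => rfl
  | append_singleton L e ih =>
    rw [uf_append, List.foldl_append, List.foldl_cons, List.foldl_nil]
    show stp (L.foldl stq (ini k, true)).1 e = _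
    rw [ih]

theorem okf_append (k : ℕ) (L : List (ℕ × ℕ)) (e : ℕ × ℕ) : okf k (L ++ [e]) =
    (okf k L && !(((uf k L).getD e.1 (0, false)).2 && ((uf k L).getD e.2 (0, false)).2)) := by
  rw [okf, List.foldl_append, List.foldl_cons, List.foldl_nil]
  show ((L.foldl stq (ini k, true)).2 && !(((L.foldl stq (ini k, true)).1.getD e.1 (0, false)).2 &&
    ((L.foldl stq (ini k, true)).1.getD e.2 (0, false)).2)) = _
  rw [stq_fst]
  rfl

theorem length_uf (k : ℕ) (L : List (ℕ × ℕ)) : (uf k L).length = k := by
  induction L using List.reverseRecOn with
  | nil => simp [uf, ini]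
  | append_singleton L e ih =>
    rw [uf_append]
    simp [stp, ih]

theorem stp_getD (s : List (ℕ × Bool)) (e : ℕ × ℕ) (u : ℕ) (hu : u < s.length) :
    (stp s e).getD u (0, false) =
      if (s.getD u (0, false)).1 = (s.getD e.1 (0, false)).1 ∨
          (s.getD u (0, false)).1 = (s.getD e.2 (0, false)).1 then
        ((s.getD e.1 (0, false)).1,
          decide ((s.getD e.1 (0, false)).1 = (s.getD e.2 (0, false)).1) ||
          (s.getD e.1 (0, false)).2 || (s.getD e.2 (0, false)).2)
      else s.getD u (0, false) := by
  have h1 : s.getD u (0, false) = s[u] := by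
    rw [List.getD_eq_getElem _ _ hu]
  have hu' : u < (stp s e).length := by simp [stp, hu]
  rw [List.getD_eq_getElem _ _ hu', h1]
  simp only [stp, List.getElem_map]

theorem ini_getD (k u : ℕ) (hu : u < k) : (ini k).getD u (0, false) = (u, false) := by
  have hu' : u < (ini k).length := by simp [ini, hu]
  rw [List.getD_eq_getElem _ _ hu']
  simp [ini]

variable {m n : ℕ}

theorem J_empty {d : Fin m → Fin n × Fin n} {u v : Fin n} : J d ∅ u v ↔ u = v := by
  constructor
  · intro h
    exact (J_of_not_tch (by simp [mem_tch]) h).symm
  · rintro rfl
    exact J.refl _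

end UFS

theorem t_UFS : S_UFS := by
  intro m n d hd l
  induction l using List.reverseRecOn with
  | nil =>
    intro _
    refine ⟨fun u v => ?_, fun v => ?_, ?_⟩
    · rw [List.map_nil, List.toFinset_nil, UFS.J_empty]
      show (((ini n).getD u (0, false)).1 = ((ini n).getD v (0, false)).1) ↔ _
      rw [UFS.ini_getD n u u.2, UFS.ini_getD n v v.2]
      exact Fin.ext_iff.symm
    · rw [List.map_nil, List.toFinset_nil]
      show (((ini n).getD v (0, false)).2 = true) ↔ _
      rw [UFS.ini_getD n v v.2]
      simp only [Bool.false_eq_true, false_iff]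
      exact hd.not_cyc_empty v
    · rw [List.map_nil, List.toFinset_nil]
      simp only [okf, List.foldl_nil, true_iff]
      exact hd.ind_empty
  | append_singleton l f ih =>
    intro hnd
    rw [List.nodup_append] at hnd
    obtain ⟨hl, _, hdis⟩ := hnd
    have hf : f ∉ l.toFinset := by
      rw [List.mem_toFinset]
      intro h
      exact hdis f h f (by simp) rfl
    obtain ⟨hJ, hC, hI⟩ := ih hl
    have hins : (l ++ [f]).toFinset = insert f l.toFinset := by
      ext x
      simp
    rw [hins, List.map_append, List.map_cons, List.map_nil, UFS.uf_append, UFS.okf_append]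
    set s := uf n (l.map fun e => (((d e).1 : ℕ), ((d e).2 : ℕ))) with hs
    have hlen : s.length = n := UFS.length_uf _ _
    have hget : ∀ u : Fin n, (stp s (((d f).1 : ℕ), ((d f).2 : ℕ))).getD u (0, false) = _ :=
      fun u => UFS.stp_getD s (((d f).1 : ℕ), ((d f).2 : ℕ)) u (by rw [hlen]; exact u.2)
    refine ⟨fun u v => ?_, fun v => ?_, ?_⟩
    · rw [hget, hget, hd.J_insert, ← hJ u v, ← hJ u (d f).1, ← hJ u (d f).2, ← hJ (d f).2 v,
        ← hJ (d f).1 v]
      simp only [apply_ite Prod.fst]
      generalize (s.getD u (0, false)).1 = a
      generalize (s.getD v (0, false)).1 = b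
      generalize (s.getD (d f).1 (0, false)).1 = x
      generalize (s.getD (d f).2 (0, false)).1 = y
      split_ifs with h1 h2 h2
      · simp only [true_iff]
        rcases h1 with h1 | h1 <;> rcases h2 with h2 | h2 <;> simp [h1, h2]
      · simp only [not_or] at h2
        constructor
        · intro h
          exact absurd h.symm h2.1
        · rintro (h | h | h)
          · rcases h1 with h1 | h1
            · exact absurd (h.symm.trans h1) h2.1
            · exact absurd (h.symm.trans h1) h2.2
          · exact absurd h.2.symm h2.2
          · exact absurd h.2.symm h2.1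
      · simp only [not_or] at h1
        constructor
        · intro h
          exact absurd h h1.1
        · rintro (h | h | h)
          · rcases h2 with h2 | h2
            · exact absurd (h.trans h2) h1.1
            · exact absurd (h.trans h2) h1.2
          · exact absurd h.1 h1.1
          · exact absurd h.1 h1.2
      · simp only [not_or] at h1 h2
        constructor
        · intro h
          exact Or.inl h
        · rintro (h | h | h)
          · exact h
          · exact absurd h.1 h1.1
          · exact absurd h.1 h1.2
    · rw [hget, hd.cyc_insert _ _ hf, ← hJ v (d f).1, ← hJ v (d f).2, ← hJ (d f).1 (d f).2,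
        ← hC (d f).1, ← hC (d f).2, ← hC v]
      simp only
      split_ifs with h1
      · simp only [Bool.or_eq_true, decide_eq_true_eq]
        constructor
        · intro h
          left
          exact ⟨h1, by tauto⟩
        · rintro (h | h)
          · tauto
          · exact absurd h1 (by tauto)
      · simp only [not_or] at h1
        constructor
        · intro h
          exact Or.inr ⟨h1.1, h1.2, h⟩
        · rintro (h | h)
          · exact absurd h.1 (by tauto)
          · exact h.2.2
    · rw [hd.ind_insert _ _ hf, ← hI, ← hC (d f).1, ← hC (d f).2]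
      simp only [Bool.and_eq_true, Bool.not_eq_true', Bool.and_eq_false_iff]
      constructor
      · rintro ⟨h1, h2⟩
        refine ⟨h1, ?_⟩
        rintro ⟨h3, h4⟩
        rcases h2 with h2 | h2
        · rw [h2] at h3
          exact Bool.false_ne_true h3
        · rw [h2] at h4
          exact Bool.false_ne_true h4
      · rintro ⟨h1, h2⟩
        refine ⟨h1, ?_⟩
        by_contra hcon
        simp only [not_or, Bool.not_eq_false] at hcon
        exact h2 hcon

end Pool.Agent.T2h18.BC
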