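import Pool.Agent.T2h18.BC.Stm
import Pool.Agent.H633R2.Fpt

set_option autoImplicit false

/-!
# The algorithm, and its running time

An instance is `(G, U, X, X')`: the list of the ends of the edges, and three sets of edges given by
lists of bits.
-/

namespace Pool.Agent.T2h18.BC

/-- the ends of the edges in the list `L` -/
def sub (G : List (ℕ × ℕ)) (L : List ℕ) : List (ℕ × ℕ) := L.map fun i => G.getD i (0, 0)

/-- the set with the characteristic list `X` -/
def ix (G : List (ℕ × ℕ)) (X : List Bool) : List ℕ :=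
  (List.range G.length).filter fun i => X.getD i false

/-- deletion of `e` -/
def del (L : List ℕ) (e : ℕ) : List ℕ := L.filter fun i => !decide (i = e)

/-- union-find for the edges in `L` -/
def run (G : List (ℕ × ℕ)) (L : List ℕ) : List (ℕ × Bool) := uf (2 * G.length) (sub G L)

/-- the component of `v` has a cycle -/
def cyB (G : List (ℕ × ℕ)) (L : List ℕ) (v : ℕ) : Bool := ((run G L).getD v (0, false)).2

/-- `f` is in no circuit of the edges in `L` -/
def colB (G : List (ℕ × ℕ)) (L : List ℕ) (f : ℕ) : Bool :=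
  !(cyB G (del L f) (G.getD f (0, 0)).1 && cyB G (del L f) (G.getD f (0, 0)).2)

/-- `f` is essential -/
def essB (G : List (ℕ × ℕ)) (f : ℕ) : Bool := !(colB G (List.range G.length) f)

/-- the essential part of `X` -/
def starB (G : List (ℕ × ℕ)) (U X : List Bool) : List ℕ :=
  (ix G X).filter fun f => essB G f &&
    (ix G U).all fun e => !(colB G (del (List.range G.length) e) f) || X.getD e false

/-- the essential edges outside `U` -/
def outB (G : List (ℕ × ℕ)) (U : List Bool) : List ℕ :=
  (List.range G.length).filter fun e => !(U.getD e false) && essB G e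

/-- their ends -/
def endB (G : List (ℕ × ℕ)) (U : List Bool) : List ℕ :=
  (sub G (outB G U)).map (fun e => e.1) ++ (sub G (outB G U)).map (fun e => e.2)

/-- the two states agree on `P` -/
def agrB (P : List ℕ) (s s' : List (ℕ × Bool)) : Bool :=
  (P.all fun v => P.all fun w => decide (decide ((s.getD v (0, false)).1 = (s.getD w (0, false)).1) =
    decide ((s'.getD v (0, false)).1 = (s'.getD w (0, false)).1))) &&
  P.all fun v => decide ((s.getD v (0, false)).2 = (s'.getD v (0, false)).2)

/-- `X` is independent -/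
def okB (G : List (ℕ × ℕ)) (X : List Bool) : Bool := okf (2 * G.length) (sub G (ix G X))

/-- the test -/
def testB (G : List (ℕ × ℕ)) (U X X' : List Bool) : Bool :=
  (!(okB G X) && !(okB G X')) || (okB G X && okB G X' &&
    agrB (endB G U) (run G (starB G U X)) (run G (starB G U X')))

theorem getD_mem_or {α : Type} (l : List α) (i : ℕ) (x : α) : l.getD i x ∈ l ∨ l.getD i x = x := by
  by_cases h : i < l.length
  · rw [List.getD_eq_getElem _ _ h]
    exact Or.inl (List.getElem_mem h)
  · exact Or.inr (List.getD_eq_default _ _ (by omega))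

theorem stp_inv {k : ℕ} {s : List (ℕ × Bool)} (h : s.length = k ∧ ∀ z ∈ s, z.1 ≤ k) (e : ℕ × ℕ) :
    (stp s e).length = k ∧ ∀ z ∈ stp s e, z.1 ≤ k := by
  refine ⟨by simp [stp, h.1], fun z hz => ?_⟩
  simp only [stp, List.mem_map] at hz
  obtain ⟨y, hy, rfl⟩ := hz
  split_ifs
  · rcases getD_mem_or s e.1 (0, false) with h1 | h1
    · exact h.2 (s.getD e.1 (0, false)) h1
    · show (s.getD e.1 (0, false)).1 ≤ k
      rw [h1]; exact Nat.zero_le _
  · exact h.2 _ hy

theorem ini_inv (k : ℕ) : (ini k).length = k ∧ ∀ z ∈ ini k, z.1 ≤ k := by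
  refine ⟨by simp [ini], fun z hz => ?_⟩
  simp only [ini, List.mem_map, List.mem_range] at hz
  obtain ⟨i, hi, rfl⟩ := hz
  exact hi.le

theorem foldl_inv {k : ℕ} (L : List (ℕ × ℕ)) :
    (L.foldl stp (ini k)).length = k ∧ ∀ z ∈ L.foldl stp (ini k), z.1 ≤ k := by
  induction L using List.reverseRecOn with
  | nil => exact ini_inv k
  | append_singleton L e ih =>
    rw [List.foldl_append]
    exact stp_inv ih e

theorem foldl_inv2 {k : ℕ} (L : List (ℕ × ℕ)) (b : Bool) :
    (L.foldl stq (ini k, b)).1.length = k ∧ ∀ z ∈ (L.foldl stq (ini k, b)).1, z.1 ≤ k := by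
  induction L using List.reverseRecOn with
  | nil => exact ini_inv k
  | append_singleton L e ih =>
    rw [List.foldl_append]
    exact stp_inv ih e

end Pool.Agent.T2h18.BC

namespace Pool.Agent.NPC.BC

open Pool.Agent.NPC Pool.Agent.T2h18.BC

section

variable {α : Type} [TEnc α] {G L : α → List (ℕ × ℕ)} {U X X' : α → List Bool} {I : α → List ℕ}
  {f v : α → ℕ} {k : α → ℕ} {s s' : α → List (ℕ × Bool)} {e : α → ℕ × ℕ}

theorem p1 {β : Type} [TEnc β] : Poly (fun q : α × β => q.1) := Poly.fst Poly.id
theorem p2 {β : Type} [TEnc β] : Poly (fun q : α × β => q.2) := Poly.snd Poly.id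

theorem sz_state {k : ℕ} {s : List (ℕ × Bool)} (h : s.length = k ∧ ∀ z ∈ s, z.1 ≤ k) :
    sz s ≤ k * (4 * k + 6) + 1 := by
  have h1 := sz_le_length_mul s (4 * k + 5) (by
    intro z hz
    obtain ⟨a, b⟩ := z
    have h2 := h.2 _ hz
    have h3 := sz_nat_le a
    have h4 := Poly.size_le_self a
    have h5 := sz_bool_le b
    simp only [sz_pair]
    simp only at h2
    omega)
  rw [h.1] at h1
  exact h1

theorem poly_stp (hs : Poly s) (he : Poly e) : Poly (fun a => stp (s a) (e a)) := by
  unfold stp
  have g1 : Poly (fun a => (s a).getD (e a).1 (0, false)) := Poly.getD hs (Poly.fst he) (Poly.const _)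
  have g2 : Poly (fun a => (s a).getD (e a).2 (0, false)) := Poly.getD hs (Poly.snd he) (Poly.const _)
  refine Poly.map (F := fun a z => if z.1 = ((s a).getD (e a).1 (0, false)).1 ∨
    z.1 = ((s a).getD (e a).2 (0, false)).1 then (((s a).getD (e a).1 (0, false)).1,
      decide (((s a).getD (e a).1 (0, false)).1 = ((s a).getD (e a).2 (0, false)).1) ||
      ((s a).getD (e a).1 (0, false)).2 || ((s a).getD (e a).2 (0, false)).2) else z) hs ?_
  refine Poly.ite (Poly.decide_or (Poly.decide_eq (Poly.fst p2) (Poly.fst (g1.comp p1)))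
    (Poly.decide_eq (Poly.fst p2) (Poly.fst (g2.comp p1)))) ?_ p2
  exact Poly.pair (Poly.fst (g1.comp p1)) (Poly.or (Poly.or (Poly.decide_eq (Poly.fst (g1.comp p1))
    (Poly.fst (g2.comp p1))) (Poly.snd (g1.comp p1))) (Poly.snd (g2.comp p1)))

theorem poly_stq {t : α → List (ℕ × Bool) × Bool} (ht : Poly t) (he : Poly e) :
    Poly (fun a => stq (t a) (e a)) := by
  unfold stq
  exact Poly.pair (poly_stp (Poly.fst ht) he) (Poly.and (Poly.snd ht) (Poly.not (Poly.and
    (Poly.snd (Poly.getD (Poly.fst ht) (Poly.fst he) (Poly.const _)))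
    (Poly.snd (Poly.getD (Poly.fst ht) (Poly.snd he) (Poly.const _))))))

theorem poly_ini (hk : UPoly k) : Poly (fun a => ini (k a)) := by
  unfold ini
  exact Poly.map (F := fun _ i => (i, false)) hk.range (Poly.pair p2 (Poly.const _))

theorem upoly_le (hk : UPoly k) : ∃ p : Polynomial ℕ, ∀ a, k a ≤ p.eval (sz a) := by
  obtain ⟨p, hp⟩ := Poly.sz_le hk
  refine ⟨p, fun a => le_trans ?_ (hp a)⟩
  have := length_lt_sz (List.replicate (k a) ())
  rw [List.length_replicate] at this
  exact this.le

theorem poly_uf (hk : UPoly k) (hL : Poly L) : Poly (fun a => uf (k a) (L a)) := by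
  unfold uf
  obtain ⟨p, hp⟩ := upoly_le hk
  refine Poly.foldl (F := fun _ t z => stp t z) hL (poly_ini hk)
    (poly_stp (Poly.fst p2) (Poly.snd p2)) (p * (Polynomial.C 4 * p + Polynomial.C 6) + Polynomial.C 1) ?_
  intro a j _
  refine (sz_state (foldl_inv _)).trans ?_
  have h1 := hp a
  simp only [Polynomial.eval_add, Polynomial.eval_mul, Polynomial.eval_C]
  have h2 : k a * (4 * k a + 6) ≤ p.eval (sz a) * (4 * p.eval (sz a) + 6) :=
    Nat.mul_le_mul h1 (by omega)
  omega

theorem poly_okf (hk : UPoly k) (hL : Poly L) : Poly (fun a => okf (k a) (L a)) := by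
  unfold okf
  obtain ⟨p, hp⟩ := upoly_le hk
  refine Poly.snd (Poly.foldl (F := fun _ t z => stq t z) hL (Poly.pair (poly_ini hk) (Poly.const true))
    (poly_stq (Poly.fst p2) (Poly.snd p2))
    (p * (Polynomial.C 4 * p + Polynomial.C 6) + Polynomial.C 5) ?_)
  intro a j _
  have h3 := sz_state (foldl_inv2 (k := k a) ((L a).take j) true)
  have h4 := sz_bool_le (((L a).take j).foldl stq (ini (k a), true)).2
  have h5 : sz (((L a).take j).foldl stq (ini (k a), true)) =
    sz (((L a).take j).foldl stq (ini (k a), true)).1 +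
      sz (((L a).take j).foldl stq (ini (k a), true)).2 + 1 := sz_pair _ _
  change sz (((L a).take j).foldl stq (ini (k a), true)) ≤ _
  rw [h5]
  have h1 := hp a
  simp only [Polynomial.eval_add, Polynomial.eval_mul, Polynomial.eval_C]
  have h2 : k a * (4 * k a + 6) ≤ p.eval (sz a) * (4 * p.eval (sz a) + 6) :=
    Nat.mul_le_mul h1 (by omega)
  omega

theorem poly_sub (hG : Poly G) (hI : Poly I) : Poly (fun a => sub (G a) (I a)) := by
  unfold sub
  exact Poly.map (F := fun a i => (G a).getD i (0, 0)) hI (Poly.getD (hG.comp p1) p2 (Poly.const _))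

theorem poly_ix (hG : Poly G) (hX : Poly X) : Poly (fun a => ix (G a) (X a)) := by
  unfold ix
  exact Poly.filter (p := fun a i => (X a).getD i false) (Poly.range_length hG)
    (Poly.getD (hX.comp p1) p2 (Poly.const _))

theorem poly_del (hI : Poly I) (hf : Poly f) : Poly (fun a => del (I a) (f a)) := by
  unfold del
  exact Poly.filter (p := fun a i => !decide (i = f a)) hI
    (Poly.not (Poly.decide_eq p2 (hf.comp p1)))

theorem upoly_k (hG : Poly G) : UPoly (fun a => 2 * (G a).length) :=
  UPoly.mul (UPoly.const 2) (UPoly.length hG)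

theorem poly_run (hG : Poly G) (hI : Poly I) : Poly (fun a => run (G a) (I a)) :=
  poly_uf (upoly_k hG) (poly_sub hG hI)

theorem poly_cyB (hG : Poly G) (hI : Poly I) (hv : Poly v) : Poly (fun a => cyB (G a) (I a) (v a)) :=
  Poly.snd (Poly.getD (poly_run hG hI) hv (Poly.const _))

theorem poly_colB (hG : Poly G) (hI : Poly I) (hf : Poly f) :
    Poly (fun a => colB (G a) (I a) (f a)) :=
  Poly.not (Poly.and
    (poly_cyB hG (poly_del hI hf) (Poly.fst (Poly.getD hG hf (Poly.const _))))
    (poly_cyB hG (poly_del hI hf) (Poly.snd (Poly.getD hG hf (Poly.const _)))))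

theorem poly_essB (hG : Poly G) (hf : Poly f) : Poly (fun a => essB (G a) (f a)) :=
  Poly.not (poly_colB hG (Poly.range_length hG) hf)

theorem poly_starB (hG : Poly G) (hU : Poly U) (hX : Poly X) :
    Poly (fun a => starB (G a) (U a) (X a)) := by
  unfold starB
  refine Poly.filter (p := fun a f => essB (G a) f && (ix (G a) (U a)).all fun e =>
    !(colB (G a) (del (List.range (G a).length) e) f) || (X a).getD e false) (poly_ix hG hX) ?_
  refine Poly.and (poly_essB (hG.comp p1) p2) ?_
  refine Poly.all (α := α × ℕ) (p := fun q e =>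
    !(colB (G q.1) (del (List.range (G q.1).length) e) q.2) || (X q.1).getD e false)
    (poly_ix (hG.comp p1) (hU.comp p1)) ?_
  exact Poly.or (Poly.not (poly_colB (hG.comp (p1.comp p1)) (poly_del (Poly.range_length
    (hG.comp (p1.comp p1))) p2) (p2.comp p1))) (Poly.getD (hX.comp (p1.comp p1)) p2 (Poly.const _))

theorem poly_outB (hG : Poly G) (hU : Poly U) : Poly (fun a => outB (G a) (U a)) := by
  unfold outB
  exact Poly.filter (p := fun a e => !((U a).getD e false) && essB (G a) e) (Poly.range_length hG)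
    (Poly.and (Poly.not (Poly.getD (hU.comp p1) p2 (Poly.const _))) (poly_essB (hG.comp p1) p2))

theorem poly_endB (hG : Poly G) (hU : Poly U) : Poly (fun a => endB (G a) (U a)) := by
  unfold endB
  exact Poly.append (Poly.map (F := fun _ e => e.1) (poly_sub hG (poly_outB hG hU)) (Poly.fst p2))
    (Poly.map (F := fun _ e => e.2) (poly_sub hG (poly_outB hG hU)) (Poly.snd p2))

theorem poly_agrB (hI : Poly I) (hs : Poly s) (hs' : Poly s') :
    Poly (fun a => agrB (I a) (s a) (s' a)) := by
  unfold agrB
  have gd : ∀ {β : Type} [TEnc β] {t : β → List (ℕ × Bool)} {u : β → ℕ}, Poly t → Poly u →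
    Poly (fun b => (t b).getD (u b) (0, false)) := fun ht hu => Poly.getD ht hu (Poly.const _)
  refine Poly.and ?_ ?_
  · refine Poly.all (p := fun a v => (I a).all fun w => decide (decide (((s a).getD v (0, false)).1 =
      ((s a).getD w (0, false)).1) = decide (((s' a).getD v (0, false)).1 =
        ((s' a).getD w (0, false)).1))) hI ?_
    refine Poly.all (α := α × ℕ) (p := fun q w => decide (decide (((s q.1).getD q.2 (0, false)).1 =
      ((s q.1).getD w (0, false)).1) = decide (((s' q.1).getD q.2 (0, false)).1 =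
        ((s' q.1).getD w (0, false)).1))) (hI.comp p1) ?_
    exact Poly.decide_eq
      (Poly.decide_eq (Poly.fst (gd (hs.comp (p1.comp p1)) (p2.comp p1)))
        (Poly.fst (gd (hs.comp (p1.comp p1)) p2)))
      (Poly.decide_eq (Poly.fst (gd (hs'.comp (p1.comp p1)) (p2.comp p1)))
        (Poly.fst (gd (hs'.comp (p1.comp p1)) p2)))
  · refine Poly.all (p := fun a v => decide (((s a).getD v (0, false)).2 =
      ((s' a).getD v (0, false)).2)) hI ?_
    exact Poly.decide_eq (Poly.snd (gd (hs.comp p1) p2)) (Poly.snd (gd (hs'.comp p1) p2))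

theorem poly_okB (hG : Poly G) (hX : Poly X) : Poly (fun a => okB (G a) (X a)) :=
  poly_okf (upoly_k hG) (poly_sub hG (poly_ix hG hX))

theorem poly_testB (hG : Poly G) (hU : Poly U) (hX : Poly X) (hX' : Poly X') :
    Poly (fun a => testB (G a) (U a) (X a) (X' a)) :=
  Poly.or (Poly.and (Poly.not (poly_okB hG hX)) (Poly.not (poly_okB hG hX')))
    (Poly.and (Poly.and (poly_okB hG hX) (poly_okB hG hX')) (poly_agrB (poly_endB hG hU)
      (poly_run hG (poly_starB hG hU hX)) (poly_run hG (poly_starB hG hU hX'))))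

/-- the test is computable in polynomial time -/
theorem poly_test : Poly (fun q : List (ℕ × ℕ) × List Bool × List Bool × List Bool =>
    testB q.1 q.2.1 q.2.2.1 q.2.2.2) :=
  poly_testB (Poly.fst Poly.id) (Poly.fst (Poly.snd Poly.id)) (Poly.fst (Poly.snd (Poly.snd Poly.id)))
    (Poly.snd (Poly.snd (Poly.snd Poly.id)))

end

end Pool.Agent.NPC.BC
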