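import Mathlib

set_option autoImplicit false

/-!
# Bicircular matroids are efficiently pigeonhole: the graph-theoretic definitions

A graph has the vertices `Fin n` and the edges `Fin m`; the ends of the edge `e` are `(d e).1`, `(d e).2`
(loops and parallel edges are allowed). Sets of edges are `F : Finset (Fin m)`.
-/

namespace Pool.Agent.T2h18.BC

open Finset

variable {m n : ℕ}

/-- `u` and `v` are joined by a walk with edges in `F` -/
def J (d : Fin m → Fin n × Fin n) (F : Finset (Fin m)) : Fin n → Fin n → Prop :=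
  Relation.EqvGen fun u v => ∃ e ∈ F, d e = (u, v)

open Classical in
/-- the vertices of the connected component of `v` in the graph with the edges `F` -/
noncomputable def vs (d : Fin m → Fin n × Fin n) (F : Finset (Fin m)) (v : Fin n) : Finset (Fin n) :=
  univ.filter fun w => J d F v w

open Classical in
/-- the edges of the connected component of `v` in the graph with the edges `F` -/
noncomputable def es (d : Fin m → Fin n × Fin n) (F : Finset (Fin m)) (v : Fin n) : Finset (Fin m) :=
  F.filter fun e => J d F v (d e).1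

/-- `F` is independent in the bicircular matroid: each connected component has at most as many edges
as vertices, that is, at most one cycle. -/
def Ind (d : Fin m → Fin n × Fin n) (F : Finset (Fin m)) : Prop :=
  ∀ v, (es d F v).card ≤ (vs d F v).card

/-- the connected component of `v` has at least as many edges as vertices: it contains a cycle -/
def Cyc (d : Fin m → Fin n × Fin n) (F : Finset (Fin m)) (v : Fin n) : Prop :=
  (vs d F v).card ≤ (es d F v).card

open Classical in
/-- the rank -/
noncomputable def rk (d : Fin m → Fin n × Fin n) (F : Finset (Fin m)) : ℕ :=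
  (F.powerset.filter fun Y => Ind d Y).sup Finset.card

open Classical in
/-- the number of components without cycles (isolated vertices included) -/
noncomputable def nc (d : Fin m → Fin n × Fin n) (F : Finset (Fin m)) : ℕ :=
  ((univ.filter fun v => ¬ Cyc d F v).image (vs d F)).card

/-- `f` is in no circuit of `insert f F` -/
def Col (d : Fin m → Fin n × Fin n) (F : Finset (Fin m)) (f : Fin m) : Prop :=
  ∀ Y ⊆ F.erase f, Ind d Y → Ind d (insert f Y)

open Classical in
/-- the edges which are in some circuit -/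
noncomputable def Ess (d : Fin m → Fin n × Fin n) : Finset (Fin m) :=
  univ.filter fun f => ¬ Col d univ f

open Classical in
/-- the essential part of a subset `X` of `U` -/
noncomputable def star (d : Fin m → Fin n × Fin n) (U X : Finset (Fin m)) : Finset (Fin m) :=
  X.filter fun f => f ∈ Ess d ∧ ∀ e ∈ U, Col d (univ.erase e) f → e ∈ X

/-- the ends of the edges in `F` -/
def tch (d : Fin m → Fin n × Fin n) (F : Finset (Fin m)) : Finset (Fin n) :=
  F.image (fun e => (d e).1) ∪ F.image (fun e => (d e).2)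

/-- the graphs with the edges `Y₁`, `Y₂` have the same components on `P`, and the same components with
cycles -/
def Agree (d : Fin m → Fin n × Fin n) (P : Finset (Fin n)) (Y₁ Y₂ : Finset (Fin m)) : Prop :=
  (∀ v ∈ P, ∀ w ∈ P, (J d Y₁ v w ↔ J d Y₂ v w)) ∧ ∀ v ∈ P, (Cyc d Y₁ v ↔ Cyc d Y₂ v)

/-- the component of `b` with edges in `A` is a tree with exactly two vertices in `P` -/
def Thin (d : Fin m → Fin n × Fin n) (P : Finset (Fin n)) (A : Finset (Fin m)) (b : Fin n) : Prop :=
  ¬ Cyc d A b ∧ (P ∩ vs d A b).card = 2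

open Classical in
/-- the vertices of `P` which are not thin on both sides -/
noncomputable def core (d : Fin m → Fin n × Fin n) (P : Finset (Fin n)) (A B : Finset (Fin m)) :
    Finset (Fin n) := P.filter fun b => ¬ (Thin d P A b ∧ Thin d P B b)

theorem mem_vs {d : Fin m → Fin n × Fin n} {F : Finset (Fin m)} {v w : Fin n} :
    w ∈ vs d F v ↔ J d F v w := by simp [vs]

theorem mem_es {d : Fin m → Fin n × Fin n} {F : Finset (Fin m)} {v : Fin n} {e : Fin m} :
    e ∈ es d F v ↔ e ∈ F ∧ J d F v (d e).1 := by simp [es]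

theorem mem_Ess {d : Fin m → Fin n × Fin n} {f : Fin m} : f ∈ Ess d ↔ ¬ Col d univ f := by simp [Ess]

theorem mem_star {d : Fin m → Fin n × Fin n} {U X : Finset (Fin m)} {f : Fin m} :
    f ∈ star d U X ↔ f ∈ X ∧ f ∈ Ess d ∧ ∀ e ∈ U, Col d (univ.erase e) f → e ∈ X := by simp [star]

theorem mem_tch {d : Fin m → Fin n × Fin n} {F : Finset (Fin m)} {v : Fin n} :
    v ∈ tch d F ↔ ∃ e ∈ F, (d e).1 = v ∨ (d e).2 = v := by
  simp only [tch, mem_union, mem_image]
  constructor
  · rintro (⟨e, he, h⟩ | ⟨e, he, h⟩)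
    · exact ⟨e, he, Or.inl h⟩
    · exact ⟨e, he, Or.inr h⟩
  · rintro ⟨e, he, h | h⟩
    · exact Or.inl ⟨e, he, h⟩
    · exact Or.inr ⟨e, he, h⟩

theorem mem_core {d : Fin m → Fin n × Fin n} {P : Finset (Fin n)} {A B : Finset (Fin m)} {b : Fin n} :
    b ∈ core d P A B ↔ b ∈ P ∧ ¬ (Thin d P A b ∧ Thin d P B b) := by simp [core]

theorem J.refl {d : Fin m → Fin n × Fin n} {F : Finset (Fin m)} (v : Fin n) : J d F v v :=
  Relation.EqvGen.refl v

theorem J.symm {d : Fin m → Fin n × Fin n} {F : Finset (Fin m)} {u v : Fin n} (h : J d F u v) :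
    J d F v u := Relation.EqvGen.symm _ _ h

theorem J.trans {d : Fin m → Fin n × Fin n} {F : Finset (Fin m)} {u v w : Fin n} (h : J d F u v)
    (h' : J d F v w) : J d F u w := Relation.EqvGen.trans _ _ _ h h'

theorem J.edge {d : Fin m → Fin n × Fin n} {F : Finset (Fin m)} {e : Fin m} (he : e ∈ F) :
    J d F (d e).1 (d e).2 := Relation.EqvGen.rel _ _ ⟨e, he, rfl⟩

theorem J.mono {d : Fin m → Fin n × Fin n} {F F' : Finset (Fin m)} (h : F ⊆ F') {u v : Fin n}
    (hJ : J d F u v) : J d F' u v := by
  induction hJ with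
  | rel a b h' => obtain ⟨e, he, h1⟩ := h'; exact Relation.EqvGen.rel _ _ ⟨e, h he, h1⟩
  | refl a => exact J.refl a
  | symm a b _ ih => exact ih.symm
  | trans a b c _ _ ih1 ih2 => exact ih1.trans ih2

/-- a set of vertices which is closed under the edges of `F` contains the components of its elements -/
theorem J.closed {d : Fin m → Fin n × Fin n} {F : Finset (Fin m)} {S : Set (Fin n)}
    (hS : ∀ e ∈ F, ((d e).1 ∈ S ↔ (d e).2 ∈ S)) {u v : Fin n} (h : J d F u v) : u ∈ S ↔ v ∈ S := by
  induction h with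
  | rel a b h' =>
    obtain ⟨e, he, h1⟩ := h'
    have := hS e he
    rw [h1] at this
    exact this
  | refl a => exact Iff.rfl
  | symm a b _ ih => exact ih.symm
  | trans a b c _ _ ih1 ih2 => exact ih1.trans ih2

theorem vs_eq_of_J {d : Fin m → Fin n × Fin n} {F : Finset (Fin m)} {u v : Fin n} (h : J d F u v) :
    vs d F u = vs d F v := by
  ext w
  rw [mem_vs, mem_vs]
  exact ⟨fun h' => h.symm.trans h', fun h' => h.trans h'⟩

theorem es_eq_of_J {d : Fin m → Fin n × Fin n} {F : Finset (Fin m)} {u v : Fin n} (h : J d F u v) :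
    es d F u = es d F v := by
  ext w
  rw [mem_es, mem_es]
  exact ⟨fun h' => ⟨h'.1, h.symm.trans h'.2⟩, fun h' => ⟨h'.1, h.trans h'.2⟩⟩

theorem Cyc.congr {d : Fin m → Fin n × Fin n} {F : Finset (Fin m)} {u v : Fin n} (h : J d F u v) :
    Cyc d F u ↔ Cyc d F v := by
  unfold Cyc
  rw [vs_eq_of_J h, es_eq_of_J h]

/-- an isolated vertex -/
theorem J_of_not_tch {d : Fin m → Fin n × Fin n} {F : Finset (Fin m)} {u v : Fin n}
    (hu : u ∉ tch d F) (h : J d F u v) : v = u := by
  have := J.closed (S := {u}) (F := F) (d := d) (fun e he => by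
    have h1 : (d e).1 ≠ u := fun h => hu (mem_tch.2 ⟨e, he, Or.inl h⟩)
    have h2 : (d e).2 ≠ u := fun h => hu (mem_tch.2 ⟨e, he, Or.inr h⟩)
    simp [h1, h2]) h
  exact this.1 rfl

/-- The basic facts; `t_BAS` proves them for all graphs. -/
structure Bas (d : Fin m → Fin n × Fin n) : Prop where
  J_insert : ∀ (F : Finset (Fin m)) (f : Fin m) (u v : Fin n), J d (insert f F) u v ↔
    J d F u v ∨ (J d F u (d f).1 ∧ J d F (d f).2 v) ∨ (J d F u (d f).2 ∧ J d F (d f).1 v)
  /-- a connected graph with `k` vertices has at least `k - 1` edges -/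
  card_le : ∀ (F : Finset (Fin m)) (v : Fin n), (vs d F v).card ≤ (es d F v).card + 1
  cyc_mono : ∀ (Y F : Finset (Fin m)), Y ⊆ F → ∀ v, Cyc d Y v → Cyc d F v
  ind_mono : ∀ (Y F : Finset (Fin m)), Y ⊆ F → Ind d F → Ind d Y
  ind_empty : Ind d ∅
  not_cyc_empty : ∀ v, ¬ Cyc d ∅ v
  ind_insert : ∀ (F : Finset (Fin m)) (f : Fin m), f ∉ F →
    (Ind d (insert f F) ↔ Ind d F ∧ ¬ (Cyc d F (d f).1 ∧ Cyc d F (d f).2))
  /-- the components of the ends of `f` have a cycle after the insertion of `f` if they had one before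
  or if they were equal; the other components do not change -/
  cyc_insert : ∀ (F : Finset (Fin m)) (f : Fin m), f ∉ F → ∀ v,
    (Cyc d (insert f F) v ↔ ((J d F v (d f).1 ∨ J d F v (d f).2) ∧
        (J d F (d f).1 (d f).2 ∨ Cyc d F (d f).1 ∨ Cyc d F (d f).2)) ∨
      (¬ J d F v (d f).1 ∧ ¬ J d F v (d f).2 ∧ Cyc d F v))
  /-- an edge of a tree is a bridge -/
  bridge : ∀ (F : Finset (Fin m)) (f : Fin m), f ∈ F → ¬ Cyc d F (d f).1 →
    ¬ J d (F.erase f) (d f).1 (d f).2 ∧ ¬ Cyc d (F.erase f) (d f).1 ∧ ¬ Cyc d (F.erase f) (d f).2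

end Pool.Agent.T2h18.BC
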