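import Pool.Agent.T2h18.BC.Defs

set_option autoImplicit false

/-!
# The literal definition of the independent sets of a bicircular matroid
-/

namespace Pool.Agent.T2h18.BC

open Finset

variable {m n : ℕ}

/-- `F` is a forest: the ends of an edge of `F` are not joined by the other edges of `F`. -/
def Forest (d : Fin m → Fin n × Fin n) (F : Finset (Fin m)) : Prop :=
  ∀ e ∈ F, ¬ J d (F.erase e) (d e).1 (d e).2

/-- A cycle: a minimal set of edges which is not a forest (a loop is a cycle, two parallel edges form a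
cycle). -/
def IsCycle (d : Fin m → Fin n × Fin n) (C : Finset (Fin m)) : Prop :=
  ¬ Forest d C ∧ ∀ e ∈ C, Forest d (C.erase e)

/-- Independence in the bicircular matroid: each connected component of the subgraph formed by `F`
contains at most one cycle, that is, two cycles in `F` with edges in the same component of `F` are equal. -/
def Indep (d : Fin m → Fin n × Fin n) (F : Finset (Fin m)) : Prop :=
  ∀ C C' : Finset (Fin m), C ⊆ F → C' ⊆ F → IsCycle d C → IsCycle d C' →
    ∀ e ∈ C, ∀ e' ∈ C', J d F (d e).1 (d e').1 → C = C'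

variable {d : Fin m → Fin n × Fin n}

theorem Forest.mono {F F' : Finset (Fin m)} (h : F' ⊆ F) (hF : Forest d F) : Forest d F' :=
  fun e he hJ => hF e (h he) (hJ.mono (Finset.erase_subset_erase e h))

theorem J_es {F : Finset (Fin m)} {u v : Fin n} (h : J d F u v) : J d (es d F u) u v := by
  have hcl := J.closed (d := d) (F := F) (S := {w | J d (es d F u) u w}) (u := u) (v := v) (by
    intro e he
    have hsub : es d F u ⊆ F := fun g hg => (mem_es.1 hg).1
    constructor
    · intro h1
      exact J.trans h1 (J.edge (mem_es.2 ⟨he, J.mono hsub h1⟩))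
    · intro h1
      have h2 : e ∈ es d F u := mem_es.2 ⟨he, (J.mono hsub h1).trans (J.edge he).symm⟩
      exact J.trans h1 (J.edge h2).symm) h
  exact hcl.1 (J.refl u)

/-- each edge of a cycle has its ends joined by the others -/
theorem IsCycle.edge (hb : Bas d) {C : Finset (Fin m)} (hC : IsCycle d C) {e : Fin m} (he : e ∈ C) :
    J d (C.erase e) (d e).1 (d e).2 := by
  by_contra hn
  have h1 := hC.1
  unfold Forest at h1
  push Not at h1
  obtain ⟨e₀, he₀, hJ⟩ := h1
  have hne : e₀ ≠ e := by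
    rintro rfl
    exact hn hJ
  have he₀' : e₀ ∈ C.erase e := mem_erase.2 ⟨hne, he₀⟩
  have e1 : insert e ((C.erase e₀).erase e) = C.erase e₀ :=
    insert_erase (mem_erase.2 ⟨hne.symm, he⟩)
  have e2 : (C.erase e₀).erase e = (C.erase e).erase e₀ := Finset.erase_right_comm
  have hsub : (C.erase e₀).erase e ⊆ C.erase e := by rw [e2]; exact erase_subset _ _
  have hf := hC.2 e he e₀ he₀'
  rw [← e2] at hf
  rw [← e1] at hJ
  rcases (hb.J_insert _ _ _ _).1 hJ with h | ⟨h, h'⟩ | ⟨h, h'⟩
  · exact hf h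
  · exact hn (((h.mono hsub).symm.trans (J.edge he₀')).trans (h'.mono hsub).symm)
  · exact hn (((h'.mono hsub).trans (J.edge he₀').symm).trans (h.mono hsub))

/-- a cycle is connected -/
theorem IsCycle.conn (hb : Bas d) {C : Finset (Fin m)} (hC : IsCycle d C) {e e' : Fin m} (he : e ∈ C)
    (he' : e' ∈ C) : J d C (d e).1 (d e').1 := by
  by_contra hn
  have h1 : es d C (d e).1 ⊆ C.erase e' := by
    intro g hg
    obtain ⟨hg1, hg2⟩ := mem_es.1 hg
    refine mem_erase.2 ⟨?_, hg1⟩
    rintro rfl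
    exact hn hg2
  have h2 : Forest d (es d C (d e).1) := (hC.2 e' he').mono h1
  refine h2 e (mem_es.2 ⟨he, J.refl _⟩) ?_
  refine (J_es (hC.edge hb he)).mono ?_
  intro g hg
  obtain ⟨hg1, hg2⟩ := mem_es.1 hg
  exact mem_erase.2 ⟨(mem_erase.1 hg1).1, mem_es.2 ⟨(mem_erase.1 hg1).2, hg2.mono (erase_subset _ _)⟩⟩

theorem IsCycle.cyc (hb : Bas d) {C F : Finset (Fin m)} (hC : IsCycle d C) (hCF : C ⊆ F) {e : Fin m}
    (he : e ∈ C) : Cyc d F (d e).1 := by
  have e1 : insert e (F.erase e) = F := insert_erase (hCF he)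
  rw [← e1, hb.cyc_insert _ _ (notMem_erase e F)]
  exact Or.inl ⟨Or.inl (J.refl _), Or.inl ((hC.edge hb he).mono (erase_subset_erase e hCF))⟩

/-- an edge whose ends are joined by other edges is in a cycle -/
theorem exists_cycle (hb : Bas d) {F : Finset (Fin m)} {f : Fin m} (hf : f ∉ F)
    (hJ : J d F (d f).1 (d f).2) : ∃ C ⊆ insert f F, f ∈ C ∧ IsCycle d C := by
  classical
  obtain ⟨P, hP, hmin⟩ := Finset.exists_min_image
    (F.powerset.filter fun P => J d P (d f).1 (d f).2) Finset.card
    ⟨F, mem_filter.2 ⟨mem_powerset_self F, hJ⟩⟩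
  obtain ⟨hPF, hPJ⟩ := mem_filter.1 hP
  rw [mem_powerset] at hPF
  have hm : ∀ e ∈ P, ¬ J d (P.erase e) (d f).1 (d f).2 := by
    intro e he h
    have h1 := hmin (P.erase e) (mem_filter.2 ⟨mem_powerset.2 ((erase_subset _ _).trans hPF), h⟩)
    have h2 := card_erase_lt_of_mem he
    omega
  have hfP : f ∉ P := fun h => hf (hPF h)
  -- an edge of `P` is not joined by the others
  have hb1 : ∀ g ∈ P, ¬ J d (P.erase g) (d g).1 (d g).2 := by
    intro g hg h
    refine hm g hg ?_
    rw [← insert_erase hg] at hPJ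
    rcases (hb.J_insert _ _ _ _).1 hPJ with h1 | ⟨h1, h2⟩ | ⟨h1, h2⟩
    · exact h1
    · exact (h1.trans h).trans h2
    · exact (h1.trans h.symm).trans h2
  refine ⟨insert f P, insert_subset_insert f hPF, mem_insert_self f P, ?_, ?_⟩
  · intro hfor
    refine hfor f (mem_insert_self f P) ?_
    rw [erase_insert hfP]
    exact hPJ
  · intro e he g hg hJg
    rw [mem_erase, mem_insert] at hg
    obtain ⟨hge, hg⟩ := hg
    rcases mem_insert.1 he with rfl | heP
    · -- `e = f`
      rw [erase_insert hfP] at hJg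
      rcases hg with rfl | hg
      · exact hge rfl
      · exact hb1 g hg hJg
    · have hef : e ≠ f := fun h => hfP (h ▸ heP)
      rcases hg with rfl | hg
      · -- `g = f`
        refine hm e heP (hJg.mono ?_)
        intro z hz
        rw [mem_erase, mem_erase, mem_insert] at hz
        obtain ⟨h1, h2, h3⟩ := hz
        exact mem_erase.2 ⟨h2, h3.resolve_left h1⟩
      · have hgf : g ≠ f := fun h => hfP (h ▸ hg)
        have hgP : g ∈ P.erase e := mem_erase.2 ⟨hge, hg⟩
        have e1 : ((insert f P).erase e).erase g = insert f ((P.erase e).erase g) := by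
          ext z
          simp only [mem_erase, mem_insert]
          constructor
          · rintro ⟨h1, h2, h3⟩
            rcases h3 with h3 | h3
            · exact Or.inl h3
            · exact Or.inr ⟨h1, h2, h3⟩
          · rintro (h | ⟨h1, h2, h3⟩)
            · subst h
              exact ⟨hgf.symm, hef.symm, Or.inl rfl⟩
            · exact ⟨h1, h2, Or.inr h3⟩
        rw [e1] at hJg
        have s1 : (P.erase e).erase g ⊆ P.erase g := erase_subset_erase g (erase_subset _ _)
        have s2 : (P.erase e).erase g ⊆ P.erase e := erase_subset _ _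
        rcases (hb.J_insert _ _ _ _).1 hJg with h1 | ⟨h1, h2⟩ | ⟨h1, h2⟩
        · exact hb1 g hg (h1.mono s1)
        · exact hm e heP (((h1.mono s2).symm.trans (J.edge hgP)).trans (h2.mono s2).symm)
        · exact hm e heP (((h2.mono s2).trans (J.edge hgP).symm).trans (h1.mono s2))

theorem cyc_has_cycle (hb : Bas d) (F : Finset (Fin m)) : ∀ v, Cyc d F v →
    ∃ C ⊆ F, IsCycle d C ∧ ∃ e ∈ C, J d F v (d e).1 := by
  induction F using Finset.induction_on with
  | empty => exact fun v h => absurd h (hb.not_cyc_empty v)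
  | insert g F hg ih =>
    intro v hv
    have hs : F ⊆ insert g F := subset_insert g F
    have hge : J d (insert g F) (d g).1 (d g).2 := J.edge (mem_insert_self g F)
    rcases (hb.cyc_insert F g hg v).1 hv with ⟨h1, h2⟩ | ⟨-, -, h3⟩
    · have hv1 : J d (insert g F) v (d g).1 := by
        rcases h1 with h1 | h1
        · exact h1.mono hs
        · exact (h1.mono hs).trans hge.symm
      rcases h2 with h2 | h2 | h2
      · obtain ⟨C, hC, hgC, hcyc⟩ := exists_cycle hb hg h2
        exact ⟨C, hC, hcyc, g, hgC, hv1⟩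
      · obtain ⟨C, hC, hcyc, e, he, hJ⟩ := ih _ h2
        exact ⟨C, hC.trans hs, hcyc, e, he, hv1.trans (hJ.mono hs)⟩
      · obtain ⟨C, hC, hcyc, e, he, hJ⟩ := ih _ h2
        exact ⟨C, hC.trans hs, hcyc, e, he, (hv1.trans hge).trans (hJ.mono hs)⟩
    · obtain ⟨C, hC, hcyc, e, he, hJ⟩ := ih _ h3
      exact ⟨C, hC.trans hs, hcyc, e, he, hJ.mono hs⟩

theorem Indep.ind (hb : Bas d) (F : Finset (Fin m)) : Indep d F → Ind d F := by
  induction F using Finset.induction_on with
  | empty => exact fun _ => hb.ind_empty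
  | insert f F hf ih =>
    intro hI
    have hs : F ⊆ insert f F := subset_insert f F
    have hfe : J d (insert f F) (d f).1 (d f).2 := J.edge (mem_insert_self f F)
    rw [hb.ind_insert F f hf]
    refine ⟨ih fun C C' hC hC' h1 h2 e he e' he' hJ =>
      hI C C' (hC.trans hs) (hC'.trans hs) h1 h2 e he e' he' (hJ.mono hs), ?_⟩
    rintro ⟨h1, h2⟩
    obtain ⟨C₁, hC₁, hc₁, e₁, he₁, hJ₁⟩ := cyc_has_cycle hb F _ h1
    obtain ⟨C₂, hC₂, hc₂, e₂, he₂, hJ₂⟩ := cyc_has_cycle hb F _ h2
    by_cases hJ : J d F (d f).1 (d f).2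
    · obtain ⟨C, hC, hfC, hc⟩ := exists_cycle hb hf hJ
      have h3 := hI C C₁ hC (hC₁.trans hs) hc hc₁ f hfC e₁ he₁ (hJ₁.mono hs)
      rw [h3] at hfC
      exact hf (hC₁ hfC)
    · have h3 := hI C₁ C₂ (hC₁.trans hs) (hC₂.trans hs) hc₁ hc₂ e₁ he₁ e₂ he₂
        (((hJ₁.mono hs).symm.trans hfe).trans (hJ₂.mono hs))
      subst h3
      exact hJ ((hJ₁.trans ((hc₁.conn hb he₁ he₂).mono hC₁)).trans hJ₂.symm)

theorem Ind.indep (hb : Bas d) {F : Finset (Fin m)} (hI : Ind d F) : Indep d F := by
  have key : ∀ C C' : Finset (Fin m), C ⊆ F → C' ⊆ F → IsCycle d C → IsCycle d C' →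
      ∀ e ∈ C, ∀ e' ∈ C', J d F (d e).1 (d e').1 → C ⊆ C' := by
    intro C C' hC hC' hc hc' e₀ he₀ e₀' he₀' hJ e he
    by_contra hn
    have hCe : C' ⊆ F.erase e := fun g hg => mem_erase.2 ⟨fun h => hn (h ▸ hg), hC' hg⟩
    have hxy : J d (F.erase e) (d e).1 (d e).2 := (hc.edge hb he).mono (erase_subset_erase e hC)
    have h1 : J d F (d e).1 (d e₀').1 := ((hc.conn hb he he₀).mono hC).trans hJ
    have e1 : insert e (F.erase e) = F := insert_erase (hC he)
    have h2 : J d (F.erase e) (d e).1 (d e₀').1 := by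
      rw [← e1] at h1
      rcases (hb.J_insert _ _ _ _).1 h1 with h | ⟨-, h⟩ | ⟨-, h⟩
      · exact h
      · exact hxy.trans h
      · exact h
    have h3 : Cyc d (F.erase e) (d e).1 := (Cyc.congr h2).2 (hc'.cyc hb hCe he₀')
    have h4 : Cyc d (F.erase e) (d e).2 := (Cyc.congr hxy).1 h3
    rw [← e1, hb.ind_insert _ _ (notMem_erase e F)] at hI
    exact hI.2 ⟨h3, h4⟩
  intro C C' hC hC' hc hc' e he e' he' hJ
  exact Subset.antisymm (key C C' hC hC' hc hc' e he e' he' hJ)
    (key C' C hC' hC hc' hc e' he' e he hJ.symm)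

theorem indep_iff (hb : Bas d) (F : Finset (Fin m)) : Indep d F ↔ Ind d F :=
  ⟨Indep.ind hb F, Ind.indep hb⟩

end Pool.Agent.T2h18.BC
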