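import Pool.Agent.T2h18.BC.Defs
import Pool.Agent.H633R2.FptDefs

set_option autoImplicit false

/-!
# Succinct representations and efficiently pigeonhole classes of matroids

A class of matroids is given by a type `S` of indices; the matroid with the index `s` has the ground set
`Fin (E s)` and the independent sets `I s`, and it is represented by the (code of the) data `Δ s`.
-/

namespace Pool.Agent.T2h18.BC

open Turing Pool.Agent.NPC Pool.Agent.H633R2 Finset

/-- a subset of the ground set as a list of bits -/
def mask {m : ℕ} (X : Finset (Fin m)) : List Bool := List.ofFn fun e => decide (e ∈ X)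

open Classical in
/-- the rank of `F` in the matroid with the independent sets `I` -/
noncomputable def rank {m : ℕ} (I : Finset (Fin m) → Prop) (F : Finset (Fin m)) : ℕ :=
  (F.powerset.filter fun Y => I Y).sup Finset.card

/-- `X ∼_U X'`: for all `Z ⊆ E - U`, `X ∪ Z` is independent iff `X' ∪ Z` is independent -/
def Sim {m : ℕ} (I : Finset (Fin m) → Prop) (U X X' : Finset (Fin m)) : Prop :=
  ∀ Z ⊆ Uᶜ, (I (X ∪ Z) ↔ I (X' ∪ Z))

/-- `λ(U) ≤ l`, that is `r(U) + r(E - U) - r(E) ≤ l` -/
def ConnLe {m : ℕ} (I : Finset (Fin m) → Prop) (U : Finset (Fin m)) (l : ℕ) : Prop :=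
  rank I U + rank I Uᶜ ≤ l + rank I univ

/-- `Δ` is a succinct representation: some Turing machine decides, given the code of `Δ s` and `X`, whether
`X` is independent, in time polynomial in the size of the ground set. -/
def Succinct {S D : Type} [TEnc D] (E : S → ℕ) (I : ∀ s, Finset (Fin (E s)) → Prop) (Δ : S → D) : Prop :=
  ∃ (M : TM2ComputableAux Bool Bool) (p : Polynomial ℕ), ∀ (s : S) (X : Finset (Fin (E s))),
    ∃ b : Bool, (b = true ↔ I s X) ∧ TmRuns M (bits (Δ s, mask X)) (bits b) (p.eval (E s))

/-- The class is efficiently pigeonhole relative to `Δ`: there are constants `c`, `K`, and for each `l`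
a number `N l` and a Turing machine `M l`, such that for each matroid of the class and each `U` with
`λ(U) ≤ l` there is an equivalence relation `R` on the subsets of `U` which implies `∼_U`, which has at most
`N l` classes, and such that `M l`, given the codes of the matroid, `U`, `X` and `X'`, decides whether
`R X X'` in at most `K * N l * (|E| + 1) ^ c` steps. -/
def EfficientlyPigeonhole {S D : Type} [TEnc D] (E : S → ℕ) (I : ∀ s, Finset (Fin (E s)) → Prop)
    (Δ : S → D) : Prop :=
  ∃ (c K : ℕ) (N : ℕ → ℕ) (M : ℕ → TM2ComputableAux Bool Bool), ∀ (l : ℕ) (s : S)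
    (U : Finset (Fin (E s))), ConnLe (I s) U l →
    ∃ R : Finset (Fin (E s)) → Finset (Fin (E s)) → Prop,
      ((∀ X ⊆ U, R X X) ∧ (∀ X ⊆ U, ∀ X' ⊆ U, R X X' → R X' X) ∧
        ∀ X ⊆ U, ∀ X' ⊆ U, ∀ X'' ⊆ U, R X X' → R X' X'' → R X X'') ∧
      (∀ X ⊆ U, ∀ X' ⊆ U, R X X' → Sim (I s) U X X') ∧
      (∃ cls : Finset (Fin (E s)) → Fin (N l), ∀ X ⊆ U, ∀ X' ⊆ U, cls X = cls X' → R X X') ∧
      ∀ X ⊆ U, ∀ X' ⊆ U, ∃ b : Bool, (b = true ↔ R X X') ∧
        TmRuns (M l) (bits (Δ s, mask U, mask X, mask X')) (bits b) (K * N l * (E s + 1) ^ c)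

/-- A graph with `m` edges; its vertices which are ends of edges are named by numbers less than `2 m`. -/
structure Graph where
  /-- the number of edges -/
  m : ℕ
  /-- the ends of the edges -/
  ends : Fin m → Fin (2 * m) × Fin (2 * m)

/-- the representation of the bicircular matroid of a graph by the graph, the list of the ends of the
edges -/
def Graph.list (G : Graph) : List (ℕ × ℕ) :=
  List.ofFn fun e => (((G.ends e).1 : ℕ), ((G.ends e).2 : ℕ))

end Pool.Agent.T2h18.BC
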