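import Pool.Agent.T2h18.BC.Alg
import Pool.Agent.T2h18.BC.Pig

set_option autoImplicit false

/-!
# Bicircular matroids are efficiently pigeonhole: assembly
-/

namespace Pool.Agent.T2h18.BC

open Turing Pool.Agent.NPC Pool.Agent.H633R2 Finset

/-! ### Lists and sets -/

section

variable {m : ℕ} (d : Fin m → Fin (2 * m) × Fin (2 * m))

/-- the list of the ends -/
def gl : List (ℕ × ℕ) := List.ofFn fun e => (((d e).1 : ℕ), ((d e).2 : ℕ))

theorem gl_length : (gl d).length = m := by simp [gl]

theorem gl_getD (e : Fin m) : (gl d).getD (e : ℕ) (0, 0) = (((d e).1 : ℕ), ((d e).2 : ℕ)) := by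
  rw [List.getD_eq_getElem _ _ (by rw [gl_length]; exact e.2)]
  simp [gl]

theorem mask_getD (X : Finset (Fin m)) (e : Fin m) : (mask X).getD (e : ℕ) false = decide (e ∈ X) := by
  rw [List.getD_eq_getElem _ _ (by simp [mask])]
  simp [mask]

/-- the set with the predicate `p` -/
def fs (p : ℕ → Bool) : Finset (Fin m) := univ.filter fun e => p e = true

theorem mem_fs {p : ℕ → Bool} {e : Fin m} : e ∈ fs (m := m) p ↔ p e = true := by simp [fs]

/-- the list with the predicate `p` -/
def lf (m : ℕ) (p : ℕ → Bool) : List (Fin m) := (List.finRange m).filter fun e => p e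

theorem lf_nodup (p : ℕ → Bool) : (lf m p).Nodup := (List.nodup_finRange m).filter _

theorem lf_toFinset (p : ℕ → Bool) : (lf m p).toFinset = fs p := by
  ext e
  simp [lf, fs]

theorem range_filter (p : ℕ → Bool) :
    (List.range m).filter p = (lf m p).map fun e : Fin m => (e : ℕ) := by
  rw [← List.map_coe_finRange_eq_range, List.filter_map]
  rfl

theorem sub_filter (p : ℕ → Bool) : sub (gl d) ((List.range m).filter p) =
    (lf m p).map fun e => (((d e).1 : ℕ), ((d e).2 : ℕ)) := by
  unfold sub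
  rw [range_filter, List.map_map]
  refine List.map_congr_left fun e _ => ?_
  exact gl_getD d e

end

section

variable (hU : S_UFS) {m : ℕ} {d : Fin m → Fin (2 * m) × Fin (2 * m)} (hb : Bas d)

include hU hb

theorem run_lab (p : ℕ → Bool) (u v : Fin (2 * m)) :
    (((run (gl d) ((List.range m).filter p)).getD u (0, false)).1 =
      ((run (gl d) ((List.range m).filter p)).getD v (0, false)).1) ↔ J d (fs p) u v := by
  have h := (hU m (2 * m) d hb (lf m p) (lf_nodup p)).1 u v
  rw [lf_toFinset] at h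
  unfold run
  rw [gl_length, sub_filter]
  exact h

theorem run_cyc (p : ℕ → Bool) (v : Fin (2 * m)) :
    cyB (gl d) ((List.range m).filter p) v = true ↔ Cyc d (fs p) v := by
  have h := (hU m (2 * m) d hb (lf m p) (lf_nodup p)).2.1 v
  rw [lf_toFinset] at h
  unfold cyB run
  rw [gl_length, sub_filter]
  exact h

theorem run_ok (p : ℕ → Bool) :
    okf (2 * (gl d).length) (sub (gl d) ((List.range m).filter p)) = true ↔ Ind d (fs p) := by
  have h := (hU m (2 * m) d hb (lf m p) (lf_nodup p)).2.2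
  rw [lf_toFinset] at h
  rw [gl_length, sub_filter]
  exact h

variable (hG : S_GRE) (hC : S_COL)

include hG hC

theorem run_col (p : ℕ → Bool) (f : Fin m) :
    colB (gl d) ((List.range m).filter p) f = true ↔ Col d (fs p) f := by
  rw [hC hG m (2 * m) d hb]
  have e1 : del ((List.range m).filter p) f = (List.range m).filter fun i => p i && !decide (i = f) := by
    unfold del
    rw [List.filter_filter]
    congr 1
    funext i
    rw [Bool.and_comm]
  have e2 : fs (m := m) (fun i => p i && !decide (i = f)) = (fs p).erase f := by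
    ext e
    rw [mem_fs, mem_erase, mem_fs]
    simp only [Bool.and_eq_true, Bool.not_eq_true', decide_eq_false_iff_not]
    constructor
    · rintro ⟨h1, h2⟩
      exact ⟨fun h => h2 (by rw [h]), h1⟩
    · rintro ⟨h1, h2⟩
      exact ⟨h2, fun h => h1 (Fin.ext h)⟩
  have h1 := run_cyc hU hb (fun i => p i && !decide (i = f)) (d f).1
  have h2 := run_cyc hU hb (fun i => p i && !decide (i = f)) (d f).2
  rw [e2, ← e1] at h1 h2
  unfold colB
  rw [gl_getD, ← h1, ← h2]
  simp only
  cases cyB (gl d) (del ((List.range m).filter p) f) (d f).1 <;>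
    cases cyB (gl d) (del ((List.range m).filter p) f) (d f).2 <;> simp

theorem run_ess (f : Fin m) : essB (gl d) f = true ↔ f ∈ Ess d := by
  have h := run_col hU hb hG hC (fun _ => true) f
  have e1 : (List.range m).filter (fun _ => true) = List.range m := List.filter_true _
  have e2 : fs (m := m) (fun _ => true) = univ := by ext e; simp [fs]
  rw [e1, e2] at h
  unfold essB
  rw [gl_length, mem_Ess, ← h]
  cases colB (gl d) (List.range m) f <;> simp

theorem run_star (U X : Finset (Fin m)) : ∃ p : ℕ → Bool,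
    starB (gl d) (mask U) (mask X) = (List.range m).filter p ∧ fs p = star d U X := by
  refine ⟨fun f => (mask X).getD f false && (essB (gl d) f && (ix (gl d) (mask U)).all fun e =>
    !(colB (gl d) (del (List.range (gl d).length) e) f) || (mask X).getD e false), ?_, ?_⟩
  · have e1 : ix (gl d) (mask X) = (List.range m).filter fun i => (mask X).getD i false := by
      rw [ix, gl_length]
    unfold starB
    rw [e1, List.filter_filter]
    congr 1
    funext i
    rw [Bool.and_comm]
  · ext f
    rw [mem_fs, mem_star, Bool.and_eq_true, Bool.and_eq_true, mask_getD, decide_eq_true_iff,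
      run_ess hU hb hG hC, List.all_eq_true]
    refine and_congr_right fun _ => and_congr_right fun _ => ?_
    have key : ∀ e : Fin m, colB (gl d) (del (List.range (gl d).length) e) f = true ↔
        Col d (univ.erase e) f := by
      intro e
      have h := run_col hU hb hG hC (fun i => !decide (i = e)) f
      have e1 : fs (m := m) (fun i => !decide (i = (e : ℕ))) = univ.erase e := by
        ext e'
        rw [mem_fs, mem_erase]
        simp [Fin.ext_iff]
      rw [e1] at h
      rw [gl_length]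
      exact h
    constructor
    · intro h e he hcol
      have h1 := h (e : ℕ) (by
        rw [ix, List.mem_filter, List.mem_range, gl_length, mask_getD]
        exact ⟨e.2, by simp [he]⟩)
      rw [(key e).2 hcol, mask_getD] at h1
      simpa using h1
    · intro h e he
      rw [ix, List.mem_filter, List.mem_range, gl_length] at he
      obtain ⟨he1, he2⟩ := he
      have he3 : (⟨e, he1⟩ : Fin m) ∈ U := by
        have := mask_getD U ⟨e, he1⟩
        simp only at this
        rw [he2] at this
        simpa using this.symm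
      by_cases hcol : Col d (univ.erase ⟨e, he1⟩) f
      · have h1 := h _ he3 hcol
        have h2 := mask_getD X ⟨e, he1⟩
        simp only at h2
        rw [h2]
        simp [h1]
      · have h1 : colB (gl d) (del (List.range (gl d).length) e) f = false := by
          rw [← Bool.not_eq_true]
          exact fun h => hcol ((key ⟨e, he1⟩).1 h)
        rw [h1]
        simp

theorem run_end (U : Finset (Fin m)) (v : ℕ) :
    v ∈ endB (gl d) (mask U) ↔ ∃ w : Fin (2 * m), (w : ℕ) = v ∧ w ∈ tch d (Uᶜ ∩ Ess d) := by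
  have h1 : outB (gl d) (mask U) = (List.range m).filter
      (fun e => !((mask U).getD e false) && essB (gl d) e) := by
    rw [outB, gl_length]
  have h2 : (lf m fun e => !((mask U).getD e false) && essB (gl d) e).toFinset = Uᶜ ∩ Ess d := by
    rw [lf_toFinset]
    ext e
    rw [mem_fs, mem_inter, mem_compl, Bool.and_eq_true, run_ess hU hb hG hC, mask_getD]
    simp
  unfold endB
  rw [h1, sub_filter, List.map_map, List.map_map, List.mem_append, List.mem_map, List.mem_map]
  constructor
  · rintro (⟨e, he, h⟩ | ⟨e, he, h⟩)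
    · refine ⟨(d e).1, h, mem_tch.2 ⟨e, ?_, Or.inl rfl⟩⟩
      rw [← h2]
      exact List.mem_toFinset.2 he
    · refine ⟨(d e).2, h, mem_tch.2 ⟨e, ?_, Or.inr rfl⟩⟩
      rw [← h2]
      exact List.mem_toFinset.2 he
  · rintro ⟨w, rfl, hw⟩
    obtain ⟨e, he, h⟩ := mem_tch.1 hw
    rw [← h2] at he
    rcases h with rfl | rfl
    · exact Or.inl ⟨e, List.mem_toFinset.1 he, rfl⟩
    · exact Or.inr ⟨e, List.mem_toFinset.1 he, rfl⟩

/-- the relation which is computed -/
def Rel (d : Fin m → Fin (2 * m) × Fin (2 * m)) (U X X' : Finset (Fin m)) : Prop :=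
  (¬ Ind d X ∧ ¬ Ind d X') ∨ (Ind d X ∧ Ind d X' ∧
    Agree d (tch d (Uᶜ ∩ Ess d)) (star d U X) (star d U X'))

theorem run_okB (X : Finset (Fin m)) : okB (gl d) (mask X) = true ↔ Ind d X := by
  unfold okB
  rw [ix, gl_length]
  have h := run_ok hU hb fun i => (mask X).getD i false
  have e1 : fs (m := m) (fun i => (mask X).getD i false) = X := by
    ext e
    rw [mem_fs, mask_getD, decide_eq_true_iff]
  rw [e1, gl_length] at h
  exact h

theorem run_test (U X X' : Finset (Fin m)) :
    testB (gl d) (mask U) (mask X) (mask X') = true ↔ Rel d U X X' := by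
  obtain ⟨p, hp, hp'⟩ := run_star hU hb hG hC U X
  obtain ⟨q, hq, hq'⟩ := run_star hU hb hG hC U X'
  have hok := run_okB hU hb hG hC X
  have hok' := run_okB hU hb hG hC X'
  have hlab := run_lab hU hb p
  have hlab' := run_lab hU hb q
  have hcyc := run_cyc hU hb p
  have hcyc' := run_cyc hU hb q
  rw [hp', ← hp] at hlab hcyc
  rw [hq', ← hq] at hlab' hcyc'
  unfold cyB at hcyc hcyc'
  have hagr : agrB (endB (gl d) (mask U)) (run (gl d) (starB (gl d) (mask U) (mask X)))
      (run (gl d) (starB (gl d) (mask U) (mask X'))) = true ↔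
      Agree d (tch d (Uᶜ ∩ Ess d)) (star d U X) (star d U X') := by
    unfold agrB Agree
    rw [Bool.and_eq_true, List.all_eq_true, List.all_eq_true]
    refine and_congr ?_ ?_
    · constructor
      · intro h v hv w hw
        have h1 := h (v : ℕ) ((run_end hU hb hG hC U _).2 ⟨v, rfl, hv⟩)
        rw [List.all_eq_true] at h1
        have h2 := h1 (w : ℕ) ((run_end hU hb hG hC U _).2 ⟨w, rfl, hw⟩)
        rw [decide_eq_true_iff, decide_eq_decide] at h2
        rw [← hlab, ← hlab']
        exact h2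
      · intro h v hv
        obtain ⟨v', rfl, hv'⟩ := (run_end hU hb hG hC U _).1 hv
        rw [List.all_eq_true]
        intro w hw
        obtain ⟨w', rfl, hw'⟩ := (run_end hU hb hG hC U _).1 hw
        rw [decide_eq_true_iff, decide_eq_decide, hlab, hlab']
        exact h v' hv' w' hw'
    · constructor
      · intro h v hv
        have h1 := h (v : ℕ) ((run_end hU hb hG hC U _).2 ⟨v, rfl, hv⟩)
        rw [decide_eq_true_iff] at h1
        rw [← hcyc, ← hcyc', h1]
      · intro h v hv
        obtain ⟨v', rfl, hv'⟩ := (run_end hU hb hG hC U _).1 hv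
        have h1 := h v' hv'
        rw [← hcyc, ← hcyc'] at h1
        rw [decide_eq_true_iff, Bool.eq_iff_iff]
        exact h1
  unfold testB Rel
  rw [← hagr, ← hok, ← hok']
  cases okB (gl d) (mask X) <;> cases okB (gl d) (mask X') <;> simp

end

/-! ### The number of classes, and soundness -/

section

variable {m : ℕ} {d : Fin m → Fin (2 * m) × Fin (2 * m)}

theorem Rel.refl' (U X : Finset (Fin m)) : Rel d U X X := by
  by_cases h : Ind d X
  · exact Or.inr ⟨h, h, fun _ _ _ _ => Iff.rfl, fun _ _ => Iff.rfl⟩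
  · exact Or.inl ⟨h, h⟩

theorem Rel.symm' {U X X' : Finset (Fin m)} (h : Rel d U X X') : Rel d U X' X := by
  rcases h with ⟨h1, h2⟩ | ⟨h1, h2, h3, h4⟩
  · exact Or.inl ⟨h2, h1⟩
  · exact Or.inr ⟨h2, h1, fun v hv w hw => (h3 v hv w hw).symm, fun v hv => (h4 v hv).symm⟩

theorem Rel.trans' {U X X' X'' : Finset (Fin m)} (h : Rel d U X X') (h' : Rel d U X' X'') :
    Rel d U X X'' := by
  rcases h with ⟨h1, h2⟩ | ⟨h1, h2, h3, h4⟩ <;> rcases h' with ⟨k1, k2⟩ | ⟨k1, k2, k3, k4⟩
  · exact Or.inl ⟨h1, k2⟩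
  · exact absurd k1 h2
  · exact absurd h2 k1
  · exact Or.inr ⟨h1, k2, fun v hv w hw => (h3 v hv w hw).trans (k3 v hv w hw),
      fun v hv => (h4 v hv).trans (k4 v hv)⟩

theorem Rel.sim (hG : S_GRE) (hC : S_COL) (hE : S_ESS) (hL : S_GLU) (hb : Bas d)
    {U X X' : Finset (Fin m)} (hX : X ⊆ U) (hX' : X' ⊆ U) (h : Rel d U X X') :
    Sim (Ind d) U X X' := by
  intro Z hZ
  obtain ⟨-, -, -, hE4⟩ := hE hG hC m (2 * m) d hb
  have hd : Disjoint U Z := by
    rw [Finset.disjoint_left]
    intro e h1 h2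
    exact Finset.mem_compl.1 (hZ h2) h1
  rcases h with ⟨h1, h2⟩ | ⟨h1, h2, h3⟩
  · constructor
    · intro h; exact absurd (hb.ind_mono _ _ subset_union_left h) h1
    · intro h; exact absurd (hb.ind_mono _ _ subset_union_left h) h2
  · have hs : ∀ X : Finset (Fin m), star d U X ⊆ X := fun X e he => (mem_star.1 he).1
    have hdj : ∀ X ⊆ U, Disjoint (star d U X) (Z ∩ Ess d) := by
      intro X hX
      rw [Finset.disjoint_left]
      intro e he he'
      exact Finset.disjoint_left.1 hd (hX (hs X he)) (mem_inter.1 he').1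
    rw [hE4 U X Z hX hd, hE4 U X' Z hX' hd]
    refine (hL m (2 * m) d hb (tch d (Uᶜ ∩ Ess d)) _ _ (Z ∩ Ess d) ?_ (hdj X hX) (hdj X' hX') h3
      ⟨fun _ => hb.ind_mono _ _ (hs X') h2, fun _ => hb.ind_mono _ _ (hs X) h1⟩).1
    intro v hv
    obtain ⟨e, he, h⟩ := mem_tch.1 hv
    exact mem_tch.2 ⟨e, Finset.inter_subset_inter_right hZ he, h⟩

theorem Rel.classes (hG : S_GRE) (hI : S_IND) (hC : S_COL) (hE : S_ESS) (hR : S_RNK) (hA : S_LAM)
    (hS : S_SID) (hT : S_TWO) (hN : S_CNT) (h1 : S_TH1) (h2 : S_TH2) (h3 : S_TH3) (hD : S_DAT)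
    (hK : S_CLS) (hb : Bas d) {U : Finset (Fin m)} {l : ℕ} (hl : ConnLe (Ind d) U l) :
    ∃ cls : Finset (Fin m) → Fin (2 ^ (36 * l ^ 2 + 18 * l) + 1),
      ∀ X ⊆ U, ∀ X' ⊆ U, cls X = cls X' → Rel d U X X' := by
  classical
  obtain ⟨hE1, hE2, hE3, -⟩ := hE hG hC m (2 * m) d hb
  set A := U ∩ Ess d with hAdef
  set B := Uᶜ ∩ Ess d with hBdef
  set P := tch d A ∩ tch d B with hP
  have hAB : A ∪ B = Ess d := by
    ext e
    simp only [hAdef, hBdef, mem_union, mem_inter, mem_compl]
    tauto
  have hpair : Pair d A B P := by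
    refine ⟨?_, fun v => by rw [hP, mem_inter], ?_⟩
    · rw [Finset.disjoint_left]
      intro e he he'
      exact (mem_compl.1 (mem_inter.1 he').1) (mem_inter.1 he).1
    · rw [hAB]
      exact hE1
  have hsA : Sides d A P := hS m (2 * m) d hb A B P hpair
  have hsB : Sides d B P := hS m (2 * m) d hb B A P hpair.symm
  have hlam : rk d A + rk d B ≤ l + rk d (Ess d) := hA m (2 * m) d hb U l hl
  have hr1 := hR hG hI m (2 * m) d hb A
  have hr2 := hR hG hI m (2 * m) d hb B
  have hr3 := hR hG hI m (2 * m) d hb (A ∪ B)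
  rw [← hAB] at hlam
  have hcore : (core d P A B).card ≤ 6 * l :=
    hN m (2 * m) d hb A B P l hpair.hP (hT m (2 * m) d hb A P hsA) (hT m (2 * m) d hb B P hsB)
      (by omega)
  obtain ⟨cls, hcls⟩ := hK m (2 * m) d A B P l hcore
  have hclosed : ∀ X ⊆ U, Closed d A B (star d U X) := by
    intro X hX
    refine ⟨fun e he => ?_, fun f hf e he hn => ?_⟩
    · obtain ⟨h4, h5, -⟩ := mem_star.1 he
      exact mem_inter.2 ⟨hX h4, h5⟩
    · rw [hAB] at hn
      exact hE3 U X e f hf (mem_inter.1 he).1 (hE2 e f hn)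
  refine ⟨fun X => if Ind d X then (cls (star d U X)).castSucc else Fin.last _, ?_⟩
  intro X hX X' hX' heq
  by_cases i1 : Ind d X <;> by_cases i2 : Ind d X'
  · simp only [if_pos i1, if_pos i2] at heq
    refine Or.inr ⟨i1, i2, ?_⟩
    exact hD h1 h2 h3 m (2 * m) d hb A B P hpair hsA hsB _ _ (hclosed X hX) (hclosed X' hX')
      (hcls _ _ (Fin.castSucc_injective _ heq))
  · simp only [if_pos i1, if_neg i2] at heq
    exact absurd heq (Fin.castSucc_lt_last _).ne
  · simp only [if_neg i1, if_pos i2] at heq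
    exact absurd heq.symm (Fin.castSucc_lt_last _).ne
  · exact Or.inl ⟨i1, i2⟩

end

/-! ### Sizes -/

theorem sz_ofFn_bool {m : ℕ} (X : Finset (Fin m)) : sz (mask X) ≤ 4 * m + 1 := by
  have h := sz_listBool_le (mask X)
  have : (mask X).length = m := by simp [mask]
  rwa [this] at h

theorem sz_gl {m : ℕ} (d : Fin m → Fin (2 * m) × Fin (2 * m)) : sz (gl d) ≤ m * (16 * m + 4) + 1 := by
  have h := sz_le_length_mul (gl d) (16 * m + 3) (by
    intro z hz
    simp only [gl, List.mem_ofFn] at hz
    obtain ⟨e, rfl⟩ := hz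
    have h1 := sz_nat_le ((d e).1 : ℕ)
    have h2 := sz_nat_le ((d e).2 : ℕ)
    have h3 := Poly.size_le_self ((d e).1 : ℕ)
    have h4 := Poly.size_le_self ((d e).2 : ℕ)
    have h5 := (d e).1.2
    have h6 := (d e).2.2
    rw [sz_pair]
    omega)
  rwa [gl_length] at h

theorem eval_le_pow (p : Polynomial ℕ) {x : ℕ} (hx : 1 ≤ x) :
    p.eval x ≤ p.eval 1 * x ^ p.natDegree := by
  rw [Polynomial.eval_eq_sum_range, Polynomial.eval_eq_sum_range, Finset.sum_mul]
  refine Finset.sum_le_sum fun i hi => ?_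
  rw [one_pow, mul_one]
  exact Nat.mul_le_mul le_rfl (Nat.pow_le_pow_right hx (Nat.lt_succ_iff.1 (Finset.mem_range.1 hi)))

theorem TmRuns.mono' {M : TM2ComputableAux Bool Bool} {x y : List Bool} {t t' : ℕ}
    (h : TmRuns M x y t) (ht : t ≤ t') : TmRuns M x y t' := by
  obtain ⟨h⟩ := h
  exact ⟨⟨h.toEvalsTo, h.steps_le_m.trans ht⟩⟩

theorem of_poly {α β : Type} [TEnc α] [TEnc β] {f : α → β} (h : Poly f) :
    ∃ (M : TM2ComputableAux Bool Bool) (p : Polynomial ℕ), ∀ a, TmRuns M (bits a) (bits (f a))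
      (p.eval (sz a)) := by
  obtain ⟨M, g, p, -, hM⟩ := FptTime.of_poly (κ := fun _ => 0) h
  refine ⟨M, Polynomial.C (g 0) * p, fun a => ?_⟩
  have := hM a
  rw [bits_length] at this
  rw [Polynomial.eval_mul, Polynomial.eval_C]
  exact this

theorem poly_okT : Poly (fun q : List (ℕ × ℕ) × List Bool => okB q.1 q.2) :=
  Pool.Agent.NPC.BC.poly_okB (Poly.fst Poly.id) (Poly.snd Poly.id)

/-- **The class of bicircular matroids is efficiently pigeonhole** (all parts are hypotheses) -/
theorem main (hJ : S_JIN) (hB : S_BAS) (hG : S_GRE) (hI : S_IND) (hC : S_COL) (hE : S_ESS)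
    (hR : S_RNK) (hA : S_LAM) (hL : S_GLU) (hS : S_SID) (hT : S_TWO) (hN : S_CNT) (h1 : S_TH1)
    (h2 : S_TH2) (h3 : S_TH3) (hD : S_DAT) (hK : S_CLS) (hU : S_UFS) :
    Succinct Graph.m (fun G => Ind G.ends) Graph.list ∧
      EfficientlyPigeonhole Graph.m (fun G => Ind G.ends) Graph.list := by
  constructor
  · obtain ⟨M, p, hM⟩ := of_poly poly_okT
    refine ⟨M, p.comp (Polynomial.X * (Polynomial.C 16 * Polynomial.X + Polynomial.C 4) +
      Polynomial.C 4 * Polynomial.X + Polynomial.C 3), fun G X => ?_⟩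
    have hb := hB hJ G.m (2 * G.m) G.ends
    refine ⟨okB G.list (mask X), run_okB hU hb hG hC X, ?_⟩
    refine TmRuns.mono' (hM (G.list, mask X)) ?_
    rw [Polynomial.eval_comp]
    refine eval_mono p ?_
    have e1 := sz_gl G.ends
    have e2 := sz_ofFn_bool X
    change sz (G.list, mask X) ≤ _
    rw [sz_pair]
    simp only [Polynomial.eval_add, Polynomial.eval_mul, Polynomial.eval_C, Polynomial.eval_X]
    change sz (gl G.ends) + _ + 1 ≤ _
    omega
  · obtain ⟨M, p, hM⟩ := of_poly Pool.Agent.NPC.BC.poly_test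
    refine ⟨2 * p.natDegree, p.eval 1 * 16 ^ p.natDegree, fun l => 2 ^ (36 * l ^ 2 + 18 * l) + 1,
      fun _ => M, fun l G U hl => ?_⟩
    have hb := hB hJ G.m (2 * G.m) G.ends
    refine ⟨Rel G.ends U, ⟨fun X _ => Rel.refl' U X, fun X _ X' _ h => h.symm',
      fun X _ X' _ X'' _ h h' => h.trans' h'⟩, fun X hX X' hX' h => h.sim hG hC hE hL hb hX hX',
      Rel.classes hG hI hC hE hR hA hS hT hN h1 h2 h3 hD hK hb hl, fun X _ X' _ => ?_⟩
    refine ⟨testB G.list (mask U) (mask X) (mask X'), run_test hU hb hG hC U X X', ?_⟩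
    refine TmRuns.mono' (hM (G.list, mask U, mask X, mask X')) ?_
    have e1 := sz_gl G.ends
    have e2 := sz_ofFn_bool U
    have e3 := sz_ofFn_bool X
    have e4 := sz_ofFn_bool X'
    have e5 : sz (G.list, mask U, mask X, mask X') ≤ 16 * (G.m + 1) ^ 2 := by
      rw [sz_pair, sz_pair, sz_pair]
      change sz (gl G.ends) + _ + 1 ≤ _
      nlinarith
    refine (eval_mono p e5).trans ?_
    refine (eval_le_pow p (by nlinarith)).trans ?_
    rw [mul_pow, ← pow_mul, ← mul_assoc]
    refine Nat.mul_le_mul ?_ le_rfl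
    exact Nat.le_mul_of_pos_right _ (by positivity)

end Pool.Agent.T2h18.BC
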