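import Pool.Agent.T2h18.BC.Defs

set_option autoImplicit false

/-!
# Project BC: the statements of the parts (full proofs in the comments)

Everything is elementary graph theory for the definitions in `Defs.lean`: `J d F u v` (joined by edges
in `F`), `vs`/`es` (vertices and edges of the component of `v`), `Ind` (each component has at most as many
edges as vertices), `Cyc d F v` (the component of `v` has at least as many edges as vertices).
Below `x = (d f).1`, `y = (d f).2` are the ends of `f`.
Each statement takes the parts it needs as hypotheses, so all tasks are independent.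
-/

namespace Pool.Agent.T2h18.BC

open Finset

/-- (JIN, 30 lines) The formula for `J d (insert f F)`.
Proof. `→`: the relation on the right is an equivalence relation containing the generators (induction over
`EqvGen`). `←`: `J.mono` and `J.edge`. -/
def S_JIN : Prop := ∀ (m n : ℕ) (d : Fin m → Fin n × Fin n) (F : Finset (Fin m)) (f : Fin m)
  (u v : Fin n), J d (insert f F) u v ↔
    J d F u v ∨ (J d F u (d f).1 ∧ J d F (d f).2 v) ∨ (J d F u (d f).2 ∧ J d F (d f).1 v)

/-- (BAS, 150 lines) All the basic facts of the structure `Bas`, from the formula for `J d (insert f F)`.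
Proof. Let `f ∉ F`. If `v` is joined (in `F`) to `x` or `y` then `vs (insert f F) v = vs F x ∪ vs F y` and
`es (insert f F) v = insert f (es F x ∪ es F y)`; otherwise both are as in `F`. If `J F x y` then
`vs F x = vs F y`, `es F x = es F y`; if not then they are disjoint. Hence the numbers of vertices and edges
of the new component are `(a, b + 1)` in the first case, `(a + a', b + b' + 1)` in the second one.
`card_le` (`a ≤ b + 1`): induction on `F`. Then `ind_insert`, `cyc_insert` are arithmetic: by `card_le` not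
`Cyc` means `a = b + 1`, and `Ind`, `Cyc` give `a = b`. `cyc_mono`, `ind_mono`: induction on `F \ Y` with
`cyc_insert`, `ind_insert` (use `Finset.induction_on` for `Z` in `Y ∪ Z`). `bridge`: apply `cyc_insert` to
`F.erase f` (`insert f (F.erase f) = F`) at `v = x`. -/
def S_BAS : Prop := S_JIN → ∀ (m n : ℕ) (d : Fin m → Fin n × Fin n), Bas d

/-- (GRE, 80 lines) A maximal independent subset.
Proof. Induction on `F`. For `insert f F` with `f ∉ F` take `Y` for `F`. If `Cyc F x ∧ Cyc F y` (equivalently
for `Y`) keep `Y`: the component of a `v` with `Cyc (insert f F) v` false is not joined to `x`, `y` (in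
`F`). Otherwise take `insert f Y`; it is independent by `ind_insert`; check the equivalences with
`cyc_insert`, `J_insert` (if for example `¬ Cyc F x` then `J Y x w ↔ J F x w` for all `w`, and if
`J F v x` then `v` is also not `Cyc`, so `J Y v x`). -/
def S_GRE : Prop := ∀ (m n : ℕ) (d : Fin m → Fin n × Fin n), Bas d → ∀ F : Finset (Fin m),
  ∃ Y ⊆ F, Ind d Y ∧ (∀ v, Cyc d Y v ↔ Cyc d F v) ∧ ∀ v w, ¬ Cyc d F v → (J d Y v w ↔ J d F v w)

/-- (IND, 80 lines) The number of edges of an independent set.
Proof. Induction on `Y` (`ind_mono`, `ind_insert`): `nc ∅ = n` (all components are single vertices, `vs ∅` is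
injective), and the insertion of `f` with `Ind (insert f Y)` lowers `nc` by one: if `x`, `y` are in the same
component, it was a tree and becomes `Cyc`; if not, at least one of the components is a tree; two trees
become one tree, a tree and a `Cyc` component become `Cyc`. -/
def S_IND : Prop := ∀ (m n : ℕ) (d : Fin m → Fin n × Fin n), Bas d → ∀ Y : Finset (Fin m), Ind d Y →
  Y.card + nc d Y = n

/-- (RNK, 60 lines) The rank formula.
Proof. `≥`: the `Y` of `GRE` has `nc Y = nc F`. `≤`: for independent `Y ⊆ F` we have `nc F ≤ nc Y`: by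
`cyc_mono` a component of `F` which is a tree contains the component with respect to `Y` of each of its
vertices, also a tree; map the tree components `vs Y v` of `Y`... choose for each tree component of `F` a
vertex `v`; the sets `vs Y v` are different. (`Finset.card_le_card_of_injOn` or surjectivity: the map
`vs Y v ↦ vs F v` is well defined on a subset of the tree components of `Y` and onto.) -/
def S_RNK : Prop := S_GRE → S_IND → ∀ (m n : ℕ) (d : Fin m → Fin n × Fin n), Bas d →
  ∀ F : Finset (Fin m), rk d F + nc d F = n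

/-- (COL, 40 lines) The criterion for `Col`.
Proof. `←`: `ind_insert` and `cyc_mono`. `→`: if both are `Cyc` take the `Y` of `GRE` for `F.erase f`; then
`insert f Y` is not independent by `ind_insert`. -/
def S_COL : Prop := S_GRE → ∀ (m n : ℕ) (d : Fin m → Fin n × Fin n), Bas d →
  ∀ (F : Finset (Fin m)) (f : Fin m), Col d F f ↔
    ¬ (Cyc d (F.erase f) (d f).1 ∧ Cyc d (F.erase f) (d f).2)

/-- (ESS, 120 lines) The essential edges and the essential part.
Proof. (A) If `Y ⊆ E'' ` is independent, where `E'' = Y ∩ Ess`, and we add edges which are not in `Ess` one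
by one, it stays independent (`Col d univ g` for `g ∉ Ess`). (1) Let `f ∈ Ess`: there is an independent
`Y ∌ f` with `insert f Y` dependent (definition of `Col d univ f`). Then `insert f (Y ∩ Ess)` is dependent
by (A) (if it were independent, add the other elements of `Y`). So `¬ Col d Ess f`; use the criterion.
(2) The same with `univ.erase e` and `(Ess).erase e`: if `¬ Col d (univ.erase e) f` take `Y`; then
`insert f (Y ∩ Ess)` is dependent and `Y ∩ Ess ⊆ (Ess.erase e).erase f`.
(3) `e ∈ X` by definition. `e ∈ Ess`: if `Col d univ e`, then `Col d univ f`: for independent `Y ∌ f`,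
`Y.erase e` with `f` is independent by `Col d (univ.erase e) f`, then add `e` back by `Col d univ e`.
Let `e' ∈ U` with `Col d (univ.erase e') e`; to show `e' ∈ X`. If `e' = f` then `f ∈ X`. Otherwise it is enough
to show `Col d (univ.erase e') f`: let `Y ∌ e', f` be independent; `Y.erase e` with `f` is independent
(`Col d (univ.erase e) f`), and if `e ∈ Y` add `e` by `Col d (univ.erase e') e`.
(4) `→` `ind_mono`. `←`: add the missing elements `g` of `X ∪ Z` one by one: `g ∈ Z \ Ess` or `g ∈ X \ Ess`:
`Col d univ g`; `g ∈ X` with `Col d (univ.erase e) g` for some `e ∈ U \ X`: all sets considered are in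
`X ∪ Z ∌ e` (as `U` and `Z` are disjoint). -/
def S_ESS : Prop := S_GRE → S_COL → ∀ (m n : ℕ) (d : Fin m → Fin n × Fin n), Bas d →
  (∀ f ∈ Ess d, Cyc d ((Ess d).erase f) (d f).1 ∧ Cyc d ((Ess d).erase f) (d f).2) ∧
  (∀ e f, ¬ (Cyc d (((Ess d).erase e).erase f) (d f).1 ∧ Cyc d (((Ess d).erase e).erase f) (d f).2) →
    Col d (univ.erase e) f) ∧
  (∀ (U X : Finset (Fin m)) (e f : Fin m), f ∈ star d U X → e ∈ U → Col d (univ.erase e) f →
    e ∈ star d U X) ∧
  ∀ U X Z : Finset (Fin m), X ⊆ U → Disjoint U Z →
    (Ind d (X ∪ Z) ↔ Ind d (star d U X ∪ (Z ∩ Ess d)))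

/-- (LAM, 50 lines) Connectivity and the essential edges.
Proof. `rk U ≥ rk (U ∩ Ess) + |U \ Ess|`: a maximal independent subset of `U ∩ Ess` together with all of
`U \ Ess` is independent (`Col d univ g` for the `g ∉ Ess`, one by one). `rk univ ≤ rk Ess + |univ \ Ess|`:
`Y = (Y ∩ Ess) ∪ (Y \ Ess)`. -/
def S_LAM : Prop := ∀ (m n : ℕ) (d : Fin m → Fin n × Fin n), Bas d → ∀ (U : Finset (Fin m)) (l : ℕ),
  rk d U + rk d Uᶜ ≤ l + rk d univ → rk d (U ∩ Ess d) + rk d (Uᶜ ∩ Ess d) ≤ l + rk d (Ess d)

/-- (GLU, 80 lines) Gluing.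
Proof. Induction on `Z`. For `insert f Z`, `f ∉ Z`: `x, y ∈ P` as `tch (insert f Z) ⊆ P`; `f ∉ Y₁ ∪ Z`. By
`J_insert`, `cyc_insert`, `ind_insert` everything about `insert f (Y ∪ Z)` on `P` is expressed by `J`,
`Cyc`, `Ind` of `Y ∪ Z` on `P`. -/
def S_GLU : Prop := ∀ (m n : ℕ) (d : Fin m → Fin n × Fin n), Bas d → ∀ (P : Finset (Fin n))
  (Y₁ Y₂ Z : Finset (Fin m)), tch d Z ⊆ P → Disjoint Y₁ Z → Disjoint Y₂ Z → Agree d P Y₁ Y₂ →
  (Ind d Y₁ ↔ Ind d Y₂) → (Ind d (Y₁ ∪ Z) ↔ Ind d (Y₂ ∪ Z)) ∧ Agree d P (Y₁ ∪ Z) (Y₂ ∪ Z)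

/-- A graph `A ∪ B` in which each edge is essential; `P` is the set of the vertices where `A` and `B` meet -/
structure Pair {m n : ℕ} (d : Fin m → Fin n × Fin n) (A B : Finset (Fin m)) (P : Finset (Fin n)) :
    Prop where
  disj : Disjoint A B
  hP : ∀ v, v ∈ P ↔ v ∈ tch d A ∧ v ∈ tch d B
  ess : ∀ f ∈ A ∪ B, Cyc d ((A ∪ B).erase f) (d f).1 ∧ Cyc d ((A ∪ B).erase f) (d f).2

theorem Pair.symm {m n : ℕ} {d : Fin m → Fin n × Fin n} {A B : Finset (Fin m)} {P : Finset (Fin n)}
    (h : Pair d A B P) : Pair d B A P :=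
  ⟨h.disj.symm, fun v => by rw [h.hP, and_comm], by rw [union_comm]; exact h.ess⟩

/-- Each edge of a tree component of `A` has vertices of `P` on both sides. -/
def Sides {m n : ℕ} (d : Fin m → Fin n × Fin n) (A : Finset (Fin m)) (P : Finset (Fin n)) : Prop :=
  ∀ f ∈ A, ¬ Cyc d A (d f).1 →
    (∃ p ∈ P, J d (A.erase f) (d f).1 p) ∧ ∃ q ∈ P, J d (A.erase f) (d f).2 q

/-- (SID, 60 lines)
Proof. `bridge`: after the deletion of `f` the components `S` of `x` and `S'` of `y` in `A.erase f` are
different and not `Cyc`. If `S` has no vertex of `P` then no edge of `B` has an end in `S` (such an end would be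
in `tch B`, and in `tch A`: either `S = {x}`, `x ∈ tch A` because of `f`, or it is the end of an edge of `A`;
generally each vertex of `vs A x` is in `tch A`). So `S` is also the component of `x` in
`(A ∪ B).erase f`, with the same edges, and it is not `Cyc`, contradicting `ess`. The same for `y`. -/
def S_SID : Prop := ∀ (m n : ℕ) (d : Fin m → Fin n × Fin n), Bas d → ∀ (A B : Finset (Fin m))
  (P : Finset (Fin n)), Pair d A B P → Sides d A P

/-- (TWO, 30 lines) Tree components of `A` have at least two vertices of `P`.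
Proof. `v` is the end of an edge `f ∈ A`; `Sides` gives `p`, `q` in the component of `v`, and `p ≠ q` because
`x`, `y` are not joined in `A.erase f` (`bridge`). -/
def S_TWO : Prop := ∀ (m n : ℕ) (d : Fin m → Fin n × Fin n), Bas d → ∀ (A : Finset (Fin m))
  (P : Finset (Fin n)), Sides d A P → ∀ v ∈ tch d A, ¬ Cyc d A v → 2 ≤ (P ∩ vs d A v).card

/-- (CNT, 150 lines) The core has at most `6 l` vertices.
Proof. Let `T_A` be the set of the components `vs A v` with `v ∈ tch A`, not `Cyc`, and `t_A` their number.
The vertices outside `tch A` are single components which are not `Cyc`, so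
`nc A = (n - |tch A|) + t_A`; also `nc (A ∪ B) ≥ n - |tch A ∪ tch B|` (the vertices outside are single
components). So the hypothesis gives `|P| ≤ l + t_A + t_B` (inclusion-exclusion, `P = tch A ∩ tch B`).
The sets `P ∩ S`, `S ∈ T_A`, are disjoint subsets of `P` with at least two elements (h2). Let
`x_A = |P| - 2 t_A ≥ 0`. The set `C_A = {b ∈ P : not Thin A b}` consists of the `b` with `Cyc A b` and of
the `P ∩ S`, `S ∈ T_A`, with at least three elements, so
`|C_A| = |P| - 2 #{S : |P ∩ S| = 2} ≤ 3 x_A` (since `x_A = |Cyc part| + Σ_S (|P ∩ S| - 2)` and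
`k ≤ 3 (k - 2)` for `k ≥ 3`). In the same way for `B`. Now `2 |P| ≤ 2 l + 2 t_A + 2 t_B` gives
`x_A + x_B ≤ 2 l`, and `core = C_A ∪ C_B`, so `|core| ≤ 3 (x_A + x_B) ≤ 6 l`. -/
def S_CNT : Prop := ∀ (m n : ℕ) (d : Fin m → Fin n × Fin n), Bas d → ∀ (A B : Finset (Fin m))
  (P : Finset (Fin n)) (l : ℕ), (∀ v, v ∈ P ↔ v ∈ tch d A ∧ v ∈ tch d B) →
  (∀ v ∈ tch d A, ¬ Cyc d A v → 2 ≤ (P ∩ vs d A v).card) →
  (∀ v ∈ tch d B, ¬ Cyc d B v → 2 ≤ (P ∩ vs d B v).card) →
  n + nc d (A ∪ B) ≤ l + nc d A + nc d B → (core d P A B).card ≤ 6 * l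

/-- (TH1, 60 lines) In a thin component the two vertices of `P` are joined by `Y` only if `Y` contains the
whole component.
Proof. `P ∩ vs A b = {b, b'}`. `←`: if `es A b ⊆ Y` then the walk from `b` to `b'` is in `Y` (a vertex set
closed under the edges of `Y`: show that `{w : J Y b w}` is closed under the edges of `A`: `J.closed`).
`→`: let `f ∈ es A b`, `f ∉ Y`. Then `J (A.erase f) b b'`. `Sides`: there are `p, q ∈ P` joined in
`A.erase f` to `x`, `y`; they are in `P ∩ vs A b`, and different (`bridge`: `x`, `y` are not joined in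
`A.erase f`), so `{p, q} = {b, b'}` and `b`, `b'` are not joined in `A.erase f`, contradiction. -/
def S_TH1 : Prop := ∀ (m n : ℕ) (d : Fin m → Fin n × Fin n), Bas d → ∀ (A : Finset (Fin m))
  (P : Finset (Fin n)), Sides d A P → ∀ b ∈ P, ∀ b' ∈ P, b ≠ b' → J d A b b' → Thin d P A b →
  ∀ Y ⊆ A, (J d Y b b' ↔ es d A b ⊆ Y)

/-- (TH2, 150 lines) Consecutive thin components are in series.
Here `u, w ∈ P` are the two ends of a thin component `T'` of `B`, `T₀`, `T₁` are the components of `u`, `w` in
`A`, both thin and different, `f ∈ T₀`, `e ∈ T₁`.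
Proof. `T₀ \ f` has two parts which are trees (`bridge`), each with a vertex of `P` (`Sides`), so `u` is in one
of them, say (by symmetry of the ends `x`, `y` of `f`) `x` is in the part `S₀` of `u`, and `u` is the only
vertex of `P` in `S₀` (thin: `|P ∩ T₀| = 2` and the other part contains the other one). In the same way
let `S₁` be the part of `T₁ \ e` which contains `w`; `w` is its only vertex in `P`. The set
`S = S₀ ∪ T' ∪ S₁` is closed under the edges of `((A ∪ B).erase e).erase f`: an edge of `B` with an end in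
`S` has this end in `T'` (ends of edges of `B` in `S₀`, `S₁` are in `P`, hence `u`, `w`), an edge of `A` with
an end in `T'` has this end in `P ∩ T' = {u, w}`. The number of vertices is `|S₀| + |T'| + |S₁| - 2`, the
number of edges is `(|S₀| - 1) + (|T'| - 1) + (|S₁| - 1)`, so the component of `x` is not `Cyc`. (It is
connected: it is equal to `S`. Instead of counting one can also use `cyc_insert`-type arguments: the
components of `u` with respect to `(A.erase e).erase f` and to `B` are not `Cyc` and meet only in `u`, ...; or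
build it from `J_insert`, `cyc_insert` by inserting the edges of `T'` and `S₁` one by one. Choose the
easiest way; a useful lemma: if `F₁`, `F₂` are disjoint, `v` is not `Cyc` in both, and
`vs F₁ v ∩ tch F₂ ⊆ {v}`, ... ) -/
def S_TH2 : Prop := ∀ (m n : ℕ) (d : Fin m → Fin n × Fin n), Bas d → ∀ (A B : Finset (Fin m))
  (P : Finset (Fin n)), Pair d A B P → Sides d A P → Sides d B P →
  ∀ u ∈ P, ∀ w ∈ P, u ≠ w → J d B u w → Thin d P B u → Thin d P A u → Thin d P A w → ¬ J d A u w →
  ∀ f ∈ es d A u, ∀ e ∈ es d A w,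
    ¬ (Cyc d (((A ∪ B).erase e).erase f) (d f).1 ∧ Cyc d (((A ∪ B).erase e).erase f) (d f).2)

/-- (TH3, 150 lines) There is no closed chain.
Proof. Let `V` be the union of the `vs A b` and the `vs B b`, `b ∈ K`. It is closed under the edges of
`A ∪ B`: an edge of `A` with an end `v ∈ vs B b` has `v ∈ P` so `v ∈ K`. Let `F = A ∪ B`. The number of edges
with ends in `V`: the components `vs A b`, `b ∈ K`, are trees, there are `|K| / 2` of them (each contains
exactly two elements of `K`: `Thin`, and the second one is in `K` by the hypothesis), so they have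
`|∪ vs A b| - |K| / 2` edges; the same for `B`; and `(∪ vs A b) ∩ (∪ vs B b) = K` (a common vertex is in
`P`: in `tch A` and in `tch B`, and so in `K`). Hence the number of edges is
`(|V_A| + |V_B|) - |K| = |V|`. Take an edge `f ∈ A` with ends in `V` (exists: `b ∈ tch A`). By `ess` and
`cyc_insert` all `v ∈ V` are `Cyc` in `F.erase f`: (`v` is `Cyc` in `F`: otherwise the component of `v` in
`F` is a tree with an edge, and this edge would contradict `ess` by `bridge`; if the component of `v` in
`F` does not contain `f` it is the same in `F.erase f`, otherwise `v` is joined to `x` or `y` in `F.erase f`).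
Summing over the components in `V` (`V` is a disjoint union of components `vs (F.erase f) v`), the number
of edges of `F.erase f` with ends in `V` is at least `|V|`: contradiction. -/
def S_TH3 : Prop := ∀ (m n : ℕ) (d : Fin m → Fin n × Fin n), Bas d → ∀ (A B : Finset (Fin m))
  (P : Finset (Fin n)), Pair d A B P → ∀ K ⊆ P, K.Nonempty →
  (∀ b ∈ K, Thin d P A b ∧ Thin d P B b) → (∀ b ∈ K, ∀ b' ∈ P, J d A b b' → b' ∈ K) →
  (∀ b ∈ K, ∀ b' ∈ P, J d B b b' → b' ∈ K) → False

/-- a subset of `A` which is closed under series edges -/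
def Closed {m n : ℕ} (d : Fin m → Fin n × Fin n) (A B Y : Finset (Fin m)) : Prop :=
  Y ⊆ A ∧ ∀ f ∈ Y, ∀ e ∈ A, ¬ (Cyc d (((A ∪ B).erase e).erase f) (d f).1 ∧
    Cyc d (((A ∪ B).erase e).erase f) (d f).2) → e ∈ Y

/-- the partner of `b` in `P` in its component in `A` (if it is thin); `b` itself otherwise -/
def Partner {m n : ℕ} (d : Fin m → Fin n × Fin n) (P : Finset (Fin n)) (A : Finset (Fin m))
    (b b' : Fin n) : Prop := b' ∈ P ∧ b' ≠ b ∧ J d A b b' ∧ Thin d P A b

/-- The data of `Y` on the core: components and cycles on the core, and for `c` in the core with thin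
`A`-side (with thin `B`-side) whether `c` and its partner (the partner `b` of `c` in `B` and the partner of
`b` in `A`) are joined by `Y`. -/
def SameData {m n : ℕ} (d : Fin m → Fin n × Fin n) (A B : Finset (Fin m)) (P : Finset (Fin n))
    (Y₁ Y₂ : Finset (Fin m)) : Prop :=
  Agree d (core d P A B) Y₁ Y₂ ∧
  (∀ c ∈ core d P A B, ∀ b, Partner d P A c b → (J d Y₁ c b ↔ J d Y₂ c b)) ∧
  (∀ c ∈ core d P A B, ∀ b b', Partner d P B c b → Partner d P A b b' → (J d Y₁ b b' ↔ J d Y₂ b b'))

/-- (DAT, 150 lines) The data determine everything.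
Proof. Let `N = P \ core`. For `b ∈ N` let `u(b)`, `w(b)` be its partners in `A`, `B` (`Thin`). Claim: for
`b ∈ N`: `J Y₁ b u(b) ↔ J Y₂ b u(b)`. Call the `b ∈ N` with this property good, and let `K` be the set of the
bad ones. If `b ∈ K` then `u(b) ∉ core` (second part of `SameData` with `c = u(b)`; its component in `A` is
the same, so thin), so `u(b) ∈ N`, and it is bad (partner `b`). If `b ∈ K` then `w(b) ∉ core` (third part with
`c = w(b)`), so `w(b) ∈ N`, and `w(b)` is bad: if `J A b w(b)` then `w(b) = u(b)`, clear. Otherwise by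
`TH2`, `TH1` and `Closed`: `es A b ⊆ Y ↔ es A (w b) ⊆ Y` for `Y = Y₁, Y₂` (`es A b` is not empty, take
`f ∈ es A b`, if `es A b ⊆ Y` then `f ∈ Y` and so each `e ∈ es A (w b)` is in `Y`; the converse by symmetry),
so `J Y b u(b) ↔ J Y (w b) u(w b)`. Hence `K` is closed, and by `TH3` it is empty.
Now let `v, w ∈ tch B`. If `v ∉ tch A`, it is isolated in `Y₁`, `Y₂ ⊆ A` (`J_of_not_tch`), not `Cyc`. So
assume that both are in `P`. If both are in the core use `Agree`. If `v ∈ N`, `v ≠ w` and `J Yᵢ v w` then
`w ∈ P ∩ vs A v`, so `w = u(v)`; use the claim. `Cyc Yᵢ v` is false for `v ∈ N` by `cyc_mono`. -/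
def S_DAT : Prop := S_TH1 → S_TH2 → S_TH3 → ∀ (m n : ℕ) (d : Fin m → Fin n × Fin n), Bas d →
  ∀ (A B : Finset (Fin m)) (P : Finset (Fin n)), Pair d A B P → Sides d A P → Sides d B P →
  ∀ Y₁ Y₂ : Finset (Fin m), Closed d A B Y₁ → Closed d A B Y₂ → SameData d A B P Y₁ Y₂ →
  Agree d (tch d B) Y₁ Y₂

/-- (CLS, 60 lines) The number of possible data.
Proof. `SameData Y₁ Y₂` follows from the equality of the four functions `core → core → Bool`, `core → Bool`,
`core → Bool`, `core → Bool` (use `Classical.choose` for the partners, which are unique: `Thin` says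
`|P ∩ vs A c| = 2`); the number of such quadruples is `2^(k^2 + 3 k)`, `k ≤ 6 l`. -/
def S_CLS : Prop := ∀ (m n : ℕ) (d : Fin m → Fin n × Fin n), ∀ (A B : Finset (Fin m))
  (P : Finset (Fin n)) (l : ℕ), (core d P A B).card ≤ 6 * l →
  ∃ cls : Finset (Fin m) → Fin (2 ^ (36 * l ^ 2 + 18 * l)),
    ∀ Y₁ Y₂, cls Y₁ = cls Y₂ → SameData d A B P Y₁ Y₂

/-- one step of union-find; the entry number `v` is the label of the component of `v` and the flag which
tells whether it contains a cycle -/
def stp (s : List (ℕ × Bool)) (e : ℕ × ℕ) : List (ℕ × Bool) :=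
  s.map fun z => if z.1 = (s.getD e.1 (0, false)).1 ∨ z.1 = (s.getD e.2 (0, false)).1 then
    ((s.getD e.1 (0, false)).1, decide ((s.getD e.1 (0, false)).1 = (s.getD e.2 (0, false)).1) ||
      (s.getD e.1 (0, false)).2 || (s.getD e.2 (0, false)).2) else z

/-- the initial state -/
def ini (k : ℕ) : List (ℕ × Bool) := (List.range k).map fun i => (i, false)

/-- union-find -/
def uf (k : ℕ) (L : List (ℕ × ℕ)) : List (ℕ × Bool) := L.foldl stp (ini k)

/-- one step of the test of independence -/
def stq (s : List (ℕ × Bool) × Bool) (e : ℕ × ℕ) : List (ℕ × Bool) × Bool :=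
  (stp s.1 e, s.2 && !((s.1.getD e.1 (0, false)).2 && (s.1.getD e.2 (0, false)).2))

/-- the test of independence -/
def okf (k : ℕ) (L : List (ℕ × ℕ)) : Bool := (L.foldl stq (ini k, true)).2

/-- (UFS, 100 lines) Union-find is correct.
Proof. Induction on `l` from the right (`List.reverseRecOn`, `foldl_append`): invariant: the length of the
list is `n`, the three equivalences; step by `J_insert`, `cyc_insert`, `ind_insert` for the new edge
`f ∉ l.toFinset`. -/
def S_UFS : Prop := ∀ (m n : ℕ) (d : Fin m → Fin n × Fin n), Bas d → ∀ l : List (Fin m), l.Nodup →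
  (∀ u v : Fin n, (((uf n (l.map fun e => (((d e).1 : ℕ), ((d e).2 : ℕ)))).getD u (0, false)).1 =
    ((uf n (l.map fun e => (((d e).1 : ℕ), ((d e).2 : ℕ)))).getD v (0, false)).1 ↔
      J d l.toFinset u v)) ∧
  (∀ v : Fin n, ((uf n (l.map fun e => (((d e).1 : ℕ), ((d e).2 : ℕ)))).getD v (0, false)).2 = true ↔
    Cyc d l.toFinset v) ∧
  (okf n (l.map fun e => (((d e).1 : ℕ), ((d e).2 : ℕ))) = true ↔ Ind d l.toFinset)

end Pool.Agent.T2h18.BC
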